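import Pool.Agent.J6H1.RG.Stm

/-! # Module RG-BIL: the exponential sum of a quadratic form with a `± 1` block -/

set_option autoImplicit false

namespace Pool.Agent.J6H1.RG

open Finset Function Pool.Agent.H832R2.JR

namespace BIL

variable {N m : ℕ}

theorem sum_extend' (u : Fin m → Fin N) (hu : Injective u) {R : Type} [CommSemiring R]
    (g : (Fin N → Bool) → R) :
    ∑ x : Fin m → Bool, ∑ y : Fin N → Bool, g (extend u x y) =
      2 ^ m * ∑ w : Fin N → Bool, g w := by
  rw [← Fintype.sum_prod_type' (f := fun x y => g (extend u x y))]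
  have e : ∑ p : (Fin m → Bool) × (Fin N → Bool), g (extend u p.1 p.2) =
      ∑ p : (Fin m → Bool) × (Fin N → Bool), g p.2 := by
    refine Fintype.sum_equiv (Function.Involutive.toPerm
      (fun p : (Fin m → Bool) × (Fin N → Bool) => (p.2 ∘ u, extend u p.1 p.2)) ?_) _ _ ?_
    · rintro ⟨x, y⟩
      simp only [Prod.mk.injEq]
      constructor
      · funext k
        simp [hu.extend_apply]
      · funext i
        by_cases hi : ∃ k, u k = i
        · obtain ⟨k, rfl⟩ := hi
          rw [hu.extend_apply]; rfl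
        · rw [extend_apply' _ _ _ hi, extend_apply' _ _ _ hi]
    · rintro ⟨x, y⟩
      rfl
  rw [e, Fintype.sum_prod_type]
  simp

theorem sgn_extend (u : Fin m → Fin N) (hu : Injective u) (x : Fin m → Bool) (y : Fin N → Bool)
    (i : Fin N) : sgn (extend u x y i) =
      (∑ k, if u k = i then sgn (x k) else 0) + if ∃ k, u k = i then 0 else sgn (y i) := by
  by_cases hi : ∃ k, u k = i
  · obtain ⟨k, rfl⟩ := hi
    rw [hu.extend_apply, if_pos ⟨k, rfl⟩, add_zero]
    rw [sum_eq_single k]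
    · simp
    · intro l _ hl
      rw [if_neg (fun h => hl (hu h))]
    · intro h; exact absurd (mem_univ k) h
  · rw [extend_apply' _ _ _ hi, if_neg hi, sum_eq_zero, zero_add]
    intro k _
    rw [if_neg (fun h => hi ⟨k, h⟩)]

/-- the linear form -/
def LL (D : Fin N → Fin N → ℤ) (u : Fin m → Fin N) (y : Fin N → Bool) (a : Fin m) : ℤ :=
  ∑ j, D (u a) j * if ∃ k, u k = j then 0 else sgn (y j)

theorem Q_extend (D : Fin N → Fin N → ℤ) (hD : ∀ i j, D i j = D j i) (u : Fin m → Fin N)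
    (hu : Injective u) (h0 : ∀ a b, D (u a) (u b) = 0) (y : Fin N → Bool) :
    ∃ b : ℤ, ∀ x : Fin m → Bool,
      Q D (extend u x y) = 2 * ∑ k, sgn (x k) * LL D u y k + b := by
  classical
  let η : Fin N → ℤ := fun j => if ∃ l, u l = j then 0 else sgn (y j)
  let ξ : (Fin m → Bool) → Fin N → ℤ := fun x i => ∑ k, if u k = i then sgn (x k) else 0
  have hsplit : ∀ x i, sgn (extend u x y i) = ξ x i + η i := fun x i => sgn_extend u hu x y i
  have hξ : ∀ (x : Fin m → Bool) (g : Fin N → ℤ), ∑ i, ξ x i * g i = ∑ k, sgn (x k) * g (u k) := by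
    intro x g
    simp only [ξ, sum_mul]
    rw [sum_comm]
    refine sum_congr rfl fun k _ => ?_
    simp [ite_mul]
  have hξξ : ∀ x, ∑ i, ∑ j, D i j * (ξ x i * ξ x j) = 0 := by
    intro x
    have e1 : ∀ i, ∑ j, D i j * (ξ x i * ξ x j) = ξ x i * ∑ k, sgn (x k) * D i (u k) := by
      intro i
      rw [← hξ x (fun j => D i j), mul_sum]
      exact sum_congr rfl fun j _ => by ring
    simp only [e1]
    rw [hξ x]
    refine sum_eq_zero fun k _ => ?_
    rw [sum_eq_zero fun l _ => ?_, mul_zero]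
    rw [h0, mul_zero]
  have hQ : ∀ x, Q D (extend u x y) = ∑ i, ∑ j, D i j * (ξ x i * ξ x j) +
      2 * ∑ i, ξ x i * ∑ j, D i j * η j + ∑ i, ∑ j, D i j * (η i * η j) := by
    intro x
    have h1 : ∑ i, ∑ j, D i j * (η i * ξ x j) = ∑ i, ∑ j, D i j * (ξ x i * η j) := by
      rw [sum_comm]
      refine sum_congr rfl fun i _ => sum_congr rfl fun j _ => ?_
      rw [hD j i]; ring
    have h2 : ∑ i, ξ x i * ∑ j, D i j * η j = ∑ i, ∑ j, D i j * (ξ x i * η j) := by
      refine sum_congr rfl fun i _ => ?_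
      rw [mul_sum]
      exact sum_congr rfl fun j _ => by ring
    unfold Q
    rw [h2, two_mul]
    nth_rewrite 2 [← h1]
    rw [← sum_add_distrib, ← sum_add_distrib, ← sum_add_distrib]
    refine sum_congr rfl fun i _ => ?_
    rw [← sum_add_distrib, ← sum_add_distrib, ← sum_add_distrib]
    refine sum_congr rfl fun j _ => ?_
    rw [hsplit, hsplit]; ring
  refine ⟨∑ i, ∑ j, D i j * (η i * η j), fun x => ?_⟩
  rw [hQ, hξξ, hξ, zero_add]
  rfl

theorem LL_extend (D : Fin N → Fin N → ℤ) (u v : Fin m → Fin N) (hv : Injective v)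
    (huv : ∀ a b, u a ≠ v b) (t : Fin m → Bool) (y : Fin N → Bool) (a : Fin m) :
    LL D u (extend v t y) a = ∑ b, D (u a) (v b) * sgn (t b) +
      ∑ j, D (u a) j * if (∃ k, u k = j) ∨ ∃ k, v k = j then 0 else sgn (y j) := by
  classical
  unfold LL
  have e1 : ∀ j, (if ∃ k, u k = j then 0 else sgn (extend v t y j)) =
      (∑ k, if v k = j then sgn (t k) else 0) +
        if (∃ k, u k = j) ∨ ∃ k, v k = j then 0 else sgn (y j) := by
    intro j
    by_cases h1 : ∃ k, u k = j
    · rw [if_pos h1, if_pos (Or.inl h1), add_zero, sum_eq_zero]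
      intro k _
      obtain ⟨l, rfl⟩ := h1
      rw [if_neg fun h => huv l k h.symm]
    · rw [if_neg h1, sgn_extend v hv]
      congr 1
      simp only [h1, false_or]
  simp only [e1, mul_add]
  rw [sum_add_distrib]
  congr 1
  simp only [mul_sum]
  rw [sum_comm]
  refine sum_congr rfl fun k _ => ?_
  simp [mul_ite]

theorem mix_extend (E : Finset (Fin N)) (u : Fin m → Fin N) (hu : Injective u) (hE : ∀ a, u a ∈ E)
    (w z : Fin N → Bool) (s : Fin m → Bool) :
    mix E w (extend u s z) = extend u s (mix E w z) := by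
  funext i
  by_cases hi : ∃ k, u k = i
  · obtain ⟨k, rfl⟩ := hi
    unfold mix
    rw [if_pos (hE k), hu.extend_apply, hu.extend_apply]
  · rw [extend_apply' _ _ _ hi]
    unfold mix
    rw [extend_apply' _ _ _ hi]

theorem ef_add (x y : ℝ) : ef (x + y) = ef x * ef y := by
  unfold ef
  rw [← Complex.exp_add]
  congr 1
  push_cast
  ring

theorem ef_sum {ι : Type} (s : Finset ι) (f : ι → ℝ) : ef (∑ i ∈ s, f i) = ∏ i ∈ s, ef (f i) := by
  classical
  induction s using Finset.induction_on with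
  | empty => simp [ef]
  | insert a s ha ih => rw [sum_insert ha, prod_insert ha, ef_add, ih]

theorem norm_ef (x : ℝ) : ‖ef x‖ = 1 := by
  unfold ef
  have : (2 * Real.pi * x * Complex.I : ℂ) = ((2 * Real.pi * x : ℝ) : ℂ) * Complex.I := by
    push_cast; ring
  rw [this, Complex.norm_exp_ofReal_mul_I]

theorem ef_two (x : ℝ) : ‖ef x + ef (-x)‖ = 2 * |Real.cos (2 * Real.pi * x)| := by
  have : ef x + ef (-x) = ((2 * Real.cos (2 * Real.pi * x) : ℝ) : ℂ) := by
    unfold ef
    push_cast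
    rw [Complex.cos]
    have h1 : (2 * Real.pi * -(x : ℂ) * Complex.I : ℂ) = -(2 * Real.pi * x) * Complex.I := by ring
    rw [h1]
    ring
  rw [this, Complex.norm_real, Real.norm_eq_abs, abs_mul, abs_of_pos (by norm_num : (0 : ℝ) < 2)]

/-- the sum over the first half -/
theorem sum_first (D : Fin N → Fin N → ℤ) (hD : ∀ i j, D i j = D j i) (u : Fin m → Fin N)
    (hu : Injective u) (h0 : ∀ a b, D (u a) (u b) = 0) (y : Fin N → Bool) (θ : ℝ) :
    ‖∑ s : Fin m → Bool, ef (θ * (Q D (extend u s y) : ℤ))‖ =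
      2 ^ m * ∏ a, |Real.cos (4 * Real.pi * θ * (LL D u y a : ℤ))| := by
  obtain ⟨b, hb⟩ := Q_extend D hD u hu h0 y
  have e1 : ∀ s : Fin m → Bool, ef (θ * (Q D (extend u s y) : ℤ)) =
      ef (θ * b) * ∏ a, ef (2 * θ * (LL D u y a : ℤ) * (sgn (s a) : ℤ)) := by
    intro s
    rw [hb, ← ef_sum, ← ef_add]
    congr 1
    push_cast
    rw [mul_add, add_comm, mul_sum, mul_sum]
    congr 1
    refine sum_congr rfl fun k _ => ?_
    ring
  simp only [e1]
  rw [← mul_sum, norm_mul, norm_ef, one_mul]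
  have e2 : ∑ s : Fin m → Bool, ∏ a, ef (2 * θ * (LL D u y a : ℤ) * (sgn (s a) : ℤ)) =
      ∏ a, ∑ c : Bool, ef (2 * θ * (LL D u y a : ℤ) * (sgn c : ℤ)) := by
    rw [prod_univ_sum, Fintype.piFinset_univ]
  rw [e2, norm_prod]
  have e3 : ∀ a, ‖∑ c : Bool, ef (2 * θ * (LL D u y a : ℤ) * (sgn c : ℤ))‖ =
      2 * |Real.cos (4 * Real.pi * θ * (LL D u y a : ℤ))| := by
    intro a
    rw [Fintype.sum_bool]
    simp only [sgn, if_true]
    have h1 : (2 * θ * (LL D u y a : ℤ) * ((1 : ℤ) : ℝ)) = 2 * θ * (LL D u y a : ℤ) := by simp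
    have h2 : (2 * θ * (LL D u y a : ℤ) * ((if false = true then (1 : ℤ) else -1 : ℤ) : ℝ)) =
        -(2 * θ * (LL D u y a : ℤ)) := by simp
    rw [h1, h2, ef_two]
    congr 3
    ring
  simp only [e3]
  rw [prod_mul_distrib]
  simp

end BIL

open BIL in
theorem t_BIL : S_BIL := by
  intro hT N m D u v θ hm hD hu hv huv huv1 huu _ hθ w
  obtain ⟨E, hE⟩ : ∃ E : Finset (Fin N), E = univ.image u ∪ univ.image v := ⟨_, rfl⟩
  rw [← hE]
  have hEu : ∀ a, u a ∈ E := fun a => by rw [hE]; simp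
  have hEv : ∀ a, v a ∈ E := fun a => by rw [hE]; simp
  have hp : (0 : ℝ) < 2 ^ m := by positivity
  -- the sum over the first half
  have h1 : ‖∑ z : Fin N → Bool, ef (θ * (Q D (mix E w z) : ℤ))‖ ≤
      ∑ z : Fin N → Bool, ∏ a, |Real.cos (4 * Real.pi * θ * (LL D u (mix E w z) a : ℤ))| := by
    have e1 := sum_extend' u hu (fun z => ef (θ * (Q D (mix E w z) : ℤ)))
    rw [sum_comm] at e1
    have e2 : 2 ^ m * ‖∑ z : Fin N → Bool, ef (θ * (Q D (mix E w z) : ℤ))‖ =
        ‖(2 : ℂ) ^ m * ∑ z : Fin N → Bool, ef (θ * (Q D (mix E w z) : ℤ))‖ := by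
      rw [norm_mul, norm_pow]
      simp
    rw [← e1] at e2
    have e3 := norm_sum_le univ fun z : Fin N → Bool =>
      ∑ s : Fin m → Bool, ef (θ * (Q D (mix E w (extend u s z)) : ℤ))
    rw [← e2] at e3
    have e4 : ∀ z : Fin N → Bool,
        ‖∑ s : Fin m → Bool, ef (θ * (Q D (mix E w (extend u s z)) : ℤ))‖ =
        2 ^ m * ∏ a, |Real.cos (4 * Real.pi * θ * (LL D u (mix E w z) a : ℤ))| := by
      intro z
      simp only [mix_extend E u hu hEu]
      exact sum_first D hD u hu huu _ θ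
    simp only [e4] at e3
    rw [← mul_sum] at e3
    exact le_of_mul_le_mul_left e3 hp
  refine h1.trans ?_
  -- the sum over the second half
  have e1 := sum_extend' v hv (fun z : Fin N → Bool =>
    ∏ a, |Real.cos (4 * Real.pi * θ * (LL D u (mix E w z) a : ℤ))|)
  rw [sum_comm] at e1
  have e2 : ∀ z : Fin N → Bool, ∑ t : Fin m → Bool,
      ∏ a, |Real.cos (4 * Real.pi * θ * (LL D u (mix E w (extend v t z)) a : ℤ))| ≤
      2 ^ m * (1 - (8 * Real.pi * θ * m) ^ 2 / 16) := by
    intro z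
    have h := hT m (fun a b => D (u a) (v b))
      (fun a => ((∑ j, D (u a) j * if (∃ k, u k = j) ∨ ∃ k, v k = j then 0
        else sgn (mix E w z j) : ℤ) : ℝ)) (4 * Real.pi * θ) hm (fun a b => huv1 a b)
      (by
        have : 2 * (4 * Real.pi * θ) * m = 8 * Real.pi * θ * m := by ring
        rw [this]
        exact hθ)
    have h3 : 2 * (4 * Real.pi * θ) * m = 8 * Real.pi * θ * m := by ring
    rw [h3] at h
    refine le_trans (le_of_eq ?_) h
    refine sum_congr rfl fun t _ => prod_congr rfl fun a _ => ?_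
    rw [mix_extend E v hv hEv, LL_extend D u v hv huv]
    congr 2
    push_cast
    rfl
  have e3 : 2 ^ m * ∑ z : Fin N → Bool,
      ∏ a, |Real.cos (4 * Real.pi * θ * (LL D u (mix E w z) a : ℤ))| ≤
      2 ^ m * (2 ^ N * (1 - (8 * Real.pi * θ * m) ^ 2 / 16)) := by
    rw [← e1]
    refine (sum_le_sum fun z _ => e2 z).trans (le_of_eq ?_)
    rw [sum_const, card_univ, Fintype.card_fun, Fintype.card_bool, Fintype.card_fin, nsmul_eq_mul]
    push_cast
    ring
  exact le_of_mul_le_mul_left e3 hp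

end Pool.Agent.J6H1.RG
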