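import Pool.Agent.J6H1.RG.Stm

/-!
# Random Gauss words: `S_CELL`, the exchange of the two halves of a cell (module of helper37)
-/

set_option autoImplicit false

namespace Pool.Agent.J6H1.RG

open Finset Function Pool.Agent.H832R2.JR

namespace CE

variable {N m K : ℕ}

theorem cross_iff (G : GaussWord N) {i j : Fin N} (hij : i ≠ j) : Crosses G i j ↔
    ¬ (((G (i, false) < G (j, false)) ↔ (G (i, true) < G (j, false))) ↔
      ((G (i, false) < G (j, true)) ↔ (G (i, true) < G (j, true)))) := by
  have h1 : (G (i, false) : ℕ) ≠ G (j, false) := fun h => hij (by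
    have := G.injective (Fin.ext h); simpa using this)
  have h2 : (G (i, true) : ℕ) ≠ G (j, false) := fun h => hij (by
    have := G.injective (Fin.ext h); simp at this)
  have h3 : (G (i, false) : ℕ) ≠ G (j, true) := fun h => hij (by
    have := G.injective (Fin.ext h); simp at this)
  have h4 : (G (i, true) : ℕ) ≠ G (j, true) := fun h => hij (by
    have := G.injective (Fin.ext h); simpa using this)
  have h5 : (G (i, false) : ℕ) ≠ G (i, true) := fun h => by
    have := G.injective (Fin.ext h); simp at this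
  simp only [Fin.lt_def]
  unfold Crosses Pool.Agent.H832R2.JR.Btw
  omega

theorem adj_eq (G1 G2 : GaussWord N) (i j : Fin N)
    (h : ∀ b b', (G1 (i, b) < G1 (j, b') ↔ G2 (i, b) < G2 (j, b'))) :
    adjm G1 i j = adjm G2 i j := by
  unfold adjm
  rcases eq_or_ne i j with rfl | hij
  · rw [if_neg (not_crosses_self G1 i), if_neg (not_crosses_self G2 i)]
  · have e : Crosses G1 i j ↔ Crosses G2 i j := by
      rw [cross_iff G1 hij, cross_iff G2 hij]
      simp only [h]
    by_cases hc : Crosses G2 i j
    · rw [if_pos hc, if_pos (e.2 hc)]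
    · rw [if_neg hc, if_neg (fun h => hc (e.1 h))]

theorem tog_aux (P : Bool → Bool → Prop) (Q : Bool → Bool → Prop) (b b' : Bool)
    (h0 : ¬ (P b b' ↔ Q b b')) (h1 : P b (!b') ↔ Q b (!b')) (h2 : P (!b) b' ↔ Q (!b) b')
    (h3 : P (!b) (!b') ↔ Q (!b) (!b')) :
    ¬ ((P false false ↔ P true false) ↔ (P false true ↔ P true true)) ↔
    ¬ ¬ ((Q false false ↔ Q true false) ↔ (Q false true ↔ Q true true)) := by
  cases b <;> cases b' <;> simp only [Bool.not_false, Bool.not_true] at h0 h1 h2 h3 <;>
    by_cases q1 : Q false false <;> by_cases q2 : Q false true <;> by_cases q3 : Q true false <;>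
    by_cases q4 : Q true true <;> simp_all

theorem adj_tog (G1 G2 : GaussWord N) {i j : Fin N} (hij : i ≠ j) (b b' : Bool)
    (h0 : ¬ (G1 (i, b) < G1 (j, b') ↔ G2 (i, b) < G2 (j, b')))
    (h1 : (G1 (i, b) < G1 (j, !b') ↔ G2 (i, b) < G2 (j, !b')))
    (h2 : (G1 (i, !b) < G1 (j, b') ↔ G2 (i, !b) < G2 (j, b')))
    (h3 : (G1 (i, !b) < G1 (j, !b') ↔ G2 (i, !b) < G2 (j, !b'))) :
    adjm G1 i j - adjm G2 i j = 1 ∨ adjm G1 i j - adjm G2 i j = -1 := by
  have e : Crosses G1 i j ↔ ¬ Crosses G2 i j := by
    rw [cross_iff G1 hij, cross_iff G2 hij]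
    exact tog_aux (fun c c' => G1 (i, c) < G1 (j, c')) (fun c c' => G2 (i, c) < G2 (j, c')) b b'
      h0 h1 h2 h3
  unfold adjm
  by_cases hc : Crosses G2 i j
  · right
    rw [if_pos hc, if_neg (fun h => e.1 h hc)]
    norm_num
  · left
    rw [if_neg hc, if_pos (e.2 hc)]
    norm_num

/-- membership in the cell `k` -/
def inC (p q : Fin K → Fin m → Fin (2 * N)) (k : Fin K) (x : Fin (2 * N)) : Prop :=
  ∃ a, p k a = x ∨ q k a = x

open Classical in
/-- the exchange -/
noncomputable def tf (p q : Fin K → Fin m → Fin (2 * N)) (k : Fin K) (x : Fin (2 * N)) :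
    Fin (2 * N) :=
  if h : ∃ a, p k a = x then q k h.choose else if h : ∃ a, q k a = x then p k h.choose else x

variable {X : Finset (Fin (2 * N))} {p q : Fin K → Fin m → Fin (2 * N)}

theorem tf_p (hC : Cells N m K X p q) (k : Fin K) (a : Fin m) : tf p q k (p k a) = q k a := by
  have h : ∃ a', p k a' = p k a := ⟨a, rfl⟩
  unfold tf
  rw [dif_pos h, (hC.mp k).injective h.choose_spec]

theorem tf_q (hC : Cells N m K X p q) (k : Fin K) (a : Fin m) : tf p q k (q k a) = p k a := by
  have h1 : ¬ ∃ a', p k a' = q k a := fun ⟨a', h⟩ => (hC.pq k a' a).ne h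
  have h : ∃ a', q k a' = q k a := ⟨a, rfl⟩
  unfold tf
  rw [dif_neg h1, dif_pos h, (hC.mq k).injective h.choose_spec]

theorem tf_out (k : Fin K) {x : Fin (2 * N)} (h : ¬ inC p q k x) : tf p q k x = x := by
  have h1 : ¬ ∃ a, p k a = x := fun ⟨a, ha⟩ => h ⟨a, Or.inl ha⟩
  have h2 : ¬ ∃ a, q k a = x := fun ⟨a, ha⟩ => h ⟨a, Or.inr ha⟩
  unfold tf
  rw [dif_neg h1, dif_neg h2]

theorem tf_in (hC : Cells N m K X p q) (k : Fin K) {x : Fin (2 * N)} (h : inC p q k x) :
    inC p q k (tf p q k x) := by
  obtain ⟨a, rfl | rfl⟩ := h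
  · exact ⟨a, Or.inr (tf_p hC k a).symm⟩
  · exact ⟨a, Or.inl (tf_q hC k a).symm⟩

theorem tf_tf (hC : Cells N m K X p q) (k : Fin K) (x : Fin (2 * N)) :
    tf p q k (tf p q k x) = x := by
  by_cases h : inC p q k x
  · obtain ⟨a, rfl | rfl⟩ := h
    · rw [tf_p hC, tf_q hC]
    · rw [tf_q hC, tf_p hC]
  · rw [tf_out k h, tf_out k h]

theorem inC_X (hC : Cells N m K X p q) {k : Fin K} {x : Fin (2 * N)} (h : inC p q k x) :
    x ∈ X := by
  obtain ⟨a, rfl | rfl⟩ := h
  · exact hC.hp k a
  · exact hC.hq k a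

theorem sep (hC : Cells N m K X p q) {k l : Fin K} (hkl : k < l) {x y : Fin (2 * N)}
    (hx : inC p q k x) (hy : inC p q l y) : x < y := by
  obtain ⟨a, ha⟩ := hx
  obtain ⟨b, hb⟩ := hy
  have h := hC.kl k l hkl a b
  have h1 := hC.pq k a a
  have h2 := hC.pq l b b
  rcases ha with rfl | rfl <;> rcases hb with rfl | rfl
  · exact h1.trans h
  · exact h1.trans (h.trans h2)
  · exact h
  · exact h.trans h2

theorem disj (hC : Cells N m K X p q) {k l : Fin K} (hkl : l ≠ k) {x : Fin (2 * N)}
    (hx : inC p q l x) : ¬ inC p q k x := by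
  intro hy
  rcases lt_or_gt_of_ne hkl with h | h
  · exact lt_irrefl _ (sep hC h hx hy)
  · exact lt_irrefl _ (sep hC h hy hx)

theorem cmp0 {k : Fin K} {A B : Fin (2 * N)} (hA : ¬ inC p q k A) (hB : ¬ inC p q k B) :
    tf p q k A < tf p q k B ↔ A < B := by
  rw [tf_out k hA, tf_out k hB]

theorem not_in_of_big (hC : Cells N m K X p q) (hX : ∀ x ∈ X, (x : ℕ) < N) {k : Fin K}
    {A : Fin (2 * N)} (hA : N ≤ (A : ℕ)) : ¬ inC p q k A := by
  intro h
  have := hX _ (inC_X hC h)
  omega

theorem cmp2 (hC : Cells N m K X p q) (hX : ∀ x ∈ X, (x : ℕ) < N) {k : Fin K} {A B : Fin (2 * N)}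
    (hA : inC p q k A) (hB : N ≤ (B : ℕ)) :
    (tf p q k A < tf p q k B ↔ A < B) ∧ (tf p q k B < tf p q k A ↔ B < A) := by
  rw [tf_out k (not_in_of_big hC hX hB)]
  have h1 := hX _ (inC_X hC hA)
  have h2 := hX _ (inC_X hC (tf_in hC k hA))
  simp only [Fin.lt_def]
  constructor <;> constructor <;> intro _ <;> omega

theorem cmp3 (hC : Cells N m K X p q) {k l : Fin K} (hkl : l ≠ k) {A B : Fin (2 * N)}
    (hA : inC p q k A) (hB : inC p q l B) :
    (tf p q k A < tf p q k B ↔ A < B) ∧ (tf p q k B < tf p q k A ↔ B < A) := by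
  rw [tf_out k (disj hC hkl hB)]
  have h2 := tf_in hC k hA
  rcases lt_or_gt_of_ne hkl with h | h
  · have s1 := sep hC h hB hA
    have s2 := sep hC h hB h2
    exact ⟨⟨fun h' => absurd h' s2.not_gt, fun h' => absurd h' s1.not_gt⟩, ⟨fun _ => s1, fun _ => s2⟩⟩
  · have s1 := sep hC h hA hB
    have s2 := sep hC h h2 hB
    exact ⟨⟨fun _ => s1, fun _ => s2⟩, ⟨fun h' => absurd h' s2.not_gt, fun h' => absurd h' s1.not_gt⟩⟩

/-- a place in the cell `l` or `≥ N` compared with any place: nothing changes under `τ k` -/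
theorem cmp4 (hC : Cells N m K X p q) (hX : ∀ x ∈ X, (x : ℕ) < N) {k l : Fin K} (hkl : l ≠ k)
    {A B : Fin (2 * N)} (hA : inC p q l A ∨ N ≤ (A : ℕ)) :
    (tf p q k A < tf p q k B ↔ A < B) ∧ (tf p q k B < tf p q k A ↔ B < A) := by
  by_cases hB : inC p q k B
  · rcases hA with hA | hA
    · exact (cmp3 hC hkl hB hA).symm
    · exact (cmp2 hC hX hB hA).symm
  · have hA' : ¬ inC p q k A := by
      rcases hA with hA | hA
      · exact disj hC hkl hA
      · exact not_in_of_big hC hX hA
    exact ⟨cmp0 hA' hB, cmp0 hB hA'⟩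

theorem mem_act (G : GaussWord N) (i : Fin N) (b : Bool) : G (i, b) ∈ act G ↔
    (G (i, b) : ℕ) < N ∧ N ≤ (G (i, !b) : ℕ) := by
  unfold act
  simp

/-- the places of a letter with a place in `X` -/
theorem typ (G : GaussWord N) (hG : act G = X) {x : Fin (2 * N)} (hx : x ∈ X) (b : Bool) :
    G (ch G x, b) = x ∨ N ≤ (G (ch G x, b) : ℕ) := by
  have e : G (ch G x, (G.symm x).2) = x := by
    unfold ch
    simp
  rcases eq_or_ne b (G.symm x).2 with rfl | hb
  · exact Or.inl e
  · right
    have hb' : b = !(G.symm x).2 := by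
      revert hb
      cases b <;> cases (G.symm x).2 <;> simp
    rw [hb']
    rw [← hG, ← e, mem_act] at hx
    exact hx.2

theorem typ' (hC : Cells N m K X p q) (G : GaussWord N) (hG : act G = X) {k : Fin K} {i : Fin N}
    {b : Bool} (h : inC p q k (G (i, b))) (b' : Bool) :
    inC p q k (G (i, b')) ∨ N ≤ (G (i, b') : ℕ) := by
  have hx := inC_X hC h
  have e : ch G (G (i, b)) = i := by
    unfold ch
    simp
  have := typ G hG hx b'
  rw [e] at this
  rcases this with h1 | h1
  · left
    rw [h1]
    exact h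
  · exact Or.inr h1

end CE

open CE in
theorem t_CELL : S_CELL := by
  intro N m K X p q hC
  refine ⟨fun k => (show Involutive (tf p q k) from tf_tf hC k).toPerm, fun k x => tf_tf hC k x, ?_⟩
  intro G hG k
  have hX : ∀ x ∈ X, (x : ℕ) < N := by
    intro x hx
    rw [← hG] at hx
    unfold act at hx
    exact (Finset.mem_filter.1 hx).2.1
  set τ : Fin K → Equiv.Perm (Fin (2 * N)) :=
    fun k => (show Involutive (tf p q k) from tf_tf hC k).toPerm with hτ
  have hap : ∀ (G : GaussWord N) k r, (G.trans (τ k)) r = tf p q k (G r) := fun G k r => rfl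
  refine ⟨?_, ?_, ?_, ?_, ?_, ?_⟩
  · -- the active places
    ext x
    obtain ⟨⟨i, b⟩, rfl⟩ := (G.trans (τ k)).surjective x
    rw [mem_act]
    simp only [hap]
    by_cases h : inC p q k (G (i, b))
    · have h1 := inC_X hC (tf_in hC k h)
      have h2 := hX _ h1
      have h3 : N ≤ (G (i, !b) : ℕ) := by
        have := inC_X hC h
        rw [← hG, mem_act] at this
        exact this.2
      rw [tf_out k (not_in_of_big hC hX h3)]
      exact ⟨fun _ => h1, fun _ => ⟨h2, h3⟩⟩
    · rw [tf_out k h]
      by_cases h' : inC p q k (G (i, !b))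
      · have h1 := hX _ (inC_X hC (tf_in hC k h'))
        have h4 : G (i, !b) ∈ act G := by rw [hG]; exact inC_X hC h'
        rw [mem_act, Bool.not_not] at h4
        constructor
        · intro h5
          omega
        · intro h5
          rw [← hG, mem_act] at h5
          omega
      · rw [tf_out k h', ← mem_act, hG]
  · -- toggles
    intro a b
    have ha := typ G hG (hC.hp k a)
    have hb := typ G hG (hC.hq k b)
    have ea : G (ch G (p k a), (G.symm (p k a)).2) = p k a := by unfold ch; simp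
    have eb : G (ch G (q k b), (G.symm (q k b)).2) = q k b := by unfold ch; simp
    have ea' : N ≤ (G (ch G (p k a), !(G.symm (p k a)).2) : ℕ) := by
      have := hC.hp k a
      rw [← hG, ← ea, mem_act] at this
      exact this.2
    have eb' : N ≤ (G (ch G (q k b), !(G.symm (q k b)).2) : ℕ) := by
      have := hC.hq k b
      rw [← hG, ← eb, mem_act] at this
      exact this.2
    have iA : inC p q k (p k a) := ⟨a, Or.inl rfl⟩
    have iB : inC p q k (q k b) := ⟨b, Or.inr rfl⟩
    have hne : ch G (p k a) ≠ ch G (q k b) := by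
      intro he
      have h1 := hb (G.symm (p k a)).2
      rw [← he, ea] at h1
      rcases h1 with h1 | h1
      · exact (hC.pq k a b).ne h1
      · exact not_in_of_big hC hX h1 iA
    apply adj_tog _ _ hne (G.symm (p k a)).2 (G.symm (q k b)).2
    · simp only [hap]
      rw [ea, eb, tf_p hC, tf_q hC]
      intro h
      exact absurd (h.2 (hC.pq k a b)) (hC.pq k b a).not_gt
    · simp only [hap]
      rw [ea]
      exact (cmp2 hC hX iA eb').1
    · simp only [hap]
      rw [eb]
      exact (cmp2 hC hX iB ea').2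
    · simp only [hap]
      exact cmp0 (not_in_of_big hC hX ea') (not_in_of_big hC hX eb')
  · intro a b
    apply adj_eq
    intro c c'
    simp only [hap]
    have iA : inC p q k (p k a) := ⟨a, Or.inl rfl⟩
    have iB : inC p q k (p k b) := ⟨b, Or.inl rfl⟩
    rcases typ G hG (hC.hp k a) c with h1 | h1 <;> rcases typ G hG (hC.hp k b) c' with h2 | h2
    · rw [h1, h2, tf_p hC, tf_p hC, (hC.mp k).lt_iff_lt, (hC.mq k).lt_iff_lt]
    · rw [h1]
      exact (cmp2 hC hX iA h2).1
    · rw [h2]
      exact (cmp2 hC hX iB h1).2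
    · exact cmp0 (not_in_of_big hC hX h1) (not_in_of_big hC hX h2)
  · intro a b
    apply adj_eq
    intro c c'
    simp only [hap]
    have iA : inC p q k (q k a) := ⟨a, Or.inr rfl⟩
    have iB : inC p q k (q k b) := ⟨b, Or.inr rfl⟩
    rcases typ G hG (hC.hq k a) c with h1 | h1 <;> rcases typ G hG (hC.hq k b) c' with h2 | h2
    · rw [h1, h2, tf_q hC, tf_q hC, (hC.mp k).lt_iff_lt, (hC.mq k).lt_iff_lt]
    · rw [h1]
      exact (cmp2 hC hX iA h2).1
    · rw [h2]
      exact (cmp2 hC hX iB h1).2
    · exact cmp0 (not_in_of_big hC hX h1) (not_in_of_big hC hX h2)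
  · intro l hl a j
    constructor
    · apply adj_eq
      intro c c'
      simp only [hap]
      refine (cmp4 hC hX hl ?_).1
      rcases typ G hG (hC.hp l a) c with h1 | h1
      · left
        rw [h1]
        exact ⟨a, Or.inl rfl⟩
      · exact Or.inr h1
    · apply adj_eq
      intro c c'
      simp only [hap]
      refine (cmp4 hC hX hl ?_).1
      rcases typ G hG (hC.hq l a) c with h1 | h1
      · left
        rw [h1]
        exact ⟨a, Or.inr rfl⟩
      · exact Or.inr h1
  · intro l hl i j
    by_cases h1 : (∀ b, ¬ inC p q l (G (i, b))) ∧ (∀ b, ¬ inC p q l (G (j, b)))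
    · have e1 : adjm (G.trans (τ l)) i j = adjm G i j := by
        apply adj_eq
        intro b b'
        simp only [hap]
        rw [tf_out l (h1.1 b), tf_out l (h1.2 b')]
      have e2 : adjm ((G.trans (τ l)).trans (τ k)) i j = adjm (G.trans (τ k)) i j := by
        apply adj_eq
        intro b b'
        simp only [hap]
        rw [tf_out l (h1.1 b), tf_out l (h1.2 b')]
      rw [e1, e2]
    · -- one of the two is in the cell `l`: then nothing changes under `τ k`
      have key : ∀ i j, (∃ b, inC p q l (G (i, b))) →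
          (∀ b b', (tf p q k (G (i, b)) < tf p q k (G (j, b')) ↔ G (i, b) < G (j, b')) ∧
            (tf p q k (G (j, b')) < tf p q k (G (i, b)) ↔ G (j, b') < G (i, b))) ∧
          (∀ b b', (tf p q k (tf p q l (G (i, b))) < tf p q k (tf p q l (G (j, b'))) ↔
              tf p q l (G (i, b)) < tf p q l (G (j, b'))) ∧
            (tf p q k (tf p q l (G (j, b'))) < tf p q k (tf p q l (G (i, b))) ↔
              tf p q l (G (j, b')) < tf p q l (G (i, b)))) := by
        rintro i j ⟨b0, h0⟩
        constructor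
        · intro b b'
          exact cmp4 hC hX hl (typ' hC G hG h0 b)
        · intro b b'
          apply cmp4 hC hX hl
          rcases typ' hC G hG h0 b with h2 | h2
          · exact Or.inl (tf_in hC l h2)
          · right
            rw [tf_out l (not_in_of_big hC hX h2)]
            exact h2
      have hor : (∃ b, inC p q l (G (i, b))) ∨ (∃ b, inC p q l (G (j, b))) := by
        by_contra hc
        push Not at hc
        exact h1 hc
      have e1 : adjm (G.trans (τ k)) i j = adjm G i j := by
        apply adj_eq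
        intro b b'
        simp only [hap]
        rcases hor with h | h
        · exact ((key i j h).1 b b').1
        · exact ((key j i h).1 b' b).2
      have e2 : adjm ((G.trans (τ l)).trans (τ k)) i j = adjm (G.trans (τ l)) i j := by
        apply adj_eq
        intro b b'
        simp only [hap]
        rcases hor with h | h
        · exact ((key i j h).2 b b').1
        · exact ((key j i h).2 b' b).2
      rw [e1, e2]
      ring

end Pool.Agent.J6H1.RG
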