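import Pool.Agent.J6H1.RG.Stm

/-!
# Item CLS: averaging over commuting involutions
-/

set_option autoImplicit false

namespace Pool.Agent.J6H1.RG

open Finset Function Pool.Agent.H832R2.JR

namespace CLS

lemma ef_add (x y : ℝ) : ef (x + y) = ef x * ef y := by
  unfold ef
  rw [← Complex.exp_add]
  congr 1
  push_cast
  ring

lemma ef_eq (x : ℝ) : ef x = Complex.exp (((2 * Real.pi * x : ℝ) : ℂ) * Complex.I) := by
  unfold ef
  congr 1
  push_cast
  ring

lemma norm_ef (x : ℝ) : ‖ef x‖ = 1 := by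
  rw [ef_eq]
  exact Complex.norm_exp_ofReal_mul_I _

lemma conj_ef (x : ℝ) : (starRingEnd ℂ) (ef x) = ef (-x) := by
  rw [ef_eq, ef_eq, ← Complex.exp_conj, map_mul, Complex.conj_I, Complex.conj_ofReal]
  congr 1
  push_cast
  ring

lemma norm_half (x : ℝ) : ‖(1 + ef x) / 2‖ = |Real.cos (Real.pi * x)| := by
  have h1 : (1 + ef x) / 2 = Complex.exp (((Real.pi * x : ℝ) : ℂ) * Complex.I) *
      ((Real.cos (Real.pi * x) : ℝ) : ℂ) := by
    rw [Complex.ofReal_cos, Complex.cos, ef_eq]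
    have h2 : Complex.exp (((2 * Real.pi * x : ℝ) : ℂ) * Complex.I) =
        Complex.exp (((Real.pi * x : ℝ) : ℂ) * Complex.I) *
          Complex.exp (((Real.pi * x : ℝ) : ℂ) * Complex.I) := by
      rw [← Complex.exp_add]
      congr 1
      push_cast
      ring
    have h3 : Complex.exp (((Real.pi * x : ℝ) : ℂ) * Complex.I) *
        Complex.exp (-((Real.pi * x : ℝ) : ℂ) * Complex.I) = 1 := by
      rw [← Complex.exp_add]
      have : ((Real.pi * x : ℝ) : ℂ) * Complex.I + -((Real.pi * x : ℝ) : ℂ) * Complex.I = 0 := by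
        ring
      rw [this, Complex.exp_zero]
    rw [h2, ← h3]
    ring
  rw [h1, norm_mul, Complex.norm_exp_ofReal_mul_I, one_mul, Complex.norm_real, Real.norm_eq_abs]

/-- averaging -/
lemma avg {α : Type*} {K : ℕ} (V : Finset α) (π : Fin K → α → α) (F : α → ℂ)
    (r : Fin K → α → ℂ) (h1 : ∀ k, ∀ G ∈ V, π k G ∈ V) (h2 : ∀ k, ∀ G ∈ V, π k (π k G) = G)
    (hF : ∀ k, ∀ G ∈ V, F (π k G) = F G * r k G)
    (hr : ∀ k l, k ≠ l → ∀ G ∈ V, r l (π k G) = r l G) (S : Finset (Fin K)) :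
    ∑ G ∈ V, F G = ∑ G ∈ V, (∏ l ∈ S, (1 + r l G) / 2) * F G := by
  classical
  induction S using Finset.induction_on with
  | empty => simp
  | insert k S hk ih =>
    rw [ih]
    have h3 : ∑ G ∈ V, (∏ l ∈ S, (1 + r l G) / 2) * F G =
        ∑ G ∈ V, (∏ l ∈ S, (1 + r l G) / 2) * (F G * r k G) := by
      refine Finset.sum_nbij' (π k) (π k) (h1 k) (h1 k) (h2 k) (h2 k) fun G hG => ?_
      have h4 : F G = F (π k G) * r k (π k G) := by
        rw [← hF k (π k G) (h1 k G hG), h2 k G hG]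
      have h5 : ∀ l ∈ S, (1 + r l G) / 2 = (1 + r l (π k G)) / 2 := by
        intro l hl
        rw [hr k l (fun h => hk (h ▸ hl)) G hG]
      rw [Finset.prod_congr rfl h5, h4]
    have h6 : ∑ G ∈ V, (∏ l ∈ insert k S, (1 + r l G) / 2) * F G =
        (1 / 2) * (∑ G ∈ V, (∏ l ∈ S, (1 + r l G) / 2) * F G) +
        (1 / 2) * ∑ G ∈ V, (∏ l ∈ S, (1 + r l G) / 2) * (F G * r k G) := by
      rw [Finset.mul_sum, Finset.mul_sum, ← Finset.sum_add_distrib]
      refine Finset.sum_congr rfl fun G _ => ?_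
      rw [Finset.prod_insert hk]
      ring
    rw [h6, ← h3]
    ring

end CLS

open CLS

theorem t_CLS : S_CLS := by
  intro N K V π θ M hV hinv hcomm hM
  -- the phase
  set qq : GaussWord N → (Fin N → Bool) → ℝ := fun G w => θ * ((Q (adjm G) w : ℤ) : ℝ) with hqq
  have hES : ∀ G : GaussWord N, ((‖ES G θ‖ ^ 2 : ℝ) : ℂ) =
      ∑ w : Fin N → Bool, ∑ w' : Fin N → Bool, ef (qq G w - qq G w') := by
    intro G
    have h1 : ((‖ES G θ‖ ^ 2 : ℝ) : ℂ) = ES G θ * (starRingEnd ℂ) (ES G θ) := by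
      rw [Complex.mul_conj, Complex.normSq_eq_norm_sq]
    rw [h1]
    unfold ES
    rw [map_sum, Finset.sum_mul_sum]
    refine Finset.sum_congr rfl fun w _ => Finset.sum_congr rfl fun w' _ => ?_
    rw [conj_ef, ← ef_add]
    rfl
  have hsum : ((∑ G ∈ V, ‖ES G θ‖ ^ 2 : ℝ) : ℂ) =
      ∑ w : Fin N → Bool, ∑ w' : Fin N → Bool, ∑ G ∈ V, ef (qq G w - qq G w') := by
    push_cast
    have h1 : ∀ G ∈ V, ((‖ES G θ‖ : ℂ)) ^ 2 =
        ∑ w : Fin N → Bool, ∑ w' : Fin N → Bool, ef (qq G w - qq G w') := by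
      intro G _
      rw [← hES G]
      push_cast
      rfl
    rw [Finset.sum_congr rfl h1, Finset.sum_comm]
    refine Finset.sum_congr rfl fun w _ => ?_
    rw [Finset.sum_comm]
  have hle : ∑ G ∈ V, ‖ES G θ‖ ^ 2 ≤
      ∑ w : Fin N → Bool, ∑ w' : Fin N → Bool, ‖∑ G ∈ V, ef (qq G w - qq G w')‖ := by
    have h0 : 0 ≤ ∑ G ∈ V, ‖ES G θ‖ ^ 2 := Finset.sum_nonneg fun _ _ => by positivity
    calc ∑ G ∈ V, ‖ES G θ‖ ^ 2 = ‖((∑ G ∈ V, ‖ES G θ‖ ^ 2 : ℝ) : ℂ)‖ := by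
          rw [Complex.norm_real, Real.norm_eq_abs, abs_of_nonneg h0]
      _ ≤ _ := by
          rw [hsum]
          refine (norm_sum_le _ _).trans ?_
          exact Finset.sum_le_sum fun w _ => norm_sum_le _ _
  -- the inner sums
  have hin : ∀ w w' : Fin N → Bool, ‖∑ G ∈ V, ef (qq G w - qq G w')‖ ≤
      ∑ G ∈ V, ∏ k, |Real.cos (Real.pi * (θ *
        ((Q (adjm (π k G)) w - Q (adjm G) w : ℤ) : ℝ) -
          θ * ((Q (adjm (π k G)) w' - Q (adjm G) w' : ℤ) : ℝ)))| := by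
    intro w w'
    rw [avg V π (fun G => ef (qq G w - qq G w')) (fun k G => ef (θ *
        ((Q (adjm (π k G)) w - Q (adjm G) w : ℤ) : ℝ) -
          θ * ((Q (adjm (π k G)) w' - Q (adjm G) w' : ℤ) : ℝ))) hV hinv ?_ ?_ Finset.univ]
    · refine (norm_sum_le _ _).trans (Finset.sum_le_sum fun G _ => ?_)
      rw [norm_mul, norm_ef, mul_one, norm_prod]
      refine le_of_eq (Finset.prod_congr rfl fun k _ => ?_)
      rw [norm_half]
    · intro k G _
      show ef (qq (π k G) w - qq (π k G) w') = _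
      rw [← ef_add]
      congr 1
      rw [hqq]
      push_cast
      ring
    · intro k l hkl G hG
      show ef _ = ef _
      rw [hcomm l k hkl.symm G hG w, hcomm l k hkl.symm G hG w']
  calc ∑ G ∈ V, ‖ES G θ‖ ^ 2
      ≤ ∑ w : Fin N → Bool, ∑ w' : Fin N → Bool, ‖∑ G ∈ V, ef (qq G w - qq G w')‖ := hle
    _ ≤ ∑ w : Fin N → Bool, ∑ w' : Fin N → Bool, ∑ G ∈ V, ∏ k, |Real.cos (Real.pi * (θ *
        ((Q (adjm (π k G)) w - Q (adjm G) w : ℤ) : ℝ) -
          θ * ((Q (adjm (π k G)) w' - Q (adjm G) w' : ℤ) : ℝ)))| :=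
        Finset.sum_le_sum fun w _ => Finset.sum_le_sum fun w' _ => hin w w'
    _ = ∑ G ∈ V, ∑ w : Fin N → Bool, ∑ w' : Fin N → Bool, ∏ k, |Real.cos (Real.pi * (θ *
        ((Q (adjm (π k G)) w - Q (adjm G) w : ℤ) : ℝ) -
          θ * ((Q (adjm (π k G)) w' - Q (adjm G) w' : ℤ) : ℝ)))| := by
        rw [Finset.sum_comm' (s := V) (t := fun _ => Finset.univ) (t' := Finset.univ)
          (s' := fun _ => V) (by simp)]
        refine Finset.sum_congr rfl fun w _ => ?_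
        rw [Finset.sum_comm]
    _ ≤ ∑ G ∈ V, M := Finset.sum_le_sum fun G hG => hM G hG
    _ = V.card * M := by rw [Finset.sum_const, nsmul_eq_mul]

end Pool.Agent.J6H1.RG
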