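import Pool.Agent.J6H1.RG.Stm

/-!
# Item CNT: almost all Gauss words have many active places
-/

set_option autoImplicit false

namespace Pool.Agent.J6H1.RG

namespace CNT

open Finset Function Pool.Agent.H832R2.JR

variable {N : ℕ}

/-- the pattern of a Gauss word: which passages have a place `< N` -/
def pat (G : GaussWord N) : Fin N → Bool × Bool :=
  fun c => (decide ((G (c, false) : ℕ) < N), decide ((G (c, true) : ℕ) < N))

/-- the mixed letters of a pattern -/
def mixed (P : Fin N → Bool × Bool) : Finset (Fin N) := univ.filter fun c => (P c).1 ≠ (P c).2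

theorem mixed_le (G : GaussWord N) : (mixed (pat G)).card ≤ (act G).card := by
  have hs : mixed (pat G) ⊆ (act G).image (fun x => (G.symm x).1) := by
    intro c hc
    rw [mixed, Finset.mem_filter] at hc
    have h := hc.2
    simp only [pat, ne_eq, decide_eq_decide] at h
    rw [Finset.mem_image]
    by_cases h1 : (G (c, false) : ℕ) < N
    · refine ⟨G (c, false), ?_, by simp⟩
      have h2 : ¬ (G (c, true) : ℕ) < N := fun h2 => h ⟨fun _ => h2, fun _ => h1⟩
      simp only [act, Finset.mem_filter, Finset.mem_univ, true_and, Equiv.symm_apply_apply,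
        Bool.not_false]
      exact ⟨h1, not_lt.1 h2⟩
    · refine ⟨G (c, true), ?_, by simp⟩
      have h2 : (G (c, true) : ℕ) < N := by
        by_contra h2
        exact h ⟨fun h3 => absurd h3 h1, fun h3 => absurd h3 h2⟩
      simp only [act, Finset.mem_filter, Finset.mem_univ, true_and, Equiv.symm_apply_apply,
        Bool.not_true]
      exact ⟨h2, not_lt.1 h1⟩
  exact (Finset.card_le_card hs).trans Finset.card_image_le

/-- number of Gauss words with a given pattern -/
theorem card_pat (P : Fin N → Bool × Bool) :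
    (univ.filter fun G : GaussWord N => pat G = P).card ≤ N.factorial * N.factorial := by
  classical
  by_cases hne : ∃ G0 : GaussWord N, pat G0 = P
  swap
  · rw [Finset.filter_false_of_mem (fun G _ h => hne ⟨G, h⟩)]
    simp
  obtain ⟨G0, hG0⟩ := hne
  let p : Fin N × Bool → Prop := fun s => (G0 s : ℕ) < N
  let q : Fin (2 * N) → Prop := fun x => (x : ℕ) < N
  have hq1 : Fintype.card {x // q x} = N := by
    have e : {x // q x} ≃ Fin N :=
      { toFun := fun x => ⟨x.1, x.2⟩
        invFun := fun i => ⟨⟨i, by omega⟩, i.2⟩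
        left_inv := fun x => rfl
        right_inv := fun i => rfl }
    rw [Fintype.card_congr e, Fintype.card_fin]
  have hq2 : Fintype.card {x // ¬ q x} = N := by
    have := Fintype.card_subtype_compl q
    rw [this, hq1, Fintype.card_fin]
    omega
  have hpq : ∀ s, p s ↔ q (G0 s) := fun s => Iff.rfl
  have key : ∀ G : GaussWord N, pat G = P → ∀ s, p s ↔ q (G s) := by
    intro G hG s
    have h : pat G s.1 = pat G0 s.1 := by rw [hG, hG0]
    simp only [pat, Prod.mk.injEq, decide_eq_decide] at h
    obtain ⟨c, b⟩ := s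
    cases b
    · exact h.1.symm
    · exact h.2.symm
  let F : {G : GaussWord N // pat G = P} →
      ({s // p s} ≃ {x // q x}) × ({s // ¬ p s} ≃ {x // ¬ q x}) := fun G =>
    (Equiv.subtypeEquiv G.1 (key G.1 G.2),
      Equiv.subtypeEquiv G.1 (fun s => not_congr (key G.1 G.2 s)))
  have hF : Injective F := by
    intro G H h
    apply Subtype.ext
    apply Equiv.ext
    intro s
    have h1 : F G = F H := h
    rw [Prod.ext_iff] at h1
    by_cases hs : p s
    · have := congrArg (fun e : {s // p s} ≃ {x // q x} => (e ⟨s, hs⟩ : Fin (2 * N))) h1.1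
      exact this
    · have := congrArg (fun e : {s // ¬ p s} ≃ {x // ¬ q x} => (e ⟨s, hs⟩ : Fin (2 * N))) h1.2
      exact this
  have e1 : Fintype.card ({s // p s} ≃ {x // q x}) = N.factorial := by
    rw [Fintype.card_equiv (Equiv.subtypeEquiv G0 hpq),
      Fintype.card_congr (Equiv.subtypeEquiv G0 hpq), hq1]
  have e2 : Fintype.card ({s // ¬ p s} ≃ {x // ¬ q x}) = N.factorial := by
    have e : {s // ¬ p s} ≃ {x // ¬ q x} :=
      Equiv.subtypeEquiv G0 (q := fun x => ¬ q x) (fun s => not_congr (hpq s))
    rw [Fintype.card_equiv e, Fintype.card_congr e, hq2]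
  have h := Fintype.card_le_of_injective F hF
  rw [Fintype.card_prod, e1, e2, Fintype.card_subtype] at h
  exact h

/-- the weights -/
noncomputable def wgt (b : Bool × Bool) : ℝ := if b.1 ≠ b.2 then 27 / 64 else 4 / 3

theorem wgt_pos (b : Bool × Bool) : 0 < wgt b := by
  unfold wgt; split_ifs <;> norm_num

theorem wgt_sum : ∑ b : Bool × Bool, wgt b = 337 / 96 := by
  rw [Fintype.sum_prod_type]
  simp only [Fintype.sum_bool, wgt]
  norm_num

theorem prod_wgt (P : Fin N → Bool × Bool) :
    ∏ c, wgt (P c) = (27 / 64) ^ (mixed P).card * (4 / 3) ^ (N - (mixed P).card) := by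
  unfold wgt
  rw [Finset.prod_ite, Finset.prod_const, Finset.prod_const]
  congr 2
  have h := Finset.card_filter_add_card_filter_not (s := (univ : Finset (Fin N)))
    (p := fun c => (P c).1 ≠ (P c).2)
  rw [Finset.card_univ, Fintype.card_fin] at h
  unfold mixed
  omega

theorem one_le_prod (P : Fin N → Bool × Bool) (h : 4 * (mixed P).card < N) :
    1 ≤ ∏ c, wgt (P c) := by
  rw [prod_wgt]
  set m := (mixed P).card
  have h1 : (4 / 3 : ℝ) ^ (3 * m) ≤ (4 / 3 : ℝ) ^ (N - m) :=
    pow_le_pow_right₀ (by norm_num) (by omega)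
  have h2 : (27 / 64 : ℝ) ^ m * (4 / 3) ^ (3 * m) = 1 := by
    rw [pow_mul, ← mul_pow]
    norm_num
  rw [← h2]
  exact mul_le_mul_of_nonneg_left h1 (by positivity)

theorem card_bad_pat : ((univ.filter fun P : Fin N → Bool × Bool =>
    4 * (mixed P).card < N).card : ℝ) ≤ (337 / 96) ^ N := by
  rw [← wgt_sum, Fintype.sum_pow, Finset.card_eq_sum_ones, Nat.cast_sum, Finset.sum_filter]
  refine Finset.sum_le_sum (fun P _ => ?_)
  split_ifs with h
  · simpa using one_le_prod P h
  · exact Finset.prod_nonneg (fun c _ => (wgt_pos _).le)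

theorem card_bad : ((univ.filter fun G : GaussWord N => 4 * (act G).card < N).card : ℝ) ≤
    (337 / 96) ^ N * ((N.factorial : ℝ) * N.factorial) := by
  classical
  have h1 : (univ.filter fun G : GaussWord N => 4 * (act G).card < N).card ≤
      ∑ P ∈ univ.filter (fun P : Fin N → Bool × Bool => 4 * (mixed P).card < N),
        (univ.filter fun G : GaussWord N => pat G = P).card := by
    have hm : ∀ G ∈ univ.filter (fun G : GaussWord N => 4 * (act G).card < N),
        pat G ∈ univ.filter (fun P : Fin N → Bool × Bool => 4 * (mixed P).card < N) := by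
      intro G hG
      rw [Finset.mem_filter] at hG ⊢
      have := mixed_le G
      exact ⟨Finset.mem_univ _, by omega⟩
    rw [Finset.card_eq_sum_card_fiberwise hm]
    refine Finset.sum_le_sum (fun P _ => Finset.card_le_card ?_)
    intro G hG
    rw [Finset.mem_filter] at hG ⊢
    exact ⟨Finset.mem_univ _, hG.2⟩
  have h2 : (univ.filter fun G : GaussWord N => 4 * (act G).card < N).card ≤
      (univ.filter fun P : Fin N → Bool × Bool => 4 * (mixed P).card < N).card *
        (N.factorial * N.factorial) := by
    refine h1.trans ?_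
    have h4 := Finset.sum_le_card_nsmul
      (univ.filter fun P : Fin N → Bool × Bool => 4 * (mixed P).card < N)
      (fun P => (univ.filter fun G : GaussWord N => pat G = P).card)
      (N.factorial * N.factorial) (fun P _ => card_pat P)
    exact h4
  have h3 : ((univ.filter fun G : GaussWord N => 4 * (act G).card < N).card : ℝ) ≤
      ((univ.filter fun P : Fin N → Bool × Bool => 4 * (mixed P).card < N).card : ℝ) *
        ((N.factorial : ℝ) * N.factorial) := by exact_mod_cast h2
  exact h3.trans (mul_le_mul_of_nonneg_right card_bad_pat (by positivity))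

theorem fact_bound (N : ℕ) (hN : 1 ≤ N) :
    4 ^ N * ((N.factorial : ℝ) * N.factorial) ≤ 2 * N * (2 * N).factorial := by
  have h1 := Nat.four_pow_le_two_mul_self_mul_centralBinom N hN
  have h2 : Nat.centralBinom N * (N.factorial * N.factorial) = (2 * N).factorial := by
    have := Nat.choose_mul_factorial_mul_factorial (show N ≤ 2 * N by omega)
    rw [show 2 * N - N = N by omega] at this
    rw [Nat.centralBinom, ← this, mul_assoc]
  have h3 : 4 ^ N * (N.factorial * N.factorial) ≤ 2 * N * (2 * N).factorial := by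
    calc 4 ^ N * (N.factorial * N.factorial)
        ≤ (2 * N * Nat.centralBinom N) * (N.factorial * N.factorial) :=
          Nat.mul_le_mul_right _ h1
      _ = 2 * N * (Nat.centralBinom N * (N.factorial * N.factorial)) := by ring
      _ = _ := by rw [h2]
  exact_mod_cast h3

end CNT

open CNT Finset in
theorem t_CNT : S_CNT := by
  have ht := tendsto_pow_const_mul_const_pow_of_lt_one 2 (r := (337 / 384 : ℝ)) (by norm_num)
    (by norm_num)
  obtain ⟨B, hB⟩ := ht.bddAbove_range
  refine ⟨2 * max B 1, by positivity, ?_⟩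
  intro N hN
  have h1 := card_bad (N := N)
  have h2 := fact_bound N hN
  have h3 : ((N : ℝ) ^ 2 * (337 / 384) ^ N) ≤ max B 1 :=
    (hB ⟨N, rfl⟩).trans (le_max_left _ _)
  have e1 : ((337 : ℝ) / 96) ^ N = (337 / 384) ^ N * 4 ^ N := by
    rw [← mul_pow]; norm_num
  calc _ ≤ ((337 / 96 : ℝ) ^ N * ((N.factorial : ℝ) * N.factorial)) * N :=
        mul_le_mul_of_nonneg_right h1 (by positivity)
    _ = ((337 / 384 : ℝ) ^ N * N) * (4 ^ N * ((N.factorial : ℝ) * N.factorial)) := by
        rw [e1]; ring
    _ ≤ ((337 / 384 : ℝ) ^ N * N) * (2 * N * (2 * N).factorial) :=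
        mul_le_mul_of_nonneg_left h2 (by positivity)
    _ = 2 * (2 * N).factorial * ((N : ℝ) ^ 2 * (337 / 384) ^ N) := by ring
    _ ≤ 2 * (2 * N).factorial * max B 1 := mul_le_mul_of_nonneg_left h3 (by positivity)
    _ = 2 * max B 1 * (2 * N).factorial := by ring

end Pool.Agent.J6H1.RG
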