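import Pool.Agent.J6H1.RG.Stm

/-! # Item COS -/

set_option autoImplicit false

namespace Pool.Agent.J6H1.RG

open Finset Function Pool.Agent.H832R2.JR

namespace COS

lemma ef_norm (x : ℝ) : ‖ef x‖ = 1 := by
  unfold ef
  rw [show (2 * Real.pi * x * Complex.I : ℂ) = ((2 * Real.pi * x : ℝ) : ℂ) * Complex.I by push_cast; ring,
    Complex.norm_exp_ofReal_mul_I]

lemma ef_re (x : ℝ) : (ef x).re = Real.cos (2 * Real.pi * x) := by
  unfold ef
  rw [show (2 * Real.pi * x * Complex.I : ℂ) = ((2 * Real.pi * x : ℝ) : ℂ) * Complex.I by push_cast; ring,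
    Complex.exp_ofReal_mul_I_re]

lemma ef_mul (x y : ℝ) : ef x * ef y = ef (x + y) := by
  unfold ef
  rw [← Complex.exp_add]
  congr 1
  push_cast
  ring

end COS

open COS

theorem t_COS : S_COS := by
  intro N f g x hx0 hx1 h
  have hcard : (Fintype.card (Fin N → Bool) : ℝ) = 2 ^ N := by simp
  have hg : ‖∑ z, ef (-g z)‖ ≤ 2 ^ N := by
    refine (norm_sum_le _ _).trans ?_
    simp only [ef_norm, Finset.sum_const, Finset.card_univ, nsmul_eq_mul, mul_one, hcard]
    exact le_rfl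
  have h1 : ∑ z, ∑ z', Real.cos (2 * Real.pi * (f z - g z')) ≤ 2 ^ N * (1 - x) * 2 ^ N := by
    have e1 : ∑ z, ∑ z', Real.cos (2 * Real.pi * (f z - g z')) =
        ((∑ z, ef (f z)) * ∑ z, ef (-g z)).re := by
      rw [Finset.sum_mul_sum, Complex.re_sum]
      refine Finset.sum_congr rfl fun z _ => ?_
      rw [Complex.re_sum]
      refine Finset.sum_congr rfl fun z' _ => ?_
      rw [ef_mul, ef_re, sub_eq_add_neg]
    rw [e1]
    refine (Complex.re_le_norm _).trans ?_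
    rw [norm_mul]
    have h2 : (0 : ℝ) ≤ 2 ^ N * (1 - x) := by
      have : 0 ≤ 1 - x := by linarith
      positivity
    exact mul_le_mul h hg (norm_nonneg _) h2
  have h4 : (4 : ℝ) ^ N = 2 ^ N * 2 ^ N := by rw [← mul_pow]; norm_num
  have h3 : ∑ z, ∑ z', |Real.cos (Real.pi * (f z - g z'))| ^ 2 ≤ 4 ^ N * (1 - x / 2) := by
    have e1 : ∀ z z', |Real.cos (Real.pi * (f z - g z'))| ^ 2 =
        1 / 2 + 1 / 2 * Real.cos (2 * Real.pi * (f z - g z')) := by
      intro z z'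
      rw [sq_abs, Real.cos_sq]
      ring_nf
    simp only [e1, Finset.sum_add_distrib, ← Finset.mul_sum, Finset.sum_const, Finset.card_univ,
      nsmul_eq_mul, hcard]
    rw [h4]
    nlinarith [h1]
  have h5 : (∑ z, ∑ z', |Real.cos (Real.pi * (f z - g z'))|) ^ 2 ≤
      4 ^ N * ∑ z, ∑ z', |Real.cos (Real.pi * (f z - g z'))| ^ 2 := by
    have e1 := sq_sum_le_card_mul_sum_sq (s := (Finset.univ : Finset ((Fin N → Bool) × (Fin N → Bool))))
      (f := fun p => |Real.cos (Real.pi * (f p.1 - g p.2))|)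
    rw [Fintype.sum_prod_type, Fintype.sum_prod_type, Finset.card_univ, Fintype.card_prod] at e1
    push_cast at e1
    rw [hcard, ← h4] at e1
    exact e1
  have h6 : (0 : ℝ) < 4 ^ N := by positivity
  have h7 : (∑ z, ∑ z', |Real.cos (Real.pi * (f z - g z'))|) ^ 2 ≤ (4 ^ N * (1 - x / 4)) ^ 2 := by
    refine h5.trans ((mul_le_mul_of_nonneg_left h3 h6.le).trans ?_)
    have e1 : (4 ^ N * (1 - x / 4)) ^ 2 - 4 ^ N * (4 ^ N * (1 - x / 2)) = (4 ^ N) ^ 2 * (x ^ 2 / 16) := by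
      ring
    have e2 : (0 : ℝ) ≤ (4 ^ N) ^ 2 * (x ^ 2 / 16) := by positivity
    linarith
  have h8 : (0 : ℝ) ≤ 4 ^ N * (1 - x / 4) := by
    have : 0 ≤ 1 - x / 4 := by linarith
    positivity
  exact le_of_sq_le_sq h7 h8

end Pool.Agent.J6H1.RG
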