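import Pool.Agent.J6H1.RG.Stm

/-!
# Project RG, item DATA: cells from an increasing enumeration
-/

set_option autoImplicit false

namespace Pool.Agent.J6H1.RG

open Finset Function Pool.Agent.H832R2.JR

namespace Dat

/-- the bound for the indices -/
theorem bound {m K n k a : ℕ} (h : 2 * m * K ≤ n) (hk : k < K) (ha : a < 2 * m) :
    2 * m * k + a < n := by
  have h1 : 2 * m * (k + 1) ≤ 2 * m * K := Nat.mul_le_mul_left _ hk
  rw [Nat.mul_add, Nat.mul_one] at h1
  omega

end Dat

theorem t_DATA : S_DATA := by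
  intro N m K X hX
  set e := X.orderEmbOfFin rfl with he
  have hb : ∀ (k : Fin K) (a : ℕ), a < 2 * m → 2 * m * (k : ℕ) + a < X.card := fun k a ha =>
    Dat.bound hX k.2 ha
  have hp : ∀ (k : Fin K) (a : Fin m), 2 * m * (k : ℕ) + (a : ℕ) < X.card := fun k a =>
    hb k a (by have := a.2; omega)
  have hq : ∀ (k : Fin K) (a : Fin m), 2 * m * (k : ℕ) + (m + (a : ℕ)) < X.card := fun k a =>
    hb k (m + a) (by have := a.2; omega)
  refine ⟨fun k a => e ⟨2 * m * (k : ℕ) + (a : ℕ), hp k a⟩,
    fun k a => e ⟨2 * m * (k : ℕ) + (m + (a : ℕ)), hq k a⟩, ?_, ?_, ?_, ?_, ?_, ?_⟩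
  · intro k a
    exact Finset.orderEmbOfFin_mem X rfl _
  · intro k a
    exact Finset.orderEmbOfFin_mem X rfl _
  · intro k a b hab
    apply e.strictMono
    rw [Fin.lt_def] at hab ⊢
    dsimp only
    omega
  · intro k a b hab
    apply e.strictMono
    rw [Fin.lt_def] at hab ⊢
    dsimp only
    omega
  · intro k a b
    apply e.strictMono
    rw [Fin.lt_def]
    dsimp only
    have := a.2
    omega
  · intro k l hkl a b
    apply e.strictMono
    rw [Fin.lt_def] at hkl ⊢
    dsimp only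
    have h1 : 2 * m * ((k : ℕ) + 1) ≤ 2 * m * (l : ℕ) := Nat.mul_le_mul_left _ hkl
    rw [Nat.mul_add, Nat.mul_one] at h1
    have := a.2
    omega

end Pool.Agent.J6H1.RG
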