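import Pool.Agent.J6H1.RG.LOW

/-! Project RG (helper1): assembly. -/

set_option autoImplicit false

namespace Pool.Agent.J6H1.RG

open Finset Function Pool.Agent.H832R2.JR LaurentPolynomial

namespace FIN

theorem continuous_ES {N : ℕ} (G : GaussWord N) : Continuous fun θ => ‖ES G θ‖ := by
  unfold ES ef
  fun_prop

theorem exp_le {x : ℝ} (hx : 0 ≤ x) : Real.exp (-x) ≤ 1 / (1 + (x / 2) ^ 2) := by
  rw [Real.exp_neg, one_div]
  apply inv_anti₀ (by positivity)
  have := Real.quadratic_le_exp_of_nonneg hx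
  nlinarith

theorem int_le {k : ℝ} (hk : 0 < k) :
    ∫ θ in (-(1 / 8 : ℝ))..(1 / 8), 1 / (1 + (k * θ) ^ 2) ≤ Real.pi / k := by
  rw [intervalIntegral.integral_comp_mul_left (fun x => 1 / (1 + x ^ 2)) hk.ne',
    integral_one_div_one_add_sq, smul_eq_mul, ← div_eq_inv_mul]
  gcongr
  have h1 := Real.arctan_lt_pi_div_two (k * (1 / 8))
  have h2 := Real.neg_pi_div_two_lt_arctan (k * -(1 / 8))
  linarith

/-- the toggle factor -/
theorem tog_num {N : ℕ} {θ : ℝ} (hN : 42 ≤ N) (h1 : 1 / 50 ≤ |θ|) (h2 : |θ| ≤ 1 / 8) :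
    ((1 + |Real.cos (4 * Real.pi * θ)|) / 2) ^ ((N - 2) / 20) ≤
      2 * Real.exp (-(0.003 * N * |θ|)) := by
  have hpi := Real.pi_pos
  have ha : 0 ≤ |θ| := abs_nonneg θ
  have e0 : Real.cos (4 * Real.pi * θ) = Real.cos (4 * Real.pi * |θ|) := by
    rcases abs_choice θ with h | h
    · rw [h]
    · rw [h, mul_neg, Real.cos_neg]
  have hc0 : 0 ≤ Real.cos (4 * Real.pi * |θ|) := by
    apply Real.cos_nonneg_of_neg_pi_div_two_le_of_le
    · have : 0 ≤ 4 * Real.pi * |θ| := by positivity
      linarith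
    · nlinarith
  have hsin : 4 * |θ| ≤ Real.sin (2 * Real.pi * |θ|) := by
    have := Real.mul_le_sin (x := 2 * Real.pi * |θ|) (by positivity) (by nlinarith)
    have e : 2 / Real.pi * (2 * Real.pi * |θ|) = 4 * |θ| := by
      field_simp
      ring
    rw [e] at this
    exact this
  have hcos : Real.cos (4 * Real.pi * |θ|) ≤ 1 - 32 * |θ| ^ 2 := by
    have e : 4 * Real.pi * |θ| = 2 * (2 * Real.pi * |θ|) := by ring
    rw [e, Real.cos_two_mul, Real.cos_sq']
    nlinarith
  rw [e0, abs_of_nonneg hc0]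
  have hq0 : 0 ≤ (1 + Real.cos (4 * Real.pi * |θ|)) / 2 := by positivity
  have hq1 : (1 + Real.cos (4 * Real.pi * |θ|)) / 2 ≤ Real.exp (-(16 * |θ| ^ 2)) := by
    have := Real.add_one_le_exp (-(16 * |θ| ^ 2))
    linarith
  calc ((1 + Real.cos (4 * Real.pi * |θ|)) / 2) ^ ((N - 2) / 20)
      ≤ Real.exp (-(16 * |θ| ^ 2)) ^ ((N - 2) / 20) := by gcongr
    _ = Real.exp (-(16 * |θ| ^ 2 * (((N - 2) / 20 : ℕ) : ℝ))) := by
        rw [← Real.exp_nat_mul]; congr 1; ring
    _ ≤ Real.exp (0.5 + -(0.003 * N * |θ|)) := by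
        apply Real.exp_le_exp.2
        have h3 : (N : ℝ) ≤ 20 * (((N - 2) / 20 : ℕ) : ℝ) + 22 := by
          have : N ≤ 20 * ((N - 2) / 20) + 22 := by omega
          exact_mod_cast this
        have h4 : |θ| ^ 2 ≤ 1 / 64 := by nlinarith
        have h5 : 1 / 50 * |θ| ≤ |θ| ^ 2 := by nlinarith
        have h6 : 16 * |θ| ^ 2 * (N : ℝ) ≤ 16 * |θ| ^ 2 * (20 * (((N - 2) / 20 : ℕ) : ℝ) + 22) := by
          gcongr
        have h7 : 1 / 50 * |θ| * (N : ℝ) ≤ |θ| ^ 2 * N := by gcongr
        have h8 : 0 ≤ |θ| * (N : ℝ) := by positivity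
        nlinarith
    _ = Real.exp 0.5 * Real.exp (-(0.003 * N * |θ|)) := Real.exp_add _ _
    _ ≤ 2 * Real.exp (-(0.003 * N * |θ|)) := by
        gcongr
        have h9 : Real.exp 0.5 ^ 2 ≤ 2 ^ 2 := by
          rw [← Real.exp_nat_mul]
          have e : ((2 : ℕ) : ℝ) * 0.5 = 1 := by norm_num
          rw [e]
          have := Real.exp_one_lt_d9
          linarith
        exact abs_le_of_sq_le_sq' h9 (by norm_num) |>.2

/-- the number of crossing choices with given bracket -/
theorem fiber {N : ℕ} (hN : 1 ≤ N) (G : GaussWord N) (F : ℤ[T;T⁻¹]) :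
    ∃ c : ℤ, Nat.card {w : Fin N → Bool // fPoly G w = F} ≤
      (univ.filter fun w => Q (adjm G) w = c).card := by
  classical
  obtain ⟨K, hK⟩ := second_moment G ⟨0, hN⟩
  by_cases hne : ∃ w₀ : Fin N → Bool, fPoly G w₀ = F
  · obtain ⟨w₀, hw₀⟩ := hne
    refine ⟨Q (adjm G) w₀, ?_⟩
    rw [Nat.card_eq_fintype_card, Fintype.card_subtype]
    refine Finset.card_le_card fun w hw => ?_
    rw [Finset.mem_filter] at hw ⊢
    refine ⟨hw.1, ?_⟩
    have e1 := hK w
    have e2 := hK w₀
    rw [hw.2] at e1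
    rw [hw₀] at e2
    linarith
  · refine ⟨0, ?_⟩
    have h4 : IsEmpty {w : Fin N → Bool // fPoly G w = F} := ⟨fun w => hne ⟨w.1, w.2⟩⟩
    rw [Nat.card_eq_zero.2 (Or.inl h4)]
    exact Nat.zero_le _

theorem card_pairs {N : ℕ} (F : GaussWord N → ℤ[T;T⁻¹]) :
    Nat.card {p : GaussWord N × (Fin N → Bool) // fPoly p.1 p.2 = F p.1} =
      ∑ G : GaussWord N, Nat.card {w : Fin N → Bool // fPoly G w = F G} := by
  classical
  rw [Nat.card_eq_fintype_card, Fintype.card_subtype]
  have e1 : ∀ G : GaussWord N, Nat.card {w : Fin N → Bool // fPoly G w = F G} =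
      ∑ w : Fin N → Bool, if fPoly G w = F G then 1 else 0 := by
    intro G
    rw [Nat.card_eq_fintype_card, Fintype.card_subtype, card_filter]
  rw [sum_congr rfl (fun G _ => e1 G), card_filter, Fintype.sum_prod_type]

end FIN

open FIN LOW

/-- **Random Gauss words.** -/
theorem main (hTRIG : S_TRIG) (hBIL : S_BIL) (hCOS : S_COS) (hIT : S_IT) (hCLS : S_CLS)
    (hCELL : S_CELL) (hDATA : S_DATA) (hCNT : S_CNT) (hFR : S_FR) (hSWP : S_SWP) (hTOG : S_TOG) :
    ∃ C : ℝ, ∀ N : ℕ, 1 ≤ N → ∀ F : GaussWord N → ℤ[T;T⁻¹],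
      (Nat.card {p : GaussWord N × (Fin N → Bool) // fPoly p.1 p.2 = F p.1} : ℝ) ≤
        C / N * ((2 * N).factorial * 2 ^ N) := by
  obtain ⟨C0, hC0, hcnt⟩ := hCNT
  refine ⟨C0 + 40000, fun N hN F => ?_⟩
  have hN0 : (0 : ℝ) < N := by exact_mod_cast hN
  obtain ⟨X, hX⟩ : ∃ X : ℝ, X = (2 * N).factorial * 2 ^ N := ⟨_, rfl⟩
  have hfac : (0 : ℝ) < (2 * N).factorial := by exact_mod_cast Nat.factorial_pos _
  have hX0 : 0 < X := by rw [hX]; positivity
  rw [← hX, card_pairs F]
  push_cast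
  -- the trivial bound for one word
  have htriv : ∀ G : GaussWord N, (Nat.card {w : Fin N → Bool // fPoly G w = F G} : ℝ) ≤ 2 ^ N := by
    intro G
    rw [← two_pow_fin N, ← Nat.card_eq_fintype_card]
    exact_mod_cast Nat.card_le_card_of_injective _ Subtype.val_injective
  by_cases h42 : 42 ≤ N
  · obtain ⟨Gd, hGd⟩ : ∃ Gd : Finset (GaussWord N), Gd = univ.filter
      (fun G : GaussWord N => N ≤ 4 * (act G).card) := ⟨_, rfl⟩
    obtain ⟨Bd, hBd⟩ : ∃ Bd : Finset (GaussWord N), Bd = univ.filter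
      (fun G : GaussWord N => 4 * (act G).card < N) := ⟨_, rfl⟩
    have hsplit : ∑ G : GaussWord N, (Nat.card {w : Fin N → Bool // fPoly G w = F G} : ℝ) =
        ∑ G ∈ Gd, (Nat.card {w : Fin N → Bool // fPoly G w = F G} : ℝ) +
        ∑ G ∈ Bd, (Nat.card {w : Fin N → Bool // fPoly G w = F G} : ℝ) := by
      rw [hGd, hBd, ← sum_filter_add_sum_filter_not univ (fun G : GaussWord N => N ≤ 4 * (act G).card)]
      simp only [not_le]
    have hbad : ∑ G ∈ Bd, (Nat.card {w : Fin N → Bool // fPoly G w = F G} : ℝ) ≤ C0 / N * X := by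
      calc ∑ G ∈ Bd, (Nat.card {w : Fin N → Bool // fPoly G w = F G} : ℝ)
          ≤ ∑ G ∈ Bd, (2 : ℝ) ^ N := sum_le_sum fun G _ => htriv G
        _ = Bd.card * 2 ^ N := by rw [sum_const, nsmul_eq_mul]
        _ ≤ (C0 * (2 * N).factorial / N) * 2 ^ N := by
            gcongr
            rw [le_div_iff₀ hN0, hBd]
            exact hcnt N hN
        _ = C0 / N * X := by rw [hX]; ring
    have hgood : ∑ G ∈ Gd, (Nat.card {w : Fin N → Bool // fPoly G w = F G} : ℝ) ≤ 40000 / N * X := by
      have hpt : ∀ θ : ℝ, |θ| ≤ 1 / 8 → ∑ G ∈ Gd, ‖ES G θ‖ ≤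
          4 * X * (1 / (1 + (0.0015 * N * θ) ^ 2)) := by
        intro θ hθ
        have h1 : ∑ G ∈ Gd, ‖ES G θ‖ ≤ 4 * X * Real.exp (-(0.003 * N * |θ|)) := by
          by_cases h50 : |θ| ≤ 1 / 50
          · have := t_LOW hTRIG hBIL hCOS hIT hCLS hCELL hDATA N θ hN h50
            rw [← hGd, ← hX] at this
            refine this.trans ?_
            gcongr
            linarith
          · push Not at h50
            have h2 := hTOG hSWP hCLS hIT N θ (by omega)
            rw [← hX] at h2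
            calc ∑ G ∈ Gd, ‖ES G θ‖ ≤ ∑ G : GaussWord N, ‖ES G θ‖ :=
                  sum_le_sum_of_subset_of_nonneg (subset_univ _) fun _ _ _ => norm_nonneg _
              _ ≤ 2 * X * ((1 + |Real.cos (4 * Real.pi * θ)|) / 2) ^ ((N - 2) / 20) := h2
              _ ≤ 2 * X * (2 * Real.exp (-(0.003 * N * |θ|))) := by
                  gcongr
                  exact tog_num h42 h50.le hθ
              _ = _ := by ring
        refine h1.trans ?_
        gcongr
        have h3 := exp_le (x := 0.003 * N * |θ|) (by positivity)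
        have e : (0.003 * N * |θ| / 2) ^ 2 = (0.0015 * N * θ) ^ 2 := by
          rw [div_pow, mul_pow, mul_pow _ θ, sq_abs]
          ring
        rw [e] at h3
        exact h3
      calc ∑ G ∈ Gd, (Nat.card {w : Fin N → Bool // fPoly G w = F G} : ℝ)
          ≤ ∑ G ∈ Gd, 4 * ∫ θ in (-(1 / 8 : ℝ))..(1 / 8), ‖ES G θ‖ := by
            refine sum_le_sum fun G _ => ?_
            obtain ⟨c, hc⟩ := fiber hN G (F G)
            exact le_trans (Nat.cast_le.2 hc) (hFR N G c)
        _ = 4 * ∫ θ in (-(1 / 8 : ℝ))..(1 / 8), ∑ G ∈ Gd, ‖ES G θ‖ := by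
            rw [← mul_sum, intervalIntegral.integral_finset_sum]
            intro G _
            exact (continuous_ES G).intervalIntegrable _ _
        _ ≤ 4 * ∫ θ in (-(1 / 8 : ℝ))..(1 / 8), 4 * X * (1 / (1 + (0.0015 * N * θ) ^ 2)) := by
            refine mul_le_mul_of_nonneg_left ?_ (by norm_num)
            refine intervalIntegral.integral_mono_on (by norm_num) ?_ ?_ ?_
            · exact (continuous_finset_sum _ fun G _ => continuous_ES G).intervalIntegrable _ _
            · refine Continuous.intervalIntegrable ?_ _ _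
              refine continuous_const.mul (Continuous.div continuous_const (by fun_prop) ?_)
              intro θ
              positivity
            · intro θ hθ
              exact hpt θ (abs_le.2 ⟨by linarith [hθ.1], hθ.2⟩)
        _ ≤ 4 * (4 * X * (Real.pi / (0.0015 * N))) := by
            rw [intervalIntegral.integral_const_mul]
            gcongr
            exact int_le (by positivity)
        _ ≤ 40000 / N * X := by
            have hpi := Real.pi_lt_d2
            have e : 4 * (4 * X * (Real.pi / (0.0015 * N))) = (16 * Real.pi / 0.0015) / N * X := by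
              field_simp
              ring
            rw [e]
            gcongr
            rw [div_le_iff₀ (by norm_num)]
            linarith
    rw [hsplit]
    calc _ ≤ 40000 / N * X + C0 / N * X := add_le_add hgood hbad
      _ = _ := by ring
  · push Not at h42
    have hN42 : (N : ℝ) ≤ 42 := by exact_mod_cast h42.le
    calc ∑ G : GaussWord N, (Nat.card {w : Fin N → Bool // fPoly G w = F G} : ℝ)
        ≤ ∑ G : GaussWord N, (2 : ℝ) ^ N := sum_le_sum fun G _ => htriv G
      _ = 1 * X := by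
          rw [sum_const, nsmul_eq_mul, card_univ, card_gw, hX, one_mul]
      _ ≤ (C0 + 40000) / N * X := by
          gcongr
          rw [le_div_iff₀ hN0]
          linarith

end Pool.Agent.J6H1.RG
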