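import Pool.Agent.J6H1.RG.Stm

/-!
# Item FR: Fourier inversion
-/

set_option autoImplicit false

namespace Pool.Agent.J6H1.RG

open Finset Function Pool.Agent.H832R2.JR

namespace FRi

theorem sum_even {N : ℕ} (C : Fin N → Fin N → ℤ) (hs : ∀ i j, C i j = C j i)
    (h0 : ∀ i, C i i = 0) : (2 : ℤ) ∣ ∑ i, ∑ j, C i j := by
  have h2 : ((∑ i, ∑ j, C i j : ℤ) : ZMod 2) = 0 := by
    push_cast
    rw [← Finset.sum_product']
    refine Finset.sum_involution (fun x _ => (x.2, x.1)) ?_ ?_ ?_ ?_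
    · rintro ⟨i, j⟩ _
      dsimp only
      rw [hs j i, ← two_mul]
      have : (2 : ZMod 2) = 0 := rfl
      rw [this, zero_mul]
    · rintro ⟨i, j⟩ _ hne heq
      apply hne
      dsimp only at heq ⊢
      have : j = i := congrArg Prod.fst heq
      subst this
      rw [h0]
      simp
    · rintro ⟨i, j⟩ _
      simp
    · rintro ⟨i, j⟩ _
      rfl
  rw [ZMod.intCast_zmod_eq_zero_iff_dvd] at h2
  exact_mod_cast h2

theorem sgn_cases (b : Bool) : sgn b = 1 ∨ sgn b = -1 := by
  unfold sgn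
  cases b <;> simp

theorem adjm_self {N : ℕ} (G : GaussWord N) (i : Fin N) : adjm G i i = 0 := by
  unfold adjm
  rw [if_neg (not_crosses_self G i)]

theorem Q_mod {N : ℕ} (G : GaussWord N) (w w' : Fin N → Bool) :
    (4 : ℤ) ∣ Q (adjm G) w - Q (adjm G) w' := by
  have key : ∀ i j, ∃ c : ℤ, sgn (w i) * sgn (w j) - sgn (w' i) * sgn (w' j) = 2 * c := by
    intro i j
    rcases sgn_cases (w i) with h1 | h1 <;> rcases sgn_cases (w j) with h2 | h2 <;>
      rcases sgn_cases (w' i) with h3 | h3 <;> rcases sgn_cases (w' j) with h4 | h4 <;>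
      rw [h1, h2, h3, h4]
    all_goals first
      | (refine ⟨0, ?_⟩; norm_num; done)
      | (refine ⟨1, ?_⟩; norm_num; done)
      | (refine ⟨-1, ?_⟩; norm_num; done)
  have hC : ∀ i j, adjm G i j * (sgn (w i) * sgn (w j)) - adjm G i j * (sgn (w' i) * sgn (w' j)) =
      2 * (adjm G i j * ((sgn (w i) * sgn (w j) - sgn (w' i) * sgn (w' j)) / 2)) := by
    intro i j
    obtain ⟨c, hc⟩ := key i j
    rw [hc, Int.mul_ediv_cancel_left c (by norm_num), ← mul_sub, hc]
    ring
  have e1 : Q (adjm G) w - Q (adjm G) w' = 2 * ∑ i, ∑ j,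
      adjm G i j * ((sgn (w i) * sgn (w j) - sgn (w' i) * sgn (w' j)) / 2) := by
    unfold Q
    rw [← Finset.sum_sub_distrib, Finset.mul_sum]
    refine Finset.sum_congr rfl fun i _ => ?_
    rw [← Finset.sum_sub_distrib, Finset.mul_sum]
    exact Finset.sum_congr rfl fun j _ => hC i j
  have h2 := sum_even (fun i j =>
      adjm G i j * ((sgn (w i) * sgn (w j) - sgn (w' i) * sgn (w' j)) / 2))
    (fun i j => by
      rw [adjm_symm G i j, mul_comm (sgn (w i)), mul_comm (sgn (w' i))])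
    (fun i => by rw [adjm_self, zero_mul])
  rw [e1]
  obtain ⟨k, hk⟩ := h2
  exact ⟨k, by rw [hk]; ring⟩

theorem ef_norm (x : ℝ) : ‖ef x‖ = 1 := by
  unfold ef
  have : (2 * Real.pi * x * Complex.I : ℂ) = ((2 * Real.pi * x : ℝ) : ℂ) * Complex.I := by
    push_cast; ring
  rw [this, Complex.norm_exp_ofReal_mul_I]

theorem ef_add (x y : ℝ) : ef (x + y) = ef x * ef y := by
  unfold ef
  rw [← Complex.exp_add]
  congr 1
  push_cast
  ring

theorem ef_cont (c : ℝ) : Continuous fun θ : ℝ => ef (θ * c) := by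
  unfold ef
  fun_prop

theorem ef_int (n : ℤ) : ∫ θ in (-(1 / 8 : ℝ))..(1 / 8), ef (θ * ((4 * n : ℤ) : ℝ)) =
    if n = 0 then 1 / 4 else 0 := by
  by_cases hn : n = 0
  · subst hn
    rw [if_pos rfl]
    have e1 : (fun θ : ℝ => ef (θ * ((4 * 0 : ℤ) : ℝ))) = fun _ => (1 : ℂ) := by
      funext θ
      unfold ef
      simp
    rw [e1, intervalIntegral.integral_const]
    norm_num
  · rw [if_neg hn]
    have hpi : (Real.pi : ℂ) ≠ 0 := by exact_mod_cast Real.pi_ne_zero
    have hn' : (n : ℂ) ≠ 0 := by exact_mod_cast hn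
    have hc : (8 * Real.pi * n * Complex.I : ℂ) ≠ 0 :=
      mul_ne_zero (mul_ne_zero (mul_ne_zero (by norm_num) hpi) hn') Complex.I_ne_zero
    have e1 : (fun θ : ℝ => ef (θ * ((4 * n : ℤ) : ℝ))) =
        fun θ : ℝ => Complex.exp ((8 * Real.pi * n * Complex.I : ℂ) * θ) := by
      funext θ
      unfold ef
      congr 1
      push_cast
      ring
    rw [e1, integral_exp_mul_complex hc]
    have e2 : (8 * Real.pi * n * Complex.I : ℂ) * ((1 / 8 : ℝ) : ℂ) =
        (8 * Real.pi * n * Complex.I : ℂ) * ((-(1 / 8) : ℝ) : ℂ) + n * (2 * Real.pi * Complex.I) := by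
      push_cast
      ring
    rw [e2, Complex.exp_add, Complex.exp_int_mul_two_pi_mul_I, mul_one, sub_self, zero_div]

end FRi

open FRi

theorem t_FR : S_FR := by
  intro N G c
  have hle : (-(1 / 8 : ℝ)) ≤ 1 / 8 := by norm_num
  by_cases hex : ∃ w0 : Fin N → Bool, Q (adjm G) w0 = c
  · obtain ⟨w0, hw0⟩ := hex
    have hn : ∀ w : Fin N → Bool, ∃ n : ℤ, Q (adjm G) w - c = 4 * n := by
      intro w
      rw [← hw0]
      exact Q_mod G w w0
    choose n hn using hn
    have e1 : ∀ θ : ℝ, ES G θ * ef (θ * (-c : ℝ)) =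
        ∑ w : Fin N → Bool, ef (θ * ((4 * n w : ℤ) : ℝ)) := by
      intro θ
      unfold ES
      rw [Finset.sum_mul]
      refine Finset.sum_congr rfl fun w _ => ?_
      rw [← ef_add, ← hn w]
      congr 1
      push_cast
      ring
    have e2 : ∫ θ in (-(1 / 8 : ℝ))..(1 / 8), ES G θ * ef (θ * (-c : ℝ)) =
        ((univ.filter fun w => Q (adjm G) w = c).card : ℂ) * (1 / 4) := by
      simp only [e1]
      rw [intervalIntegral.integral_finsetSum
        (fun w _ => (ef_cont _).intervalIntegrable _ _)]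
      simp only [ef_int]
      rw [Finset.card_filter]
      push_cast
      rw [Finset.sum_mul]
      refine Finset.sum_congr rfl fun w _ => ?_
      have hiff : n w = 0 ↔ Q (adjm G) w = c := by
        have := hn w
        omega
      by_cases h : n w = 0
      · rw [if_pos h, if_pos (hiff.1 h), one_mul]
      · rw [if_neg h, if_neg (fun h' => h (hiff.2 h')), zero_mul]
    have e3 : ‖∫ θ in (-(1 / 8 : ℝ))..(1 / 8), ES G θ * ef (θ * (-c : ℝ))‖ ≤
        ∫ θ in (-(1 / 8 : ℝ))..(1 / 8), ‖ES G θ‖ := by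
      refine (intervalIntegral.norm_integral_le_integral_norm hle).trans (le_of_eq ?_)
      refine intervalIntegral.integral_congr fun θ _ => ?_
      show ‖ES G θ * ef (θ * (-c : ℝ))‖ = ‖ES G θ‖
      rw [norm_mul, ef_norm, mul_one]
    rw [e2, norm_mul, Complex.norm_natCast] at e3
    have e4 : ‖(1 / 4 : ℂ)‖ = 1 / 4 := by norm_num
    rw [e4] at e3
    linarith
  · have h0 : (univ.filter fun w : Fin N → Bool => Q (adjm G) w = c).card = 0 := by
      rw [Finset.card_eq_zero, Finset.filter_eq_empty_iff]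
      intro w _ hw
      exact hex ⟨w, hw⟩
    rw [h0]
    have : 0 ≤ ∫ θ in (-(1 / 8 : ℝ))..(1 / 8), ‖ES G θ‖ :=
      intervalIntegral.integral_nonneg hle fun θ _ => norm_nonneg _
    push_cast
    linarith

end Pool.Agent.J6H1.RG
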