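import Pool.Agent.J6H1.RG.Stm

/-!
# Project RG, item IT: iterated replacement of coordinates
-/

set_option autoImplicit false

namespace Pool.Agent.J6H1.RG.IT

open Finset Function Pool.Agent.H832R2.JR

theorem mix_mix {N : ℕ} (E : Finset (Fin N)) (w z : Fin N → Bool) :
    mix E (mix E w z) (mix E z w) = w := by
  funext i
  unfold mix
  by_cases h : i ∈ E <;> simp [h]

/-- the involution of the pairs -/
def inv {N : ℕ} (E : Finset (Fin N)) : ((Fin N → Bool) × (Fin N → Bool)) ≃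
    ((Fin N → Bool) × (Fin N → Bool)) where
  toFun p := (mix E p.1 p.2, mix E p.2 p.1)
  invFun p := (mix E p.1 p.2, mix E p.2 p.1)
  left_inv p := by simp only [mix_mix]
  right_inv p := by simp only [mix_mix]

theorem sum1 {N : ℕ} (E : Finset (Fin N)) (h : (Fin N → Bool) → ℝ) :
    ∑ w, ∑ z, h (mix E w z) = 2 ^ N * ∑ w, h w := by
  have e1 : ∑ w, ∑ z, h (mix E w z) =
      ∑ p : (Fin N → Bool) × (Fin N → Bool), h (inv E p).1 :=
    (Fintype.sum_prod_type (fun p : (Fin N → Bool) × (Fin N → Bool) => h (inv E p).1)).symm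
  have e2 : ∑ p : (Fin N → Bool) × (Fin N → Bool), h (inv E p).1 =
      ∑ p : (Fin N → Bool) × (Fin N → Bool), h p.1 :=
    Equiv.sum_comp (inv E) (fun p => h p.1)
  rw [e1, e2, Fintype.sum_prod_type]
  simp only [sum_const, card_univ, Fintype.card_pi, Fintype.card_bool, prod_const,
    Fintype.card_fin, nsmul_eq_mul, Nat.cast_pow, Nat.cast_ofNat]
  rw [mul_sum]

theorem sum2 {N : ℕ} (E : Finset (Fin N)) (h : (Fin N → Bool) → (Fin N → Bool) → ℝ) :
    ∑ w, ∑ w', ∑ z, ∑ z', h (mix E w z) (mix E w' z') = 4 ^ N * ∑ w, ∑ w', h w w' := by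
  have e1 : ∀ w, ∑ w', ∑ z, ∑ z', h (mix E w z) (mix E w' z') =
      ∑ z, 2 ^ N * ∑ w', h (mix E w z) w' := by
    intro w
    rw [sum_comm]
    exact sum_congr rfl fun z _ => sum1 E (h (mix E w z))
  simp only [e1]
  rw [sum1 E (fun u => 2 ^ N * ∑ w', h u w'), ← mul_sum, ← mul_assoc, ← mul_pow]
  norm_num

theorem main {N : ℕ} {ι : Type} [DecidableEq ι] (E : ι → Finset (Fin N))
    (a : ι → (Fin N → Bool) → (Fin N → Bool) → ℝ) (ρ : ℝ) (hρ : 0 ≤ ρ)
    (h0 : ∀ k w w', 0 ≤ a k w w')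
    (h1 : ∀ k l, k ≠ l → ∀ w w' z z', a k (mix (E l) w z) (mix (E l) w' z') = a k w w')
    (h2 : ∀ k w w', ∑ z, ∑ z', a k (mix (E k) w z) (mix (E k) w' z') ≤ 4 ^ N * ρ)
    (S : Finset ι) : ∑ w, ∑ w', ∏ k ∈ S, a k w w' ≤ 4 ^ N * ρ ^ S.card := by
  induction S using Finset.induction_on with
  | empty =>
    simp only [prod_empty, sum_const, card_univ, Fintype.card_pi, Fintype.card_bool, prod_const,
      Fintype.card_fin, nsmul_eq_mul, Nat.cast_pow, Nat.cast_ofNat, card_empty, pow_zero, mul_one]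
    rw [← mul_pow]; norm_num
  | insert k S hk ih =>
    have e1 := sum2 (E k) (fun w w' => ∏ l ∈ insert k S, a l w w')
    have e2 : ∀ w w', ∑ z, ∑ z', ∏ l ∈ insert k S, a l (mix (E k) w z) (mix (E k) w' z') =
        (∏ l ∈ S, a l w w') * ∑ z, ∑ z', a k (mix (E k) w z) (mix (E k) w' z') := by
      intro w w'
      rw [mul_sum]
      refine sum_congr rfl fun z _ => ?_
      rw [mul_sum]
      refine sum_congr rfl fun z' _ => ?_
      rw [prod_insert hk, mul_comm]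
      congr 1
      exact prod_congr rfl fun l hl => h1 l k (fun h => hk (h ▸ hl)) w w' z z'
    simp only [e2] at e1
    have e3 : ∑ w, ∑ w', (∏ l ∈ S, a l w w') *
        ∑ z, ∑ z', a k (mix (E k) w z) (mix (E k) w' z') ≤
        ∑ w, ∑ w', (∏ l ∈ S, a l w w') * (4 ^ N * ρ) :=
      sum_le_sum fun w _ => sum_le_sum fun w' _ =>
        mul_le_mul_of_nonneg_left (h2 k w w') (prod_nonneg fun l _ => h0 l w w')
    have e4 : ∑ w, ∑ w', (∏ l ∈ S, a l w w') * (4 ^ N * ρ) =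
        (∑ w, ∑ w', ∏ l ∈ S, a l w w') * (4 ^ N * ρ) := by
      simp only [sum_mul]
    have h4 : (0 : ℝ) < 4 ^ N := by positivity
    have e5 : (∑ w, ∑ w', ∏ l ∈ S, a l w w') * (4 ^ N * ρ) ≤
        4 ^ N * ρ ^ S.card * (4 ^ N * ρ) :=
      mul_le_mul_of_nonneg_right ih (by positivity)
    have e6 : (4 : ℝ) ^ N * ∑ w, ∑ w', ∏ l ∈ insert k S, a l w w' ≤
        4 ^ N * (4 ^ N * ρ ^ (S.card + 1)) := by
      calc (4 : ℝ) ^ N * ∑ w, ∑ w', ∏ l ∈ insert k S, a l w w'
          ≤ 4 ^ N * ρ ^ S.card * (4 ^ N * ρ) := by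
            rw [← e1]
            exact (e3.trans_eq e4).trans e5
        _ = _ := by ring
    rw [card_insert_of_notMem hk]
    exact le_of_mul_le_mul_left e6 h4

end Pool.Agent.J6H1.RG.IT

namespace Pool.Agent.J6H1.RG

theorem t_IT : S_IT := by
  intro N K E a ρ hρ h0 h1 h2
  have h := IT.main E a ρ hρ h0 h1 h2 Finset.univ
  simpa only [Finset.card_univ, Fintype.card_fin] using h

end Pool.Agent.J6H1.RG
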