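import Pool.Agent.J6H1.RG.Stm

/-! Project RG (helper1), item LOW: low frequencies. -/

set_option autoImplicit false

namespace Pool.Agent.J6H1.RG

open Finset Function Pool.Agent.H832R2.JR

namespace LOW

theorem norm_ef (x : ℝ) : ‖ef x‖ = 1 := by
  unfold ef
  have : (2 * Real.pi * x * Complex.I : ℂ) = ((2 * Real.pi * x : ℝ) : ℂ) * Complex.I := by
    push_cast; ring
  rw [this]
  exact Complex.norm_exp_ofReal_mul_I _

theorem norm_ES_le {N : ℕ} (G : GaussWord N) (θ : ℝ) : ‖ES G θ‖ ≤ 2 ^ N := by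
  unfold ES
  refine (norm_sum_le _ _).trans (le_of_eq ?_)
  simp only [norm_ef, sum_const, card_univ, nsmul_eq_mul, mul_one]
  exact two_pow_fin N

theorem card_gw (N : ℕ) : Fintype.card (GaussWord N) = (2 * N).factorial := by
  unfold GaussWord
  rw [Fintype.card_equiv (Fintype.equivFinOfCardEq (by
    rw [Fintype.card_prod, Fintype.card_fin, Fintype.card_bool, mul_comm]))]
  rw [Fintype.card_prod, Fintype.card_fin, Fintype.card_bool, mul_comm]

theorem Q_sub {N : ℕ} (A B : Fin N → Fin N → ℤ) (w : Fin N → Bool) :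
    Q A w - Q B w = Q (fun i j => A i j - B i j) w := by
  unfold Q
  rw [← sum_sub_distrib]
  refine sum_congr rfl fun i _ => ?_
  rw [← sum_sub_distrib]
  exact sum_congr rfl fun j _ => by ring

theorem Q_mix {N : ℕ} (D : Fin N → Fin N → ℤ) (E : Finset (Fin N)) (h1 : ∀ i ∈ E, ∀ j, D i j = 0)
    (h2 : ∀ i, ∀ j ∈ E, D i j = 0) (w z : Fin N → Bool) : Q D (mix E w z) = Q D w := by
  unfold Q
  refine sum_congr rfl fun i _ => sum_congr rfl fun j _ => ?_
  by_cases hi : i ∈ E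
  · rw [h1 i hi j, zero_mul, zero_mul]
  · by_cases hj : j ∈ E
    · rw [h2 i j hj, zero_mul, zero_mul]
    · unfold mix
      rw [if_neg hi, if_neg hj]

theorem ch_inj {N : ℕ} {G : GaussWord N} {x y : Fin (2 * N)} (hx : x ∈ act G) (hy : y ∈ act G)
    (h : ch G x = ch G y) : x = y := by
  unfold act at hx hy
  rw [mem_filter] at hx hy
  unfold ch at h
  by_contra hne
  have h3 : (G.symm x).2 ≠ (G.symm y).2 := by
    intro h2
    exact hne (G.symm.injective (Prod.ext h h2))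
  have h4 : (!(G.symm x).2) = (G.symm y).2 := by
    cases h5 : (G.symm x).2 <;> cases h6 : (G.symm y).2 <;> simp_all
  have h5 : G ((G.symm x).1, !(G.symm x).2) = y := by
    rw [h4, h]
    exact G.apply_symm_apply y
  have h6 := hx.2.2
  rw [h5] at h6
  exact absurd hy.2.1 (not_lt.2 h6)

/-- the class bound -/
theorem cls (hTRIG : S_TRIG) (hBIL : S_BIL) (hCOS : S_COS) (hIT : S_IT) (hCLS : S_CLS)
    (hCELL : S_CELL) (hDATA : S_DATA) (N m K : ℕ) (θ : ℝ) (X : Finset (Fin (2 * N)))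
    (hm : 1 ≤ m) (hK : 2 * m * K ≤ X.card) (hθ : (8 * Real.pi * θ * m) ^ 2 ≤ 1 / 3) :
    ∑ G ∈ univ.filter (fun G : GaussWord N => act G = X), ‖ES G θ‖ ^ 2 ≤
      (univ.filter (fun G : GaussWord N => act G = X)).card *
        (4 ^ N * (1 - (8 * Real.pi * θ * m) ^ 2 / 64) ^ K) := by
  obtain ⟨p, q, hpq⟩ := hDATA N m K X hK
  obtain ⟨τ, hτ, hG⟩ := hCELL N m K X p q hpq
  obtain ⟨x, hx⟩ : ∃ x : ℝ, x = (8 * Real.pi * θ * m) ^ 2 := ⟨_, rfl⟩
  rw [← hx] at hθ ⊢
  have hx0 : 0 ≤ x := by rw [hx]; positivity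
  refine hCLS N K _ (fun k G => G.trans (τ k)) θ _ ?_ ?_ ?_ ?_
  · intro k G hGm
    rw [mem_filter] at hGm ⊢
    exact ⟨mem_univ _, (hG G hGm.2 k).1⟩
  · intro k G _
    ext y
    simp only [Equiv.trans_apply, hτ]
  · intro k l hkl G hGm w
    rw [mem_filter] at hGm
    have h := (hG G hGm.2 k).2.2.2.2.2 l (Ne.symm hkl)
    rw [Q_sub, Q_sub]
    congr 1
    funext i j
    exact h i j
  · intro G hGm
    rw [mem_filter] at hGm
    have hGX := hGm.2
    have hact : ∀ k a, p k a ∈ act G ∧ q k a ∈ act G := fun k a => by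
      rw [hGX]; exact ⟨hpq.hp k a, hpq.hq k a⟩
    obtain ⟨u, hu⟩ : ∃ u : Fin K → Fin m → Fin N, u = fun k a => ch G (p k a) := ⟨_, rfl⟩
    obtain ⟨v, hv⟩ : ∃ v : Fin K → Fin m → Fin N, v = fun k a => ch G (q k a) := ⟨_, rfl⟩
    have hu' : ∀ k a, u k a = ch G (p k a) := fun k a => by rw [hu]
    have hv' : ∀ k a, v k a = ch G (q k a) := fun k a => by rw [hv]
    obtain ⟨D, hD⟩ : ∃ D : Fin K → Fin N → Fin N → ℤ,
      D = fun k i j => adjm (G.trans (τ k)) i j - adjm G i j := ⟨_, rfl⟩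
    have hQ : ∀ k w, Q (adjm (G.trans (τ k))) w - Q (adjm G) w = Q (D k) w := by
      intro k w
      rw [Q_sub, hD]
    have hsymm : ∀ k i j, D k i j = D k j i := by
      intro k i j
      rw [hD]
      simp only
      rw [adjm_symm (G.trans (τ k)) i j, adjm_symm G i j]
    have hoff : ∀ k l, k ≠ l → ∀ i ∈ univ.image (u l) ∪ univ.image (v l), ∀ j, D k i j = 0 := by
      intro k l hkl i hi j
      have h := (hG G hGX k).2.2.2.2.1 l (Ne.symm hkl)
      rw [mem_union, mem_image, mem_image] at hi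
      rw [hD]
      simp only
      rcases hi with ⟨a, -, rfl⟩ | ⟨a, -, rfl⟩
      · rw [hu', (h a j).1, sub_self]
      · rw [hv', (h a j).2, sub_self]
    have hstep := hIT N K (fun k => univ.image (u k) ∪ univ.image (v k))
      (fun k w w' => |Real.cos (Real.pi * (θ * ((Q (D k) w : ℤ) : ℝ) - θ * ((Q (D k) w' : ℤ) : ℝ)))|)
      (1 - x / 64) (by linarith) (fun k w w' => abs_nonneg _) ?_ ?_
    · refine le_trans (le_of_eq ?_) hstep
      refine sum_congr rfl fun w _ => sum_congr rfl fun w' _ => prod_congr rfl fun k _ => ?_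
      rw [hQ, hQ]
    · intro k l hkl w w' z z'
      rw [Q_mix (D k) _ (hoff k l hkl) (fun i j hj => by rw [hsymm]; exact hoff k l hkl j hj i),
        Q_mix (D k) _ (hoff k l hkl) (fun i j hj => by rw [hsymm]; exact hoff k l hkl j hj i)]
    · intro k w w'
      have h := hG G hGX k
      have hui : Injective (u k) := by
        intro a b hab
        rw [hu', hu'] at hab
        exact (hpq.mp k).injective (ch_inj (hact k a).1 (hact k b).1 hab)
      have hvi : Injective (v k) := by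
        intro a b hab
        rw [hv', hv'] at hab
        exact (hpq.mq k).injective (ch_inj (hact k a).2 (hact k b).2 hab)
      have huv : ∀ a b, u k a ≠ v k b := by
        intro a b hab
        rw [hu', hv'] at hab
        exact (hpq.pq k a b).ne (ch_inj (hact k a).1 (hact k b).2 hab)
      have hb := hBIL hTRIG N m (D k) (u k) (v k) θ hm (hsymm k) hui hvi huv
        (fun a b => by rw [hD, hu', hv']; exact h.2.1 a b)
        (fun a b => by rw [hD, hu', hu']; simp only; rw [h.2.2.1 a b, sub_self])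
        (fun a b => by rw [hD, hv', hv']; simp only; rw [h.2.2.2.1 a b, sub_self])
        (by rw [← hx]; exact hθ) w
      rw [← hx] at hb
      have hc := hCOS N (fun z => θ * ((Q (D k) (mix (univ.image (u k) ∪ univ.image (v k)) w z) : ℤ) : ℝ))
        (fun z => θ * ((Q (D k) (mix (univ.image (u k) ∪ univ.image (v k)) w' z) : ℤ) : ℝ))
        (x / 16) (by positivity) (by linarith) hb
      refine hc.trans (le_of_eq ?_)
      ring

theorem num1 {N m : ℕ} {a : ℝ} (ha : 0 < a) (ha1 : a ≤ 1 / 50) (hm : m = ⌊1 / (50 * a)⌋₊) :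
    1 ≤ m ∧ (8 * Real.pi * a * m) ^ 2 ≤ 1 / 3 ∧
      (1 - (8 * Real.pi * a * m) ^ 2 / 64) ^ (N / (8 * m)) ≤ 4 * Real.exp (-(0.006 * N * a)) := by
  have h1 : 1 ≤ 1 / (50 * a) := by
    rw [le_div_iff₀ (by positivity)]
    linarith
  have hm1 : 1 ≤ m := by
    rw [hm]
    exact Nat.le_floor (by simpa using h1)
  have hmle : (m : ℝ) ≤ 1 / (50 * a) := by rw [hm]; exact Nat.floor_le (by positivity)
  have hmlt : 1 / (50 * a) < (m : ℝ) + 1 := by rw [hm]; exact Nat.lt_floor_add_one _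
  have hm1' : (1 : ℝ) ≤ m := by exact_mod_cast hm1
  have hup : a * m ≤ 1 / 50 := by
    rw [le_div_iff₀ (by positivity)] at hmle
    linarith
  have hlo : 1 / 100 ≤ a * m := by
    rw [div_lt_iff₀ (by positivity)] at hmlt
    nlinarith
  have hpi := Real.pi_pos
  have hpi2 : Real.pi < 3.15 := Real.pi_lt_d2
  have hpi3 : 3.14 < Real.pi := Real.pi_gt_d2
  have hsq : (8 * Real.pi * a * m) ^ 2 = 64 * (Real.pi ^ 2 * (a * m) ^ 2) := by ring
  have hb1 : Real.pi ^ 2 * (a * m) ^ 2 ≤ 0.004 := by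
    have h2 : Real.pi ^ 2 ≤ 3.15 ^ 2 := by gcongr
    have h3 : (a * m) ^ 2 ≤ (1 / 50) ^ 2 := by gcongr
    calc Real.pi ^ 2 * (a * m) ^ 2 ≤ 3.15 ^ 2 * (1 / 50) ^ 2 := by gcongr
      _ ≤ 0.004 := by norm_num
  refine ⟨hm1, ?_, ?_⟩
  · rw [hsq]
    linarith
  · rw [hsq]
    obtain ⟨y, hy⟩ : ∃ y : ℝ, y = Real.pi ^ 2 * (a * m) ^ 2 := ⟨_, rfl⟩
    rw [← hy] at hb1 ⊢
    have e1 : 1 - 64 * y / 64 ≤ Real.exp (-y) := by
      have := Real.add_one_le_exp (-y)
      linarith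
    have e0 : 0 ≤ 1 - 64 * y / 64 := by linarith
    have e2 : (1 - 64 * y / 64) ^ (N / (8 * m)) ≤ Real.exp (-(((N / (8 * m) : ℕ) : ℝ) * y)) := by
      calc (1 - 64 * y / 64) ^ (N / (8 * m)) ≤ Real.exp (-y) ^ (N / (8 * m)) := by gcongr
        _ = Real.exp (-(((N / (8 * m) : ℕ) : ℝ) * y)) := by
            rw [← Real.exp_nat_mul]; congr 1; ring
    refine e2.trans ?_
    have e3 : (N : ℝ) < 8 * m * ((N / (8 * m) : ℕ) : ℝ) + 8 * m := by
      have h8 : 0 < 8 * m := by omega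
      have := Nat.lt_div_mul_add (a := N) h8
      have h2 : ((N : ℕ) : ℝ) < ((N / (8 * m) * (8 * m) + 8 * m : ℕ) : ℝ) := Nat.cast_lt.2 this
      push_cast at h2
      linarith
    obtain ⟨k, hk⟩ : ∃ k : ℝ, k = ((N / (8 * m) : ℕ) : ℝ) := ⟨_, rfl⟩
    rw [← hk] at e3 ⊢
    have e4 : 0.006 * N * a ≤ k * y + 0.004 := by
      have hy0 : 0 ≤ y := by rw [hy]; positivity
      -- N a m ≤ 8 m (k + 1) (a m)
      have h5 : Real.pi ^ 2 ≥ 9.8 := by nlinarith
      have h6 : y = Real.pi ^ 2 * a * (a * m) * m := by rw [hy]; ring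
      have h7 : (N : ℝ) * y ≤ 8 * m * (k + 1) * y := by
        refine mul_le_mul_of_nonneg_right ?_ hy0
        linarith
      have h8 : 9.8 * a * (1 / 100) * m ≤ y := by
        rw [h6]
        gcongr
      have h9 : (N : ℝ) * (9.8 * a * (1 / 100) * m) ≤ N * y :=
        mul_le_mul_of_nonneg_left h8 (Nat.cast_nonneg N)
      have h10 : m * (N * (9.8 * a * (1 / 100))) ≤ m * (8 * (k + 1) * y) := by linarith
      have h11 := le_of_mul_le_mul_left h10 (by linarith)
      have h12 : 0 ≤ (N : ℝ) * a := by positivity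
      nlinarith
    calc Real.exp (-(k * y)) ≤ Real.exp (0.004 + -(0.006 * N * a)) := by
          apply Real.exp_le_exp.2
          linarith
      _ = Real.exp 0.004 * Real.exp (-(0.006 * N * a)) := Real.exp_add _ _
      _ ≤ 4 * Real.exp (-(0.006 * N * a)) := by
          gcongr
          have h13 : Real.exp 0.004 ≤ Real.exp 1 := Real.exp_le_exp.2 (by norm_num)
          have := Real.exp_one_lt_d9
          linarith

end LOW

open LOW

theorem t_LOW : S_LOW := by
  intro hTRIG hBIL hCOS hIT hCLS hCELL hDATA N θ hN hθ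
  have hfac : (0 : ℝ) < (2 * N).factorial := by exact_mod_cast Nat.factorial_pos _
  obtain ⟨Gd, hGd⟩ : ∃ Gd : Finset (GaussWord N), Gd = univ.filter
    (fun G : GaussWord N => N ≤ 4 * (act G).card) := ⟨_, rfl⟩
  rw [← hGd]
  have hcard : (Gd.card : ℝ) ≤ (2 * N).factorial := by
    rw [← card_gw N]
    exact_mod_cast card_le_univ Gd
  rcases eq_or_ne θ 0 with rfl | hne
  · rw [abs_zero, mul_zero, neg_zero, Real.exp_zero, mul_one]
    calc ∑ G ∈ Gd, ‖ES G 0‖ ≤ ∑ G ∈ Gd, (2 : ℝ) ^ N := sum_le_sum fun G _ => norm_ES_le G 0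
      _ = Gd.card * 2 ^ N := by rw [sum_const, nsmul_eq_mul]
      _ ≤ (2 * N).factorial * 2 ^ N := by gcongr
      _ ≤ _ := by
          have : 0 < ((2 * N).factorial : ℝ) * 2 ^ N := by positivity
          linarith
  · have ha : 0 < |θ| := abs_pos.2 hne
    obtain ⟨m, hm⟩ : ∃ m : ℕ, m = ⌊1 / (50 * |θ|)⌋₊ := ⟨_, rfl⟩
    obtain ⟨hm1, hl, hnum⟩ := num1 (N := N) ha hθ hm
    have hsq : (8 * Real.pi * |θ| * m) ^ 2 = (8 * Real.pi * θ * m) ^ 2 := by
      rw [mul_pow, mul_pow _ |θ|, sq_abs, ← mul_pow, ← mul_pow]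
    rw [hsq] at hl hnum
    obtain ⟨ρ, hρ⟩ : ∃ ρ : ℝ, ρ = 1 - (8 * Real.pi * θ * m) ^ 2 / 64 := ⟨_, rfl⟩
    have hρ0 : 0 ≤ ρ := by rw [hρ]; linarith
    rw [← hρ] at hnum
    have hsum : ∑ G ∈ Gd, ‖ES G θ‖ ^ 2 ≤ Gd.card * (4 ^ N * ρ ^ (N / (8 * m))) := by
      have e1 : ∑ G ∈ Gd, ‖ES G θ‖ ^ 2 = ∑ X ∈ Gd.image act, ∑ G ∈ Gd.filter (fun G => act G = X),
          ‖ES G θ‖ ^ 2 := (sum_fiberwise_of_maps_to (fun G hG => mem_image_of_mem _ hG) _).symm
      have e2 : (Gd.card : ℝ) = ∑ X ∈ Gd.image act, ((Gd.filter (fun G => act G = X)).card : ℝ) := by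
        rw [card_eq_sum_card_image act Gd]
        push_cast
        rfl
      rw [e1, e2, sum_mul]
      refine sum_le_sum fun X hX => ?_
      rw [mem_image] at hX
      obtain ⟨G0, hG0, rfl⟩ := hX
      rw [hGd, mem_filter] at hG0
      have e3 : Gd.filter (fun G => act G = act G0) = univ.filter (fun G => act G = act G0) := by
        ext G
        rw [mem_filter, mem_filter, hGd, mem_filter]
        constructor
        · rintro ⟨-, h⟩
          exact ⟨mem_univ _, h⟩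
        · rintro ⟨-, h⟩
          exact ⟨⟨mem_univ _, by rw [h]; exact hG0.2⟩, h⟩
      rw [e3, hρ]
      refine cls hTRIG hBIL hCOS hIT hCLS hCELL hDATA N m _ θ _ hm1 ?_ hl
      have h8 : N / (8 * m) * (8 * m) ≤ N := Nat.div_mul_le_self _ _
      have h9 := hG0.2
      have h10 : 4 * (2 * m * (N / (8 * m))) = N / (8 * m) * (8 * m) := by ring
      omega
    have hcs : (∑ G ∈ Gd, ‖ES G θ‖) ^ 2 ≤ Gd.card * ∑ G ∈ Gd, ‖ES G θ‖ ^ 2 :=
      sq_sum_le_card_mul_sum_sq
    have hfin : (∑ G ∈ Gd, ‖ES G θ‖) ^ 2 ≤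
        (2 * ((2 * N).factorial * 2 ^ N) * Real.exp (-(0.003 * N * |θ|))) ^ 2 := by
      have e5 : Real.exp (-(0.003 * N * |θ|)) ^ 2 = Real.exp (-(0.006 * N * |θ|)) := by
        rw [← Real.exp_nat_mul]
        congr 1
        push_cast
        ring
      have e6 : ((2 : ℝ) ^ N) ^ 2 = 4 ^ N := by rw [← pow_mul, mul_comm N 2, pow_mul]; norm_num
      calc (∑ G ∈ Gd, ‖ES G θ‖) ^ 2 ≤ Gd.card * (Gd.card * (4 ^ N * ρ ^ (N / (8 * m)))) :=
            hcs.trans (by gcongr)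
        _ ≤ (2 * N).factorial * ((2 * N).factorial * (4 ^ N * (4 * Real.exp (-(0.006 * N * |θ|))))) := by
            gcongr
        _ = _ := by
            rw [mul_pow, mul_pow, mul_pow, e5, e6]
            ring
    exact abs_le_of_sq_le_sq' hfin (by positivity) |>.2

end Pool.Agent.J6H1.RG
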