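import Pool.Agent.J6H1.RG.Stm

/-! # RG-SWP: exchanging the letters at two adjacent places (helper84) -/

set_option autoImplicit false

namespace Pool.Agent.J6H1.RG

open Finset Function Pool.Agent.H832R2.JR

namespace SW

/-- exchange of `x` and `x + 1` -/
def s (x p : ℕ) : ℕ := if p = x then x + 1 else if p = x + 1 then x else p

/-- crossing of the pairs `{a, a'}`, `{b, b'}` -/
def Cr (a a' b b' : ℕ) : Prop := ¬ (H832R2.JR.Btw a a' b ↔ H832R2.JR.Btw a a' b')

lemma core_in (x a a' b b' : ℕ) (h1 : a ≠ a') (h2 : a ≠ b) (h3 : a ≠ b') (h4 : a' ≠ b)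
    (h5 : a' ≠ b') (h6 : b ≠ b')
    (hc : ((a = x ∨ a' = x) ∧ (b = x + 1 ∨ b' = x + 1)) ∨
      ((a = x + 1 ∨ a' = x + 1) ∧ (b = x ∨ b' = x))) :
    Cr (s x a) (s x a') (s x b) (s x b') ↔ ¬ Cr a a' b b' := by
  unfold Cr H832R2.JR.Btw s
  rcases hc with ⟨ha | ha, hb | hb⟩ | ⟨ha | ha, hb | hb⟩ <;> split_ifs <;> omega

lemma core_out (x a a' b b' : ℕ) (h1 : a ≠ a') (h2 : a ≠ b) (h3 : a ≠ b') (h4 : a' ≠ b)
    (h5 : a' ≠ b') (h6 : b ≠ b')
    (hc : ¬ (((a = x ∨ a' = x) ∧ (b = x + 1 ∨ b' = x + 1)) ∨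
      ((a = x + 1 ∨ a' = x + 1) ∧ (b = x ∨ b' = x)))) :
    Cr (s x a) (s x a') (s x b) (s x b') ↔ Cr a a' b b' := by
  unfold Cr H832R2.JR.Btw s
  split_ifs <;> omega

lemma cr_self (a a' : ℕ) : ¬ Cr a a' a a' := by
  unfold Cr H832R2.JR.Btw
  omega

end SW

open SW

theorem t_SWP : S_SWP := by
  intro N G x y hxy hne i j
  have hG' : ∀ r, ((G.trans (Equiv.swap x y)) r : ℕ) = s x (G r) := by
    intro r
    unfold s
    rw [Equiv.trans_apply]
    by_cases h1 : G r = x
    · rw [h1, Equiv.swap_apply_left, if_pos rfl, hxy]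
    · by_cases h2 : G r = y
      · rw [h2, Equiv.swap_apply_right, if_neg (by omega), if_pos hxy]
      · rw [Equiv.swap_apply_of_ne_of_ne h1 h2, if_neg (fun h => h1 (Fin.ext h)),
          if_neg (fun h => h2 (Fin.ext (h.trans hxy.symm)))]
  have hch : ∀ (z : Fin (2 * N)) (k : Fin N), k = ch G z ↔
      ((G (k, false) : ℕ) = z ∨ (G (k, true) : ℕ) = z) := by
    intro z k
    unfold ch
    constructor
    · rintro rfl
      rcases hb : (G.symm z).2 with _ | _
      · left
        have : ((G.symm z).1, false) = G.symm z := by rw [← hb]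
        rw [this, Equiv.apply_symm_apply]
      · right
        have : ((G.symm z).1, true) = G.symm z := by rw [← hb]
        rw [this, Equiv.apply_symm_apply]
    · rintro (h | h)
      · have : G (k, false) = z := Fin.ext h
        rw [← this, Equiv.symm_apply_apply]
      · have : G (k, true) = z := Fin.ext h
        rw [← this, Equiv.symm_apply_apply]
  have hcr : ∀ (H : GaussWord N) (i j : Fin N), Crosses H i j ↔
      Cr (H (i, false)) (H (i, true)) (H (j, false)) (H (j, true)) := fun H i j => Iff.rfl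
  have hinj : ∀ r r' : Fin N × Bool, r ≠ r' → (G r : ℕ) ≠ G r' := by
    intro r r' h h'
    exact h (G.injective (Fin.ext h'))
  by_cases hij : i = j
  · subst hij
    have hn : ¬ ((i = ch G x ∧ i = ch G y) ∨ (i = ch G y ∧ i = ch G x)) := by
      rintro (⟨h1, h2⟩ | ⟨h1, h2⟩)
      · exact hne (h1.symm.trans h2)
      · exact hne (h2.symm.trans h1)
    rw [if_neg hn]
    unfold adjm
    rw [if_neg (fun h => cr_self _ _ ((hcr _ _ _).1 h)),
      if_neg (fun h => cr_self _ _ ((hcr _ _ _).1 h))]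
  · have d1 := hinj (i, false) (i, true) (by simp)
    have d2 := hinj (i, false) (j, false) (by simp [hij])
    have d3 := hinj (i, false) (j, true) (by simp)
    have d4 := hinj (i, true) (j, false) (by simp)
    have d5 := hinj (i, true) (j, true) (by simp [hij])
    have d6 := hinj (j, false) (j, true) (by simp)
    by_cases hc : (i = ch G x ∧ j = ch G y) ∨ (i = ch G y ∧ j = ch G x)
    · rw [if_pos hc]
      rw [hch, hch, hch, hch, hxy] at hc
      have key := core_in x _ _ _ _ d1 d2 d3 d4 d5 d6 hc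
      unfold adjm
      rw [hcr, hcr, hG', hG', hG', hG']
      by_cases h : Cr (G (i, false)) (G (i, true)) (G (j, false)) (G (j, true))
      · rw [if_neg (fun h' => (key.1 h') h), if_pos h]
        norm_num
      · rw [if_pos (key.2 h), if_neg h]
        norm_num
    · rw [if_neg hc]
      rw [hch, hch, hch, hch, hxy] at hc
      have key := core_out x _ _ _ _ d1 d2 d3 d4 d5 d6 hc
      unfold adjm
      rw [hcr, hcr, hG', hG', hG', hG']
      by_cases h : Cr (G (i, false)) (G (i, true)) (G (j, false)) (G (j, true))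
      · rw [if_pos (key.2 h), if_pos h]
      · rw [if_neg (fun h' => h (key.1 h')), if_neg h]

end Pool.Agent.J6H1.RG
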