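import Pool.Agent.H832R2.JR.Moment
import Pool.Agent.H832R2.JR.Matching

/-!
# Project RG (helper1), HARD problem MP_7bc610_gt: random Gauss words

**Goal.** A uniformly random Gauss diagram with `N` chords and random signs (that is: a uniformly
random virtual knot diagram with `N` crossings) has a given Jones polynomial `F` (for instance
`F = 1`) with probability at most `C / N`:
`∃ C, ∀ N ≥ 1, ∀ F, #{(G, w) : fPoly G w = F} ≤ C / N * (2 N)! * 2 ^ N`.

**Proof.** By `second_moment` (already proved) `fPoly G w = F` implies `Q (adjm G) w = c` with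
`c = c(G, F)`, `adjm G` the 0/1 adjacency matrix of the graph of crossing chords.
Put `ES G θ = ∑_w e(θ Q (adjm G) w)`; all values of `Q (adjm G)` are congruent mod 4, so
`#{w | Q (adjm G) w = c} ≤ 4 ∫_{-1/8}^{1/8} |ES G θ| dθ` (item FR).  The sum over `G` of `|ES G θ|` is
bounded by Cauchy-Schwarz and a randomisation of `G`:
* (item TOG, all `θ`) exchanging the letters at two adjacent places `x, x + 1` toggles exactly one
  entry of `adjm G` (item SWP); `N/10` independent toggles give the factor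
  `((1 + |cos 4πθ|)/2)^(N/20)`.
* (item LOW, `|θ| ≤ 1/50`) at the scale `m ~ 1/(50 |θ|)` we take cells of `2 m` active places and
  exchange the first `m` with the last `m` of them (item CELL): this changes `Q` by about `m`,
  there are about `N |θ|` cells, and every cell gives a factor `1 - c` (items TRIG, BIL, IT, CLS).
  This gives `exp (-c N |θ|)`, the integral of which is `C / N`.

Every item is an independent module: prove `theorem t_XXX : S_XXX` (with the hypotheses named in the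
statement) in `Pool/Agent/J6H1/RG/XXX.lean`, namespace `Pool.Agent.J6H1.RG`, importing this file.
-/

set_option autoImplicit false

namespace Pool.Agent.J6H1.RG

open Finset Function Pool.Agent.H832R2.JR

/-- `e(x) = exp (2 π i x)` -/
noncomputable def ef (x : ℝ) : ℂ := Complex.exp (2 * Real.pi * x * Complex.I)

/-- the exponential sum over the choices of the crossings -/
noncomputable def ES {N : ℕ} (G : GaussWord N) (θ : ℝ) : ℂ :=
  ∑ w : Fin N → Bool, ef (θ * (Q (adjm G) w : ℤ))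

/-- replace the coordinates in `E` -/
def mix {N : ℕ} (E : Finset (Fin N)) (w z : Fin N → Bool) : Fin N → Bool :=
  fun i => if i ∈ E then z i else w i

/-- the crossing at the place `x` -/
def ch {N : ℕ} (G : GaussWord N) (x : Fin (2 * N)) : Fin N := (G.symm x).1

/-- the active places: the places `x < N` such that the other passage of the crossing at `x` has a
place `≥ N` -/
def act {N : ℕ} (G : GaussWord N) : Finset (Fin (2 * N)) :=
  univ.filter fun x => (x : ℕ) < N ∧ N ≤ (G ((G.symm x).1, !(G.symm x).2) : ℕ)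

/-- `K` cells in `X`, one after the other, each consisting of `m` places `p k a` followed by `m`
places `q k a` -/
structure Cells (N m K : ℕ) (X : Finset (Fin (2 * N))) (p q : Fin K → Fin m → Fin (2 * N)) :
    Prop where
  hp : ∀ k a, p k a ∈ X
  hq : ∀ k a, q k a ∈ X
  mp : ∀ k, StrictMono (p k)
  mq : ∀ k, StrictMono (q k)
  pq : ∀ k a b, p k a < q k b
  kl : ∀ k l, k < l → ∀ a b, q k a < p l b

/-- Item TRIG (one variable analysis, about 80 lines).

Proof. Put `R a t = ∑ b, ε a b * sgn (t b)` and `λ = 2 κ m`.  `|cos x| ≤ exp (- sin² x / 2)`, so the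
product is at most `exp (-Z(t)/2)` with `Z(t) = ∑ a, sin² (κ (R a t + l a))`.  Replacing `t` by its
complement `t'` changes `R a` into `- R a`, and
`sin² (β + α) + sin² (β - α) = 1 - cos 2α cos 2β ≥ 1 - |cos 2α| ≥ sin² (2α) / 2`, so
`Z(t) + Z(t') ≥ Y(t) := ∑ a, sin² (2 κ R a t) / 2`.  For `u, v ∈ [0,1]` : `u + v ≤ 1 + u v`, so
`∑_t exp (-Z(t)/2) = (1/2) ∑_t (exp (-Z(t)/2) + exp (-Z(t')/2)) ≤ (1/2) ∑_t (1 + exp (-Y(t)/2))`.
Finally `exp (-y) ≤ 1 - y + y²/2` for `y ≥ 0`, `x² - x⁴/3 ≤ sin² x ≤ x²`, and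
`∑_t (R a t)² = 2^m m`, `∑_t (R a t)⁴ ≤ 2^m 3 m²`: with averages `E` over `t`,
`E Y ≥ (1/2)(λ² - λ⁴/m) ≥ (1/2) λ² (1 - λ²)`, `E Y² ≤ (1/4)(2κ)⁴ m ∑_a E (R a)⁴ ≤ (3/4) λ⁴`, so
`E exp (-Y/2) ≤ 1 - E Y / 2 + E Y² / 8 ≤ 1 - λ²/4 + (11/32) λ⁴ ≤ 1 - λ²/8` as `λ² ≤ 1/3`. -/
def S_TRIG : Prop := ∀ (m : ℕ) (ε : Fin m → Fin m → ℤ) (l : Fin m → ℝ) (κ : ℝ), 1 ≤ m →
  (∀ a b, ε a b = 1 ∨ ε a b = -1) → (2 * κ * m) ^ 2 ≤ 1 / 3 →
  ∑ t : Fin m → Bool, ∏ a, |Real.cos (κ * (∑ b, (ε a b : ℝ) * (sgn (t b) : ℝ) + l a))| ≤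
    2 ^ m * (1 - (2 * κ * m) ^ 2 / 16)

/-- Item BIL (about 100 lines).

Proof. Let `E = {u a} ∪ {v b}` and `σ = sgn ∘ (mix E w z)`.  By symmetry of `D` and the vanishing of
`D` on `u × u` and `v × v`,
`Q D (mix E w z) = 2 ∑ a, σ(u a) * (∑ b, D (u a) (v b) σ(v b) + l a) + 2 ∑ b, σ(v b) l' b + const`,
`l a = ∑_{j ∉ E} D (u a) j * sgn (w j)` etc.  The sum over `z` of `e(θ Q D)`: sum first over the
coordinates `u a` of `z` with the others fixed: `∑_{σ = ±1} e(2 θ σ x) = 2 cos (4 π θ x)`.  So the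
norm is at most `2^(N-m) * ∑_t ∏ a |cos (4 π θ (∑ b, D (u a) (v b) sgn (t b) + l a))|` and we use
`S_TRIG` with `κ = 4 π θ`.  (One can write the sum over `z` with `sum_extend` of
`Pool.Agent.H832R2.JR.Decouple`, for `u` and for `v`.) -/
def S_BIL : Prop := S_TRIG → ∀ (N m : ℕ) (D : Fin N → Fin N → ℤ) (u v : Fin m → Fin N) (θ : ℝ),
  1 ≤ m → (∀ i j, D i j = D j i) → Injective u → Injective v → (∀ a b, u a ≠ v b) →
  (∀ a b, D (u a) (v b) = 1 ∨ D (u a) (v b) = -1) → (∀ a b, D (u a) (u b) = 0) →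
  (∀ a b, D (v a) (v b) = 0) → (8 * Real.pi * θ * m) ^ 2 ≤ 1 / 3 → ∀ w : Fin N → Bool,
  ‖∑ z : Fin N → Bool, ef (θ * (Q D (mix (univ.image u ∪ univ.image v) w z) : ℤ))‖ ≤
    2 ^ N * (1 - (8 * Real.pi * θ * m) ^ 2 / 16)

/-- Item COS (about 40 lines).

Proof. `(∑∑ |cos|)² ≤ 4^N ∑∑ cos²` and `cos² y = (1 + cos 2y)/2`;
`∑_z ∑_z' cos (2π (f z - g z')) = Re ((∑_z e(f z)) * conj (∑_z' e(g z'))) ≤ 2^N (1 - x) 2^N`.  So the
sum is at most `4^N sqrt (1 - x/2) ≤ 4^N (1 - x/4)`. -/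
def S_COS : Prop := ∀ (N : ℕ) (f g : (Fin N → Bool) → ℝ) (x : ℝ), 0 ≤ x → x ≤ 1 →
  ‖∑ z, ef (f z)‖ ≤ 2 ^ N * (1 - x) →
  ∑ z, ∑ z', |Real.cos (Real.pi * (f z - g z'))| ≤ 4 ^ N * (1 - x / 4)

/-- Item IT (about 50 lines).

Proof. First `∑_w ∑_z h (mix E w z) = 2^N ∑_w h w` (the map `(w, z) ↦ (mix E w z, mix E z w)` is an
involution of the pairs).  Then, by induction over a finset `S` of indices,
`∑_w ∑_w' ∏_{k ∈ S} a k w w' ≤ 4^N ρ^|S|`: for `k ∉ S`,
`4^N ∑_w ∑_w' ∏_{l ∈ insert k S} a l w w' = ∑_w ∑_w' ∑_z ∑_z' ∏ a l (mix (E k) w z) (mix (E k) w' z')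
= ∑_w ∑_w' (∏_{l ∈ S} a l w w') * ∑_z ∑_z' a k (mix (E k) w z) (mix (E k) w' z')`. -/
def S_IT : Prop := ∀ (N K : ℕ) (E : Fin K → Finset (Fin N))
  (a : Fin K → (Fin N → Bool) → (Fin N → Bool) → ℝ) (ρ : ℝ), 0 ≤ ρ → (∀ k w w', 0 ≤ a k w w') →
  (∀ k l, k ≠ l → ∀ w w' z z', a k (mix (E l) w z) (mix (E l) w' z') = a k w w') →
  (∀ k w w', ∑ z, ∑ z', a k (mix (E k) w z) (mix (E k) w' z') ≤ 4 ^ N * ρ) →
  ∑ w, ∑ w', ∏ k, a k w w' ≤ 4 ^ N * ρ ^ K

/-- Item CLS (about 80 lines): averaging over the group generated by commuting involutions `π k`.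

Proof. `∑_{G ∈ V} |ES G θ|² = ∑_w ∑_w' ∑_{G ∈ V} F(G)` with
`F(G) = e(θ (Q (adjm G) w - Q (adjm G) w'))` (real part), so it is at most
`∑_w ∑_w' ‖∑_{G ∈ V} F(G)‖`.  Put `r k G = e(θ (Δ k G w - Δ k G w'))` with
`Δ k G w = Q (adjm (π k G)) w - Q (adjm G) w`; then `F (π k G) = F G * r k G`, and `r l (π k G) = r l G`
for `l ≠ k` by the third hypothesis.  By induction over a finset `S`:
`∑_{G ∈ V} F G = ∑_{G ∈ V} (∏_{l ∈ S} (1 + r l G)/2) * F G` (for `k ∉ S` average over `G` and `π k G`).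
Finally `|(1 + e(x))/2| = |cos (π x)|`, and exchange the sums over `G` and over `w, w'`. -/
def S_CLS : Prop := ∀ (N K : ℕ) (V : Finset (GaussWord N)) (π : Fin K → GaussWord N → GaussWord N)
  (θ M : ℝ), (∀ k, ∀ G ∈ V, π k G ∈ V) → (∀ k, ∀ G ∈ V, π k (π k G) = G) →
  (∀ k l, k ≠ l → ∀ G ∈ V, ∀ w, Q (adjm (π k (π l G))) w - Q (adjm (π l G)) w =
    Q (adjm (π k G)) w - Q (adjm G) w) →
  (∀ G ∈ V, ∑ w : Fin N → Bool, ∑ w' : Fin N → Bool, ∏ k, |Real.cos (Real.pi * (θ *
    ((Q (adjm (π k G)) w - Q (adjm G) w : ℤ) : ℝ) -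
      θ * ((Q (adjm (π k G)) w' - Q (adjm G) w' : ℤ) : ℝ)))| ≤ M) →
  ∑ G ∈ V, ‖ES G θ‖ ^ 2 ≤ V.card * M

/-- Item SWP (about 60 lines): exchanging the letters at two adjacent places.

Proof. Write `G' = G.trans (Equiv.swap x y)`, so `G' r = swap x y (G r)`.  For `i ≠ j`,
`Crosses G i j` holds iff an odd number of the four comparisons `G (i, b) < G (j, b')` holds.  The swap
changes the comparison of two places exactly if these are `x` and `y`, and this happens for exactly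
one of the four pairs `(b, b')` iff `{i, j} = {c, c'}`.  (`Crosses G i i` is false.) -/
def S_SWP : Prop := ∀ (N : ℕ) (G : GaussWord N) (x y : Fin (2 * N)), (y : ℕ) = x + 1 →
  ch G x ≠ ch G y → ∀ i j, adjm (G.trans (Equiv.swap x y)) i j =
    if (i = ch G x ∧ j = ch G y) ∨ (i = ch G y ∧ j = ch G x) then 1 - adjm G i j else adjm G i j

/-- Item TOG (about 150 lines).

Proof. For `e ∈ {0, 1}` and `k < N - 1` let `x k = 2 k + e`, `y k = 2 k + e + 1` (places).
A letter with adjacent places is at `{x k, y k}` for at most one `(e, k)`, so there is an `e` such that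
`ch G (x k) ≠ ch G (y k)` for at least `N/2 - 1` of the `k`.  Let `h G k = (min, max)` of the two letters
`ch G (x k), ch G (y k)`.  The set `V_h` of all `G` with `h G = h` is stable under the swaps at
`{x k, y k}`.  If `h` has `≥ N/2 - 1` indices `k` with different letters, then by `indep_set` (out-degree
`≤ 2`: each of the two letters of `k` occurs in at most one other `k'`) there is a set `I` of such
indices with pairwise disjoint letter pairs and `N - 2 ≤ 10 |I|`.  Apply `S_CLS` to `V_h` and the swaps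
at `k ∈ I` (`Δ k G w = 2 (1 - 2 adjm lo hi) sgn (w lo) sgn (w hi)` by `S_SWP`), and `S_IT` with
`E k = {lo k}`, `ρ = q = (1 + |cos 4πθ|)/2`:  `∑_{G ∈ V_h} |ES G θ|² ≤ |V_h| 4^N q^|I|`.  Sum over the
good `h`, Cauchy-Schwarz, and sum over `e`. -/
def S_TOG : Prop := S_SWP → S_CLS → S_IT → ∀ (N : ℕ) (θ : ℝ), 2 ≤ N →
  ∑ G : GaussWord N, ‖ES G θ‖ ≤
    2 * ((2 * N).factorial * 2 ^ N) * ((1 + |Real.cos (4 * Real.pi * θ)|) / 2) ^ ((N - 2) / 20)

/-- Item CELL (about 120 lines): exchange of the two halves of a cell.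

Proof. `τ k` exchanges `p k a` and `q k a` for all `a` and fixes all other places.  As above `Crosses`
is given by the parity of the four comparisons of places (for `i ≠ j`).  The active letters (those
of the places in `X`) have exactly one place `< N`, and the other one is `≥ N` and fixed by all `τ k`.
So for two active letters `i, j` with active places `i₁, j₁`: `Crosses` iff
`(i₁ < j₁) xor (i₂ < j₂)`, up to a constant.  (a) `i₁ = p k a`, `j₁ = q k b`: `τ k` reverses the order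
of `i₁, j₁`.  (b) `i₁ = p k a, j₁ = p k b`: moved to `q k a, q k b`, same order (strict monotonicity).
(c) `i₁` in the cell `l ≠ k`, `j` any letter: if `j` is not in the cell `k`, the places of `i` and `j`
are not moved by `τ k`; if `j₁` is in the cell `k`, the order of `i₁, j₁` is not changed since the cells
are separated.  (d) last statement: if neither `i` nor `j` is in the cell `l`, `τ l` does not move
them; if neither is in the cell `k`, both sides are 0; otherwise one is in `k` and the other in `l`,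
and nothing changes as in (c) (or both are in the cell `l`, or both in the cell `k`). -/
def S_CELL : Prop := ∀ (N m K : ℕ) (X : Finset (Fin (2 * N))) (p q : Fin K → Fin m → Fin (2 * N)),
  Cells N m K X p q → ∃ τ : Fin K → Equiv.Perm (Fin (2 * N)), (∀ k x, τ k (τ k x) = x) ∧
  ∀ G : GaussWord N, act G = X → ∀ k, act (G.trans (τ k)) = X ∧
    (∀ a b, adjm (G.trans (τ k)) (ch G (p k a)) (ch G (q k b)) - adjm G (ch G (p k a)) (ch G (q k b)) = 1 ∨
      adjm (G.trans (τ k)) (ch G (p k a)) (ch G (q k b)) -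
        adjm G (ch G (p k a)) (ch G (q k b)) = -1) ∧
    (∀ a b, adjm (G.trans (τ k)) (ch G (p k a)) (ch G (p k b)) = adjm G (ch G (p k a)) (ch G (p k b))) ∧
    (∀ a b, adjm (G.trans (τ k)) (ch G (q k a)) (ch G (q k b)) = adjm G (ch G (q k a)) (ch G (q k b))) ∧
    (∀ l, l ≠ k → ∀ a j, adjm (G.trans (τ k)) (ch G (p l a)) j = adjm G (ch G (p l a)) j ∧
      adjm (G.trans (τ k)) (ch G (q l a)) j = adjm G (ch G (q l a)) j) ∧
    (∀ l, l ≠ k → ∀ i j, adjm ((G.trans (τ l)).trans (τ k)) i j - adjm (G.trans (τ l)) i j =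
      adjm (G.trans (τ k)) i j - adjm G i j)

/-- Item DATA (about 40 lines): enumerate `X` increasingly (`Finset.orderEmbOfFin`) and take
`p k a = x_{2 m k + a}`, `q k a = x_{2 m k + m + a}`. -/
def S_DATA : Prop := ∀ (N m K : ℕ) (X : Finset (Fin (2 * N))), 2 * m * K ≤ X.card →
  ∃ p q : Fin K → Fin m → Fin (2 * N), Cells N m K X p q

/-- Item CNT (about 100 lines): almost all Gauss words have at least `N / 4` active places.

Proof. For `G` let `P (c, b) = (G (c, b) < N)`; `(act G).card` is the number of `c` with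
`P (c, false) ≠ P (c, true)`.  For a given `P` there are at most `N! * N!` words `G` (restrict `G` to
`{P = true} ↪ {x < N}` and `{P = false} ↪ {x ≥ N}`; `P` is true at exactly `N` passages).  The
number of `P` with fewer than `N/4` mixed letters is at most
`∑_P 3^(N/4 - mixed P) = 3^(N/4) (2 + 2/3)^N`.  As `4^N ≤ 2 N (2N)!/(N!)²`
(`Nat.four_pow_le_two_mul_self_mul_centralBinom`), the number of bad words is at most
`(2N)! * 2 N * (3^(1/4) * (2/3))^N`, and `3^(1/4) * 2/3 < 0.878`, so `N² * 2 * 0.878^N ≤ C`. -/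
def S_CNT : Prop := ∃ C : ℝ, 0 < C ∧ ∀ N : ℕ, 1 ≤ N →
  ((univ.filter fun G : GaussWord N => 4 * (act G).card < N).card : ℝ) * N ≤ C * (2 * N).factorial

/-- Item FR (about 60 lines).

Proof. `adjm G` is symmetric with zero diagonal and entries 0/1, so `Q (adjm G) w = 2 * n(w)` with
`n(w) ≡ number of pairs (mod 2)`: all values of `Q (adjm G)` are congruent mod 4 (flip one
coordinate: the change is `-4 σ_i ∑_j adjm i j σ_j`).  If some value is `c`, then for every `w`:
`4 ∫_{-1/8}^{1/8} e(θ (Q (adjm G) w - c)) dθ = 1` if `Q (adjm G) w = c` and `0` otherwise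
(`integral_exp_mul_complex`).  So the number is `4 ∫ ES G θ * e(- θ c) dθ`. -/
def S_FR : Prop := ∀ (N : ℕ) (G : GaussWord N) (c : ℤ),
  ((univ.filter fun w => Q (adjm G) w = c).card : ℝ) ≤ 4 * ∫ θ in (-(1 / 8 : ℝ))..(1 / 8), ‖ES G θ‖

/-- Item LOW (helper1). -/
def S_LOW : Prop := S_TRIG → S_BIL → S_COS → S_IT → S_CLS → S_CELL → S_DATA → ∀ (N : ℕ) (θ : ℝ),
  1 ≤ N → |θ| ≤ 1 / 50 → ∑ G ∈ univ.filter (fun G : GaussWord N => N ≤ 4 * (act G).card), ‖ES G θ‖ ≤
    2 * ((2 * N).factorial * 2 ^ N) * Real.exp (-(0.003 * N * |θ|))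

end Pool.Agent.J6H1.RG
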