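import Pool.Agent.J6H1.RG.Stm

/-!
# Project RG of helper1: item TOG (independent toggles). Author: helper92
-/

set_option autoImplicit false

namespace Pool.Agent.J6H1.RG

open Finset Function Pool.Agent.H832R2.JR

namespace TOGp

variable {N : ℕ}

/-- the left place of the pair `k` -/
def px (e : Fin 2) (k : Fin (N - 1)) : Fin (2 * N) := ⟨2 * k + e, by
  have := k.2; have := e.2; omega⟩

/-- the right place of the pair `k` -/
def py (e : Fin 2) (k : Fin (N - 1)) : Fin (2 * N) := ⟨2 * k + e + 1, by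
  have := k.2; have := e.2; omega⟩

lemma px_val (e : Fin 2) (k : Fin (N - 1)) : (px e k : ℕ) = 2 * k + e := rfl
lemma py_val (e : Fin 2) (k : Fin (N - 1)) : (py e k : ℕ) = 2 * k + e + 1 := rfl

lemma px_ne_py (e : Fin 2) (k l : Fin (N - 1)) : px e k ≠ py e l := by
  intro h
  have := congrArg Fin.val h
  rw [px_val, py_val] at this
  omega

lemma px_inj {e : Fin 2} {k l : Fin (N - 1)} (h : px e k = px e l) : k = l := by
  have := congrArg Fin.val h
  rw [px_val, px_val] at this
  apply Fin.ext; omega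

lemma py_inj {e : Fin 2} {k l : Fin (N - 1)} (h : py e k = py e l) : k = l := by
  have := congrArg Fin.val h
  rw [py_val, py_val] at this
  apply Fin.ext; omega

/-- exchange of the letters of the pair `k` -/
def sw (e : Fin 2) (k : Fin (N - 1)) (G : GaussWord N) : GaussWord N :=
  G.trans (Equiv.swap (px e k) (py e k))

lemma ch_sw (e : Fin 2) (k : Fin (N - 1)) (G : GaussWord N) (z : Fin (2 * N)) :
    ch (sw e k G) z = ch G (Equiv.swap (px e k) (py e k) z) := by
  unfold ch sw
  rw [Equiv.symm_trans_apply, Equiv.symm_swap]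

lemma sw_sw (e : Fin 2) (k : Fin (N - 1)) (G : GaussWord N) : sw e k (sw e k G) = G := by
  unfold sw
  ext z
  simp

/-- the pairs of letters -/
def hh (e : Fin 2) (G : GaussWord N) (k : Fin (N - 1)) : Fin N × Fin N :=
  (min (ch G (px e k)) (ch G (py e k)), max (ch G (px e k)) (ch G (py e k)))

lemma hh_cases (e : Fin 2) (G : GaussWord N) (k : Fin (N - 1)) :
    ((hh e G k).1 = ch G (px e k) ∧ (hh e G k).2 = ch G (py e k)) ∨
    ((hh e G k).1 = ch G (py e k) ∧ (hh e G k).2 = ch G (px e k)) := by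
  unfold hh
  rcases le_total (ch G (px e k)) (ch G (py e k)) with h | h
  · left; exact ⟨min_eq_left h, max_eq_right h⟩
  · right; exact ⟨min_eq_right h, max_eq_left h⟩

lemma hh_ne_iff (e : Fin 2) (G : GaussWord N) (k : Fin (N - 1)) :
    (hh e G k).1 ≠ (hh e G k).2 ↔ ch G (px e k) ≠ ch G (py e k) := by
  rcases hh_cases e G k with ⟨h1, h2⟩ | ⟨h1, h2⟩ <;> rw [h1, h2]
  exact ne_comm

lemma hh_sw (e : Fin 2) (k : Fin (N - 1)) (G : GaussWord N) : hh e (sw e k G) = hh e G := by
  ext1 l
  unfold hh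
  by_cases h : l = k
  · subst h
    rw [ch_sw, ch_sw, Equiv.swap_apply_left, Equiv.swap_apply_right, min_comm, max_comm]
  · rw [ch_sw, ch_sw, Equiv.swap_apply_of_ne_of_ne (fun h' => h (px_inj h')) (px_ne_py _ _ _),
      Equiv.swap_apply_of_ne_of_ne (fun h' => px_ne_py _ _ _ h'.symm) (fun h' => h (py_inj h'))]

/-- the change of the quadratic form -/
lemma delta0 (hS : S_SWP) (G : GaussWord N) (x y : Fin (2 * N)) (hy : (y : ℕ) = x + 1)
    (hne : ch G x ≠ ch G y) (w : Fin N → Bool) :
    Q (adjm (G.trans (Equiv.swap x y))) w - Q (adjm G) w =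
      2 * (1 - 2 * adjm G (ch G x) (ch G y)) * (sgn (w (ch G x)) * sgn (w (ch G y))) := by
  classical
  unfold Q
  rw [← sum_sub_distrib]
  set c := ch G x with hc
  set c' := ch G y with hc'
  set X : ℤ := (1 - 2 * adjm G c c') * (sgn (w c) * sgn (w c')) with hX
  have h1 : ∀ i, (∑ j, adjm (G.trans (Equiv.swap x y)) i j * (sgn (w i) * sgn (w j))) -
      ∑ j, adjm G i j * (sgn (w i) * sgn (w j)) =
      (if i = c then X else 0) + (if i = c' then X else 0) := by
    intro i
    rw [← sum_sub_distrib]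
    have h2 : ∀ j, adjm (G.trans (Equiv.swap x y)) i j * (sgn (w i) * sgn (w j)) -
        adjm G i j * (sgn (w i) * sgn (w j)) =
        (if j = c' then (if i = c then X else 0) else 0) +
          (if j = c then (if i = c' then X else 0) else 0) := by
      intro j
      rw [hS N G x y hy hne i j, ← hc, ← hc']
      by_cases a1 : i = c
      · have a2 : i ≠ c' := by rw [a1]; exact hne
        by_cases b1 : j = c'
        · have b2 : j ≠ c := by rw [b1]; exact hne.symm
          rw [if_pos (Or.inl ⟨a1, b1⟩), if_pos b1, if_pos a1, if_neg b2, a1, b1, hX]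
          ring
        · rw [if_neg (by tauto), if_neg b1, if_neg a2]
          simp
      · by_cases a2 : i = c'
        · by_cases b1 : j = c
          · have b2 : j ≠ c' := by rw [b1]; exact hne
            rw [if_pos (Or.inr ⟨a2, b1⟩), if_neg b2, if_pos b1, if_pos a2, a2, b1, hX,
              adjm_symm G c' c]
            ring
          · rw [if_neg (by tauto), if_neg a1, if_neg b1]
            simp
        · rw [if_neg (by tauto), if_neg a1, if_neg a2]
          simp
    rw [sum_congr rfl fun j _ => h2 j, sum_add_distrib, sum_ite_eq', sum_ite_eq']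
    simp
  rw [sum_congr rfl fun i _ => h1 i, sum_add_distrib, sum_ite_eq', sum_ite_eq']
  simp only [mem_univ, if_true, hX]
  ring

lemma delta (hS : S_SWP) (e : Fin 2) (k : Fin (N - 1)) (G : GaussWord N)
    (hne : (hh e G k).1 ≠ (hh e G k).2) (w : Fin N → Bool) :
    Q (adjm (sw e k G)) w - Q (adjm G) w =
      2 * (1 - 2 * adjm G (hh e G k).1 (hh e G k).2) *
        (sgn (w (hh e G k).1) * sgn (w (hh e G k).2)) := by
  have h1 := delta0 hS G (px e k) (py e k) rfl ((hh_ne_iff e G k).1 hne) w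
  unfold sw
  rw [h1]
  rcases hh_cases e G k with ⟨h2, h3⟩ | ⟨h2, h3⟩
  · rw [h2, h3]
  · rw [h2, h3, adjm_symm G (ch G (py e k)) (ch G (px e k))]
    ring

lemma sgn_cases (b : Bool) : sgn b = 1 ∨ sgn b = -1 := by
  cases b
  · right; rfl
  · left; rfl

lemma sgn_not (b : Bool) : sgn (!b) = - sgn b := by
  cases b <;> simp [sgn]

/-- two values of the cosine -/
lemma cos_pair (θ : ℝ) (E s1 s2 : ℤ) (hE : E = 1 ∨ E = -1) (h1 : s1 = 1 ∨ s1 = -1)
    (h2 : s2 = 1 ∨ s2 = -1) (b b' : Bool) :
    |Real.cos (Real.pi * (θ * ((2 * E * (sgn b * s1) : ℤ) : ℝ) -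
      θ * ((2 * E * (sgn b' * s2) : ℤ) : ℝ)))| +
    |Real.cos (Real.pi * (θ * ((2 * E * (sgn b * s1) : ℤ) : ℝ) -
      θ * ((2 * E * (sgn (!b') * s2) : ℤ) : ℝ)))| = 1 + |Real.cos (4 * Real.pi * θ)| := by
  have e1 : |Real.cos (Real.pi * (θ * 2 - θ * 2))| = 1 := by simp
  have e2 : |Real.cos (Real.pi * (θ * 2 - θ * (-2)))| = |Real.cos (4 * Real.pi * θ)| := by
    congr 2; ring
  have e3 : |Real.cos (Real.pi * (θ * (-2) - θ * 2))| = |Real.cos (4 * Real.pi * θ)| := by
    rw [← Real.cos_neg]; congr 2; ring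
  have e4 : |Real.cos (Real.pi * (θ * (-2) - θ * (-2)))| = 1 := by simp
  rw [sgn_not]
  rcases sgn_cases b with hb | hb <;> rcases sgn_cases b' with hb' | hb' <;>
    rcases hE with hE | hE <;> rcases h1 with h1 | h1 <;> rcases h2 with h2 | h2 <;>
    rw [hb, hb', hE, h1, h2] <;> norm_num only [] <;>
    simp only [e1, e2, e3, e4] <;> first | rfl | ring

/-- flipping one coordinate -/
lemma flip_sum (c : Fin N) (g : Bool → ℝ) (B : ℝ) (hg : ∀ b, g b + g (!b) = B) :
    ∑ z : Fin N → Bool, g (z c) = 2 ^ N * (B / 2) := by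
  have h1 : ∑ z : Fin N → Bool, g (z c) = ∑ z : Fin N → Bool, g (!(z c)) := by
    refine Fintype.sum_equiv (Function.Involutive.toPerm
      (fun z : Fin N → Bool => Function.update z c (!(z c))) ?_) _ _ ?_
    · intro z
      show Function.update (Function.update z c (!(z c))) c
        (!(Function.update z c (!(z c)) c)) = z
      rw [Function.update_self, Bool.not_not, Function.update_idem, Function.update_eq_self]
    · intro z
      show g (z c) = g (!(Function.update z c (!(z c)) c))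
      rw [Function.update_self, Bool.not_not]
  have h2 : ∑ z : Fin N → Bool, (g (z c) + g (!(z c))) = 2 ^ N * B := by
    rw [sum_congr rfl fun z _ => hg (z c), sum_const, nsmul_eq_mul]
    simp
  rw [sum_add_distrib, ← h1] at h2
  linarith

lemma adjm_cases (G : GaussWord N) (i j : Fin N) : adjm G i j = 1 ∨ adjm G i j = 0 := by
  unfold adjm
  split_ifs
  · left; rfl
  · right; rfl

lemma eps_cases (G : GaussWord N) (i j : Fin N) :
    1 - 2 * adjm G i j = 1 ∨ 1 - 2 * adjm G i j = -1 := by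
  rcases adjm_cases G i j with h | h <;> rw [h]
  · right; norm_num
  · left; norm_num

/-- the base of the geometric bound -/
noncomputable def qq (θ : ℝ) : ℝ := (1 + |Real.cos (4 * Real.pi * θ)|) / 2

lemma qq_nonneg (θ : ℝ) : 0 ≤ qq θ := by unfold qq; positivity

lemma qq_le_one (θ : ℝ) : qq θ ≤ 1 := by
  unfold qq
  linarith [Real.abs_cos_le_one (4 * Real.pi * θ)]

/-- the bound for one Gauss word -/
lemma word_bound (hS : S_SWP) (hI : S_IT) (θ : ℝ) (e : Fin 2) (G : GaussWord N) (K : ℕ)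
    (ik : Fin K → Fin (N - 1)) (hne : ∀ k, (hh e G (ik k)).1 ≠ (hh e G (ik k)).2)
    (hind : ∀ k l, k ≠ l → (hh e G (ik k)).1 ≠ (hh e G (ik l)).1 ∧
      (hh e G (ik k)).2 ≠ (hh e G (ik l)).1) :
    ∑ w : Fin N → Bool, ∑ w' : Fin N → Bool, ∏ k, |Real.cos (Real.pi * (θ *
      ((Q (adjm (sw e (ik k) G)) w - Q (adjm G) w : ℤ) : ℝ) -
        θ * ((Q (adjm (sw e (ik k) G)) w' - Q (adjm G) w' : ℤ) : ℝ)))| ≤ 4 ^ N * qq θ ^ K := by
  refine hI N K (fun k => {(hh e G (ik k)).1}) (fun k w w' => |Real.cos (Real.pi * (θ *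
      ((Q (adjm (sw e (ik k) G)) w - Q (adjm G) w : ℤ) : ℝ) -
        θ * ((Q (adjm (sw e (ik k) G)) w' - Q (adjm G) w' : ℤ) : ℝ)))|) (qq θ) (qq_nonneg θ)
    (fun k w w' => abs_nonneg _) ?_ ?_
  · intro k l hkl w w' z z'
    rw [delta hS e (ik k) G (hne k), delta hS e (ik k) G (hne k), delta hS e (ik k) G (hne k),
      delta hS e (ik k) G (hne k)]
    obtain ⟨h1, h2⟩ := hind k l hkl
    unfold mix
    simp only [mem_singleton, if_neg h1, if_neg h2]
  · intro k w w'
    set lo := (hh e G (ik k)).1 with hlo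
    set hi := (hh e G (ik k)).2 with hhi
    have hlh : lo ≠ hi := hne k
    have h1 : ∀ (w z : Fin N → Bool), Q (adjm (sw e (ik k) G)) (mix {lo} w z) -
        Q (adjm G) (mix {lo} w z) = 2 * (1 - 2 * adjm G lo hi) * (sgn (z lo) * sgn (w hi)) := by
      intro w z
      rw [delta hS e (ik k) G (hne k), ← hlo, ← hhi]
      unfold mix
      rw [if_pos (mem_singleton_self lo), if_neg (by rw [mem_singleton]; exact hlh.symm)]
    simp only [h1]
    have h2 : ∀ z : Fin N → Bool, ∑ z' : Fin N → Bool, |Real.cos (Real.pi * (θ *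
        ((2 * (1 - 2 * adjm G lo hi) * (sgn (z lo) * sgn (w hi)) : ℤ) : ℝ) -
        θ * ((2 * (1 - 2 * adjm G lo hi) * (sgn (z' lo) * sgn (w' hi)) : ℤ) : ℝ)))| =
        2 ^ N * qq θ := by
      intro z
      refine flip_sum lo (fun b' => |Real.cos (Real.pi * (θ *
        ((2 * (1 - 2 * adjm G lo hi) * (sgn (z lo) * sgn (w hi)) : ℤ) : ℝ) -
        θ * ((2 * (1 - 2 * adjm G lo hi) * (sgn b' * sgn (w' hi)) : ℤ) : ℝ)))|)
        (1 + |Real.cos (4 * Real.pi * θ)|) ?_
      intro b'
      exact cos_pair θ _ _ _ (eps_cases G lo hi) (sgn_cases _) (sgn_cases _) (z lo) b'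
    rw [sum_congr rfl fun z _ => h2 z, sum_const, nsmul_eq_mul]
    have h3 : ((univ : Finset (Fin N → Bool)).card : ℝ) = 2 ^ N := by simp
    rw [h3]
    have h4 : (4 : ℝ) ^ N = 2 ^ N * 2 ^ N := by rw [← mul_pow]; norm_num
    rw [h4]
    exact le_of_eq (by ring)

/-! ## the letters -/

/-- the other place of the letter at the place `z` -/
def partner (G : GaussWord N) (z : Fin (2 * N)) : Fin (2 * N) := G ((G.symm z).1, !(G.symm z).2)

lemma eq_partner (G : GaussWord N) {z z' : Fin (2 * N)} (h : ch G z = ch G z') (hne : z ≠ z') :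
    z = partner G z' := by
  unfold partner
  rw [← Equiv.symm_apply_eq]
  unfold ch at h
  apply Prod.ext
  · exact h
  · by_contra hb
    apply hne
    apply G.symm.injective
    apply Prod.ext h
    have hb' : ¬ (G.symm z).2 = !(G.symm z').2 := hb
    cases h1 : (G.symm z).2 <;> cases h2 : (G.symm z').2 <;> simp_all

/-- the pairs meeting the pair `k` are few -/
lemma deg_le (e : Fin 2) (G : GaussWord N) (S : Finset (Fin (N - 1))) (k : Fin (N - 1)) :
    (S.filter fun l => l ≠ k ∧ ((hh e G l).1 = (hh e G k).1 ∨ (hh e G l).1 = (hh e G k).2 ∨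
      (hh e G l).2 = (hh e G k).1 ∨ (hh e G l).2 = (hh e G k).2)).card ≤ 2 := by
  classical
  have h1 : ∀ l ∈ S.filter (fun l => l ≠ k ∧ ((hh e G l).1 = (hh e G k).1 ∨
      (hh e G l).1 = (hh e G k).2 ∨ (hh e G l).2 = (hh e G k).1 ∨
      (hh e G l).2 = (hh e G k).2)), ∃ z, (z = px e l ∨ z = py e l) ∧
      (z = partner G (px e k) ∨ z = partner G (py e k)) := by
    intro l hl
    rw [mem_filter] at hl
    obtain ⟨-, hlk, hR⟩ := hl
    have h2 : ∃ z, (z = px e l ∨ z = py e l) ∧ (ch G z = ch G (px e k) ∨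
        ch G z = ch G (py e k)) := by
      rcases hh_cases e G l with ⟨a1, a2⟩ | ⟨a1, a2⟩ <;>
      rcases hh_cases e G k with ⟨b1, b2⟩ | ⟨b1, b2⟩ <;> rw [a1, a2, b1, b2] at hR <;>
      rcases hR with hR | hR | hR | hR
      · exact ⟨_, Or.inl rfl, Or.inl hR⟩
      · exact ⟨_, Or.inl rfl, Or.inr hR⟩
      · exact ⟨_, Or.inr rfl, Or.inl hR⟩
      · exact ⟨_, Or.inr rfl, Or.inr hR⟩
      · exact ⟨_, Or.inl rfl, Or.inr hR⟩
      · exact ⟨_, Or.inl rfl, Or.inl hR⟩
      · exact ⟨_, Or.inr rfl, Or.inr hR⟩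
      · exact ⟨_, Or.inr rfl, Or.inl hR⟩
      · exact ⟨_, Or.inr rfl, Or.inl hR⟩
      · exact ⟨_, Or.inr rfl, Or.inr hR⟩
      · exact ⟨_, Or.inl rfl, Or.inl hR⟩
      · exact ⟨_, Or.inl rfl, Or.inr hR⟩
      · exact ⟨_, Or.inr rfl, Or.inr hR⟩
      · exact ⟨_, Or.inr rfl, Or.inl hR⟩
      · exact ⟨_, Or.inl rfl, Or.inr hR⟩
      · exact ⟨_, Or.inl rfl, Or.inl hR⟩
    obtain ⟨z, hz, hz2⟩ := h2
    have hzx : z ≠ px e k := by
      rcases hz with rfl | rfl
      · exact fun h => hlk (px_inj h)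
      · exact fun h => px_ne_py _ _ _ h.symm
    have hzy : z ≠ py e k := by
      rcases hz with rfl | rfl
      · exact px_ne_py _ _ _
      · exact fun h => hlk (py_inj h)
    refine ⟨z, hz, ?_⟩
    rcases hz2 with h | h
    · exact Or.inl (eq_partner G h hzx)
    · exact Or.inr (eq_partner G h hzy)
  have : Nonempty (Fin (2 * N)) := ⟨px e k⟩
  choose! z hz1 hz2 using h1
  have h3 := Finset.card_le_card_of_injOn (t := {partner G (px e k), partner G (py e k)}) z
    (fun l hl => by
      have := hz2 l hl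
      simpa [mem_insert, mem_singleton] using this)
    (fun l hl l' hl' hll => by
      rcases hz1 l hl with h | h <;> rcases hz1 l' hl' with h' | h'
      · exact px_inj (h.symm.trans (hll.trans h'))
      · exact absurd (h.symm.trans (hll.trans h')) (px_ne_py _ _ _)
      · exact absurd (h'.symm.trans (hll.symm.trans h)) (px_ne_py _ _ _)
      · exact py_inj (h.symm.trans (hll.trans h')))
  exact h3.trans Finset.card_le_two

/-- many pairs of different letters for one of the two parities -/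
lemma exists_good (hN : 2 ≤ N) (G : GaussWord N) : ∃ e : Fin 2,
    N - 2 ≤ 2 * (univ.filter fun k => (hh e G k).1 ≠ (hh e G k).2).card := by
  classical
  by_contra hc
  push Not at hc
  set T : Finset (Fin 2 × Fin (N - 1)) :=
    univ.filter fun q => ch G (px q.1 q.2) = ch G (py q.1 q.2) with hT
  have h1 : T.card ≤ N := by
    have h2 := Finset.card_le_card_of_injOn (s := T) (t := (univ : Finset (Fin N)))
      (fun q => ch G (px q.1 q.2)) (fun q _ => mem_univ _) (by
        rintro ⟨e, k⟩ hq ⟨e', k'⟩ hq' h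
        have hq2 : ch G (px e k) = ch G (py e k) := by
          have := hq; rw [hT, mem_coe, mem_filter] at this; exact this.2
        have hq2' : ch G (px e' k') = ch G (py e' k') := by
          have := hq'; rw [hT, mem_coe, mem_filter] at this; exact this.2
        have h3 : ch G (px e k) = ch G (px e' k') := h
        -- the letter has two places
        have a0 : py e k = partner G (px e k) := eq_partner G hq2.symm (px_ne_py e k k).symm
        have a1 : px e' k' = px e k ∨ px e' k' = py e k := by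
          by_cases hx : px e' k' = px e k
          · exact Or.inl hx
          · right
            rw [a0]; exact eq_partner G h3.symm hx
        have a2 : py e' k' = px e k ∨ py e' k' = py e k := by
          by_cases hx : py e' k' = px e k
          · exact Or.inl hx
          · right
            rw [a0]; exact eq_partner G (hq2'.symm.trans h3.symm) hx
        have v1 : (px e' k' : ℕ) = 2 * k' + e' := rfl
        have v2 : (py e' k' : ℕ) = 2 * k' + e' + 1 := rfl
        have v3 : (px e k : ℕ) = 2 * k + e := rfl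
        have v4 : (py e k : ℕ) = 2 * k + e + 1 := rfl
        have b1 : (px e' k' : ℕ) = px e k ∨ (px e' k' : ℕ) = py e k :=
          a1.imp (congrArg Fin.val) (congrArg Fin.val)
        have b2 : (py e' k' : ℕ) = px e k ∨ (py e' k' : ℕ) = py e k :=
          a2.imp (congrArg Fin.val) (congrArg Fin.val)
        have he := e.2
        have he' := e'.2
        have hk : (k : ℕ) = k' := by omega
        have hee : (e : ℕ) = e' := by omega
        exact Prod.ext (Fin.ext hee) (Fin.ext hk))
    simpa using h2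
  have h2 : T.card = ∑ e : Fin 2, (univ.filter fun k : Fin (N - 1) =>
      ¬ (hh e G k).1 ≠ (hh e G k).2).card := by
    rw [hT, card_filter, Fintype.sum_prod_type]
    refine sum_congr rfl fun e _ => ?_
    rw [card_filter]
    refine sum_congr rfl fun k _ => ?_
    have := hh_ne_iff e G k
    by_cases h : ch G (px e k) = ch G (py e k)
    · rw [if_pos h, if_pos (fun h' => this.1 h' h)]
    · rw [if_neg h, if_neg (fun h' => h' (this.2 h))]
  have h3 : ∀ e : Fin 2, (univ.filter fun k => (hh e G k).1 ≠ (hh e G k).2).card +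
      (univ.filter fun k : Fin (N - 1) => ¬ (hh e G k).1 ≠ (hh e G k).2).card = N - 1 := by
    intro e
    rw [card_filter_add_card_filter_not]
    simp
  rw [Fin.sum_univ_two] at h2
  have c0 := hc 0
  have c1 := hc 1
  have d0 := h3 0
  have d1 := h3 1
  omega

/-- the bound for a class of Gauss words with the same letter pairs -/
lemma class_bound (hS : S_SWP) (hC : S_CLS) (hI : S_IT) (θ : ℝ) (e : Fin 2)
    (h : Fin (N - 1) → Fin N × Fin N)
    (hgood : N - 2 ≤ 2 * (univ.filter fun k => (h k).1 ≠ (h k).2).card) :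
    ∑ G ∈ univ.filter (fun G : GaussWord N => hh e G = h), ‖ES G θ‖ ^ 2 ≤
      ((univ.filter fun G : GaussWord N => hh e G = h).card : ℝ) *
        (4 ^ N * qq θ ^ (2 * ((N - 2) / 20))) := by
  classical
  set V := univ.filter (fun G : GaussWord N => hh e G = h) with hV
  rcases V.eq_empty_or_nonempty with h0 | ⟨G0, hG0⟩
  · rw [h0]; simp
  have hG0h : hh e G0 = h := (mem_filter.1 hG0).2
  set S := univ.filter (fun k : Fin (N - 1) => (h k).1 ≠ (h k).2) with hSdef
  obtain ⟨I, hIS, hind, hcard⟩ := indep_set (fun k l : Fin (N - 1) => (h l).1 = (h k).1 ∨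
      (h l).1 = (h k).2 ∨ (h l).2 = (h k).1 ∨ (h l).2 = (h k).2) 2 S.card S rfl (by
    intro k _
    have := deg_le e G0 S k
    rw [hG0h] at this
    convert this)
  set K := I.card with hK
  set ik : Fin K → Fin (N - 1) := fun k => (I.equivFin.symm k : Fin (N - 1)) with hik
  have hikI : ∀ k, ik k ∈ I := fun k => (I.equivFin.symm k).2
  have hikinj : ∀ k l, k ≠ l → ik k ≠ ik l := by
    intro k l hkl hc
    exact hkl (I.equivFin.symm.injective (Subtype.ext hc))
  have hne : ∀ k, (h (ik k)).1 ≠ (h (ik k)).2 := fun k => (mem_filter.1 (hIS (hikI k))).2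
  have hR : ∀ k l, k ≠ l → (h (ik l)).1 ≠ (h (ik k)).1 ∧ (h (ik l)).1 ≠ (h (ik k)).2 ∧
      (h (ik l)).2 ≠ (h (ik k)).1 ∧ (h (ik l)).2 ≠ (h (ik k)).2 := by
    intro k l hkl
    have := hind (ik k) (hikI k) (ik l) (hikI l) (hikinj k l hkl)
    simp only [not_or] at this
    exact this
  have hmem : ∀ G, G ∈ V ↔ hh e G = h := fun G => by rw [hV, mem_filter]; simp
  have hmain := hC N K V (fun k G => sw e (ik k) G) θ (4 ^ N * qq θ ^ K)
    (fun k G hG => by rw [hmem] at hG ⊢; rw [hh_sw]; exact hG)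
    (fun k G _ => sw_sw e (ik k) G)
    (by
      intro k l hkl G hG w
      rw [hmem] at hG
      have hG' : hh e (sw e (ik l) G) = h := by rw [hh_sw]; exact hG
      show Q (adjm (sw e (ik k) (sw e (ik l) G))) w - Q (adjm (sw e (ik l) G)) w =
        Q (adjm (sw e (ik k) G)) w - Q (adjm G) w
      rw [delta hS e (ik k) (sw e (ik l) G) (by rw [hG']; exact hne k),
        delta hS e (ik k) G (by rw [hG]; exact hne k), hG', hG]
      have hx : ch G (px e (ik l)) ≠ ch G (py e (ik l)) := by
        rw [← hh_ne_iff, hG]; exact hne l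
      have h1 : adjm (sw e (ik l) G) (h (ik k)).1 (h (ik k)).2 =
          adjm G (h (ik k)).1 (h (ik k)).2 := by
        unfold sw
        rw [hS N G (px e (ik l)) (py e (ik l)) rfl hx, if_neg]
        obtain ⟨r1, r2, r3, r4⟩ := hR k l hkl
        rcases hh_cases e G (ik l) with ⟨a1, a2⟩ | ⟨a1, a2⟩ <;> rw [hG] at a1 a2 <;>
          rw [← a1, ← a2] <;> rintro (⟨b1, b2⟩ | ⟨b1, b2⟩)
        · exact r1 b1.symm
        · exact r3 b1.symm
        · exact r3 b1.symm
        · exact r1 b1.symm
      rw [h1])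
    (by
      intro G hG
      rw [hmem] at hG
      refine word_bound hS hI θ e G K ik (fun k => by rw [hG]; exact hne k) ?_
      intro k l hkl
      rw [hG]
      obtain ⟨r1, r2, -, -⟩ := hR k l hkl
      exact ⟨r1.symm, r2.symm⟩)
  refine hmain.trans ?_
  refine mul_le_mul_of_nonneg_left ?_ (Nat.cast_nonneg _)
  refine mul_le_mul_of_nonneg_left ?_ (by positivity)
  refine pow_le_pow_of_le_one (qq_nonneg θ) (qq_le_one θ) ?_
  omega

/-- one parity -/
lemma parity_bound (hS : S_SWP) (hC : S_CLS) (hI : S_IT) (θ : ℝ) (e : Fin 2) :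
    ∑ G ∈ univ.filter (fun G : GaussWord N =>
      N - 2 ≤ 2 * (univ.filter fun k => (hh e G k).1 ≠ (hh e G k).2).card), ‖ES G θ‖ ≤
      ((2 * N).factorial * 2 ^ N) * qq θ ^ ((N - 2) / 20) := by
  classical
  set A := univ.filter (fun G : GaussWord N =>
      N - 2 ≤ 2 * (univ.filter fun k => (hh e G k).1 ≠ (hh e G k).2).card) with hA
  set B : ℝ := 4 ^ N * qq θ ^ (2 * ((N - 2) / 20)) with hB
  set H := univ.filter (fun h : Fin (N - 1) → Fin N × Fin N =>
      N - 2 ≤ 2 * (univ.filter fun k => (h k).1 ≠ (h k).2).card) with hH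
  have hmaps : ∀ G ∈ A, hh e G ∈ H := by
    intro G hG
    rw [hA, mem_filter] at hG
    rw [hH, mem_filter]
    exact ⟨mem_univ _, hG.2⟩
  have hfib : ∀ h ∈ H, A.filter (fun G => hh e G = h) =
      univ.filter (fun G : GaussWord N => hh e G = h) := by
    intro h hh'
    rw [hH, mem_filter] at hh'
    ext G
    rw [mem_filter, hA, mem_filter, mem_filter]
    constructor
    · rintro ⟨-, h2⟩; exact ⟨mem_univ _, h2⟩
    · rintro ⟨-, h2⟩
      refine ⟨⟨mem_univ _, ?_⟩, h2⟩
      rw [h2]; exact hh'.2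
  have h1 : ∑ G ∈ A, ‖ES G θ‖ ^ 2 ≤ (A.card : ℝ) * B := by
    rw [← sum_fiberwise_of_maps_to hmaps]
    have h2 : (A.card : ℝ) * B = ∑ h ∈ H, ((A.filter (fun G => hh e G = h)).card : ℝ) * B := by
      rw [← sum_mul]
      congr 1
      rw [card_eq_sum_card_fiberwise hmaps]
      push_cast
      rfl
    rw [h2]
    refine sum_le_sum fun h hh' => ?_
    rw [hfib h hh']
    exact class_bound hS hC hI θ e h (mem_filter.1 hh').2
  have h2 : (∑ G ∈ A, ‖ES G θ‖) ^ 2 ≤ ((A.card : ℝ) * 2 ^ N * qq θ ^ ((N - 2) / 20)) ^ 2 := by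
    refine (sq_sum_le_card_mul_sum_sq).trans ?_
    refine (mul_le_mul_of_nonneg_left h1 (Nat.cast_nonneg _)).trans (le_of_eq ?_)
    rw [hB, mul_pow, mul_pow, ← pow_mul, ← pow_mul, mul_comm ((N - 2) / 20) 2,
      show (4 : ℝ) ^ N = 2 ^ (N * 2) by rw [mul_comm, pow_mul]; norm_num]
    ring
  have h3 : 0 ≤ (A.card : ℝ) * 2 ^ N * qq θ ^ ((N - 2) / 20) := by
    have := qq_nonneg θ
    positivity
  have h4 := abs_le_of_sq_le_sq h2 h3
  have h5 : (A.card : ℝ) ≤ (2 * N).factorial := by
    have h6 : A.card ≤ Fintype.card (GaussWord N) := card_le_univ _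
    have h7 : Fintype.card (GaussWord N) = (2 * N).factorial := by
      rw [Fintype.card_equiv (finProdFinEquiv.symm.trans ((Equiv.refl _).prodCongr
        (finTwoEquiv)) |>.symm.trans (finCongr (by ring)) : Fin N × Bool ≃ Fin (2 * N))]
      rw [Fintype.card_prod, Fintype.card_fin, Fintype.card_bool, mul_comm]
    rw [h7] at h6
    exact_mod_cast h6
  calc ∑ G ∈ A, ‖ES G θ‖ ≤ |∑ G ∈ A, ‖ES G θ‖| := le_abs_self _
    _ ≤ (A.card : ℝ) * 2 ^ N * qq θ ^ ((N - 2) / 20) := h4
    _ ≤ ((2 * N).factorial * 2 ^ N) * qq θ ^ ((N - 2) / 20) := by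
        refine mul_le_mul_of_nonneg_right ?_ (pow_nonneg (qq_nonneg θ) _)
        exact mul_le_mul_of_nonneg_right h5 (by positivity)

end TOGp

open TOGp in
theorem t_TOG : S_TOG := by
  classical
  intro hS hC hI N θ hN
  have h1 : ∀ G : GaussWord N, ‖ES G θ‖ ≤ ∑ e : Fin 2,
      (if N - 2 ≤ 2 * (univ.filter fun k => (hh e G k).1 ≠ (hh e G k).2).card
        then ‖ES G θ‖ else 0) := by
    intro G
    obtain ⟨e, he⟩ := exists_good hN G
    refine le_trans ?_ (single_le_sum (f := fun e : Fin 2 =>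
      (if N - 2 ≤ 2 * (univ.filter fun k => (hh e G k).1 ≠ (hh e G k).2).card
        then ‖ES G θ‖ else 0)) (fun e _ => by split_ifs <;> positivity) (mem_univ e))
    rw [if_pos he]
  calc ∑ G : GaussWord N, ‖ES G θ‖ ≤ ∑ G : GaussWord N, ∑ e : Fin 2,
      (if N - 2 ≤ 2 * (univ.filter fun k => (hh e G k).1 ≠ (hh e G k).2).card
        then ‖ES G θ‖ else 0) := sum_le_sum fun G _ => h1 G
    _ = ∑ e : Fin 2, ∑ G ∈ univ.filter (fun G : GaussWord N =>
      N - 2 ≤ 2 * (univ.filter fun k => (hh e G k).1 ≠ (hh e G k).2).card), ‖ES G θ‖ := by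
        rw [sum_comm]
        refine sum_congr rfl fun e _ => ?_
        rw [sum_filter]
    _ ≤ ∑ e : Fin 2, ((2 * N).factorial * 2 ^ N : ℝ) * qq θ ^ ((N - 2) / 20) :=
        sum_le_sum fun e _ => parity_bound hS hC hI θ e
    _ = 2 * ((2 * N).factorial * 2 ^ N) *
        ((1 + |Real.cos (4 * Real.pi * θ)|) / 2) ^ ((N - 2) / 20) := by
        rw [Fin.sum_univ_two]
        unfold qq
        ring

end Pool.Agent.J6H1.RG
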