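import Pool.Agent.J6H1.RG.Stm

set_option autoImplicit false

namespace Pool.Agent.J6H1.RG

open Finset Function Pool.Agent.H832R2.JR

namespace TRIG

theorem abs_cos_le (x : ℝ) : |Real.cos x| ≤ Real.exp (-(Real.sin x ^ 2) / 2) := by
  have h1 : |Real.cos x| ^ 2 ≤ Real.exp (-(Real.sin x ^ 2) / 2) ^ 2 := by
    rw [sq_abs, ← Real.exp_nat_mul]
    have h2 : ((2 : ℕ) : ℝ) * (-(Real.sin x ^ 2) / 2) = -(Real.sin x ^ 2) := by push_cast; ring
    rw [h2]
    have h3 := Real.add_one_le_exp (-(Real.sin x ^ 2))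
    have h4 := Real.sin_sq_add_cos_sq x
    linarith
  exact le_of_sq_le_sq h1 (Real.exp_pos _).le

theorem sin_ge (x : ℝ) (hx : 0 ≤ x) : x - x ^ 3 / 6 ≤ Real.sin x := by
  have hm : MonotoneOn (fun y : ℝ => Real.sin y - (y - y ^ 3 / 6)) (Set.Ici 0) := by
    apply monotoneOn_of_deriv_nonneg (convex_Ici 0)
    · exact (Real.continuous_sin.sub (by fun_prop)).continuousOn
    · exact (Real.differentiable_sin.sub (by fun_prop)).differentiableOn
    · intro y _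
      have hd : HasDerivAt (fun y : ℝ => Real.sin y - (y - y ^ 3 / 6))
          (Real.cos y - (1 - (3 * y ^ 2) / 6)) y := by
        have h1 := (Real.hasDerivAt_sin y)
        have h2 := (hasDerivAt_id y)
        have h3 := (hasDerivAt_pow 3 y).div_const 6
        have h4 := h1.sub (h2.sub h3)
        exact h4.congr_deriv (by norm_num)
      rw [hd.deriv]
      have := Real.one_sub_sq_div_two_le_cos (x := y)
      linarith
  have h := hm (Set.mem_Ici.2 le_rfl) (Set.mem_Ici.2 hx) hx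
  simp at h
  linarith

theorem sin_sq_ge (x : ℝ) (hx : x ^ 2 ≤ 1) : x ^ 2 - x ^ 4 / 3 ≤ Real.sin x ^ 2 := by
  wlog h0 : 0 ≤ x with H
  · have h1 := H (-x) (by simpa using hx) (by linarith)
    rw [Real.sin_neg] at h1
    have e1 : (-x) ^ 2 = x ^ 2 := by ring
    have e2 : (-x) ^ 4 = x ^ 4 := by ring
    have e3 : (-Real.sin x) ^ 2 = Real.sin x ^ 2 := by ring
    rw [e1, e2, e3] at h1
    exact h1
  have h1 := sin_ge x h0
  have hx1 : x ≤ 1 := by nlinarith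
  have h2 : 0 ≤ x - x ^ 3 / 6 := by
    have : x ^ 3 ≤ x := by
      have : x ^ 3 = x * x ^ 2 := by ring
      nlinarith
    nlinarith
  have h3 : (x - x ^ 3 / 6) ^ 2 ≤ Real.sin x ^ 2 := pow_le_pow_left₀ h2 h1 2
  have h4 : (x - x ^ 3 / 6) ^ 2 = x ^ 2 - x ^ 4 / 3 + (x ^ 3 / 6) ^ 2 := by ring
  nlinarith [sq_nonneg (x ^ 3 / 6)]

theorem exp_neg_le (x : ℝ) (hx : 0 ≤ x) : Real.exp (-x) ≤ 1 - x + x ^ 2 / 2 := by
  have h1 := Real.quadratic_le_exp_of_nonneg hx
  have h2 : 0 < 1 + x + x ^ 2 / 2 := by positivity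
  rw [Real.exp_neg]
  have h3 : (Real.exp x)⁻¹ ≤ (1 + x + x ^ 2 / 2)⁻¹ := inv_anti₀ h2 h1
  refine h3.trans ?_
  rw [inv_le_iff_one_le_mul₀ h2]
  have : (1 - x + x ^ 2 / 2) * (1 + x + x ^ 2 / 2) = 1 + x ^ 4 / 4 := by ring
  rw [this]
  have : 0 ≤ x ^ 4 / 4 := by positivity
  linarith

theorem two_angles (α β : ℝ) : Real.sin (2 * α) ^ 2 / 2 ≤
    Real.sin (β + α) ^ 2 + Real.sin (β - α) ^ 2 := by
  have h1 : Real.sin (β + α) ^ 2 + Real.sin (β - α) ^ 2 = 1 - Real.cos (2 * α) * Real.cos (2 * β) := by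
    rw [Real.sin_add, Real.sin_sub, Real.cos_two_mul, Real.cos_two_mul]
    have ha := Real.sin_sq_add_cos_sq α
    have hb := Real.sin_sq_add_cos_sq β
    have ha' : Real.sin α ^ 2 = 1 - Real.cos α ^ 2 := by linarith
    have hb' : Real.sin β ^ 2 = 1 - Real.cos β ^ 2 := by linarith
    ring_nf
    rw [ha', hb']
    ring
  rw [h1]
  have h2 : Real.cos (2 * α) * Real.cos (2 * β) ≤ |Real.cos (2 * α)| := by
    calc _ ≤ |Real.cos (2 * α) * Real.cos (2 * β)| := le_abs_self _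
      _ = |Real.cos (2 * α)| * |Real.cos (2 * β)| := abs_mul _ _
      _ ≤ |Real.cos (2 * α)| * 1 :=
        mul_le_mul_of_nonneg_left (Real.abs_cos_le_one _) (abs_nonneg _)
      _ = _ := mul_one _
  have h3 : Real.sin (2 * α) ^ 2 = 1 - |Real.cos (2 * α)| ^ 2 := by
    rw [sq_abs]
    have := Real.sin_sq_add_cos_sq (2 * α)
    linarith
  rw [h3]
  nlinarith [sq_nonneg (|Real.cos (2 * α)| - 1)]

theorem sum_succ {m : ℕ} (f : (Fin (m + 1) → Bool) → ℝ) :
    ∑ t, f t = ∑ t : Fin m → Bool, (f (Fin.cons true t) + f (Fin.cons false t)) := by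
  rw [← (Fin.consEquiv fun _ : Fin (m + 1) => Bool).sum_comp, Fintype.sum_prod_type_right]
  refine sum_congr rfl fun t _ => ?_
  rw [Fintype.sum_bool]
  rfl

theorem moments (m : ℕ) (c : Fin m → ℝ) (hc : ∀ b, c b ^ 2 = 1) :
    ∑ t : Fin m → Bool, (∑ b, c b * (sgn (t b) : ℝ)) ^ 2 = 2 ^ m * m ∧
    ∑ t : Fin m → Bool, (∑ b, c b * (sgn (t b) : ℝ)) ^ 4 = 2 ^ m * (3 * m ^ 2 - 2 * m) := by
  induction m with
  | zero => simp
  | succ m ih =>
    obtain ⟨i1, i2⟩ := ih (fun b => c b.succ) (fun b => hc _)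
    have h0 := hc 0
    have h04 : c 0 ^ 4 = 1 := by
      have : c 0 ^ 4 = (c 0 ^ 2) ^ 2 := by ring
      rw [this, h0]; norm_num
    constructor
    · rw [sum_succ]
      have : ∀ t : Fin m → Bool,
          (∑ b, c b * (sgn ((Fin.cons true t : Fin (m + 1) → Bool) b) : ℝ)) ^ 2 +
          (∑ b, c b * (sgn ((Fin.cons false t : Fin (m + 1) → Bool) b) : ℝ)) ^ 2 =
          2 + 2 * (∑ b, c b.succ * (sgn (t b) : ℝ)) ^ 2 := by
        intro t
        rw [Fin.sum_univ_succ, Fin.sum_univ_succ]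
        simp only [Fin.cons_zero, Fin.cons_succ, sgn, if_true, Bool.false_eq_true, if_false]
        push_cast
        linear_combination 2 * h0
      rw [sum_congr rfl fun t _ => this t, sum_add_distrib, ← mul_sum, i1]
      simp
      ring
    · rw [sum_succ]
      have : ∀ t : Fin m → Bool,
          (∑ b, c b * (sgn ((Fin.cons true t : Fin (m + 1) → Bool) b) : ℝ)) ^ 4 +
          (∑ b, c b * (sgn ((Fin.cons false t : Fin (m + 1) → Bool) b) : ℝ)) ^ 4 =
          2 + 12 * (∑ b, c b.succ * (sgn (t b) : ℝ)) ^ 2 +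
            2 * (∑ b, c b.succ * (sgn (t b) : ℝ)) ^ 4 := by
        intro t
        rw [Fin.sum_univ_succ, Fin.sum_univ_succ]
        simp only [Fin.cons_zero, Fin.cons_succ]
        generalize ∑ b : Fin m, c b.succ * (sgn (t b) : ℝ) = r
        have e1 : (sgn true : ℝ) = 1 := by simp [sgn]
        have e2 : (sgn false : ℝ) = -1 := by simp [sgn]
        rw [e1, e2]
        linear_combination 2 * h04 + 12 * r ^ 2 * h0
      rw [sum_congr rfl fun t _ => this t, sum_add_distrib, sum_add_distrib, ← mul_sum, ← mul_sum,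
        i1, i2]
      simp
      ring

end TRIG

open TRIG in
theorem t_TRIG : S_TRIG := by
  intro m ε l κ hm hε hκ
  set R : Fin m → (Fin m → Bool) → ℝ := fun a t => ∑ b, (ε a b : ℝ) * (sgn (t b) : ℝ) with hR
  set L : ℝ := (2 * κ * m) ^ 2 with hL
  have hmR : (1 : ℝ) ≤ m := by exact_mod_cast hm
  have hL0 : 0 ≤ L := sq_nonneg _
  have hε2 : ∀ a b, ((ε a b : ℝ)) ^ 2 = 1 := by
    intro a b
    rcases hε a b with h | h <;> rw [h] <;> norm_num
  -- the moments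
  have hM2 : ∀ a, ∑ t, R a t ^ 2 = 2 ^ m * m := fun a => (moments m _ (hε2 a)).1
  have hM4 : ∀ a, ∑ t, R a t ^ 4 = 2 ^ m * (3 * m ^ 2 - 2 * m) := fun a => (moments m _ (hε2 a)).2
  -- bound of R
  have hRb : ∀ a t, (R a t) ^ 2 ≤ (m : ℝ) ^ 2 := by
    intro a t
    have h1 : |R a t| ≤ m := by
      calc |R a t| ≤ ∑ b, |(ε a b : ℝ) * (sgn (t b) : ℝ)| := abs_sum_le_sum_abs _ _
        _ ≤ ∑ _b : Fin m, (1 : ℝ) := by
          refine sum_le_sum fun b _ => ?_
          rw [abs_mul]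
          have e1 : |(ε a b : ℝ)| = 1 := by
            rcases hε a b with h | h <;> rw [h] <;> norm_num
          have e2 : |(sgn (t b) : ℝ)| = 1 := by
            cases t b <;> simp [sgn]
          rw [e1, e2]; norm_num
        _ = m := by simp
    rw [← sq_abs]
    exact pow_le_pow_left₀ (abs_nonneg _) h1 2
  -- Y
  set Y : (Fin m → Bool) → ℝ := fun t => ∑ a, Real.sin (2 * (κ * R a t)) ^ 2 / 2 with hY
  have hY0 : ∀ t, 0 ≤ Y t := fun t => sum_nonneg fun a _ => by positivity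
  set Z : (Fin m → Bool) → ℝ := fun t => ∑ a, Real.sin (κ * (R a t + l a)) ^ 2 with hZ
  have hZ0 : ∀ t, 0 ≤ Z t := fun t => sum_nonneg fun a _ => sq_nonneg _
  have hstep1 : ∀ t, ∏ a, |Real.cos (κ * (R a t + l a))| ≤ Real.exp (-(Z t) / 2) := by
    intro t
    have : Real.exp (-(Z t) / 2) = ∏ a, Real.exp (-(Real.sin (κ * (R a t + l a)) ^ 2) / 2) := by
      rw [← Real.exp_sum]
      congr 1
      rw [hZ]
      simp only
      rw [← sum_neg_distrib, sum_div]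
    rw [this]
    exact prod_le_prod (fun a _ => abs_nonneg _) (fun a _ => abs_cos_le _)
  -- complement
  set cpl : (Fin m → Bool) → (Fin m → Bool) := fun t b => !(t b) with hcpl
  have hcpl2 : Involutive cpl := by
    intro t; funext b; simp [hcpl]
  have hRc : ∀ a t, R a (cpl t) = - R a t := by
    intro a t
    simp only [hR, hcpl]
    rw [← sum_neg_distrib]
    refine sum_congr rfl fun b _ => ?_
    cases t b <;> simp [sgn]
  have hsumc : ∀ f : (Fin m → Bool) → ℝ, ∑ t, f (cpl t) = ∑ t, f t := by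
    intro f
    exact Equiv.sum_comp (hcpl2.toPerm cpl) f
  have hZY : ∀ t, Y t ≤ Z t + Z (cpl t) := by
    intro t
    simp only [hY, hZ]
    rw [← sum_add_distrib]
    refine sum_le_sum fun a _ => ?_
    rw [hRc]
    have h := two_angles (κ * R a t) (κ * l a)
    have e1 : κ * l a + κ * R a t = κ * (R a t + l a) := by ring
    have e2 : Real.sin (κ * (-R a t + l a)) = Real.sin (κ * l a - κ * R a t) := by
      congr 1; ring
    rw [e1] at h
    rw [e2]
    exact h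
  have hstep2 : ∑ t, Real.exp (-(Z t) / 2) ≤ ∑ t, (1 + Real.exp (-(Y t / 2))) / 2 := by
    have h1 : ∑ t, Real.exp (-(Z t) / 2) =
        ∑ t, (Real.exp (-(Z t) / 2) + Real.exp (-(Z (cpl t)) / 2)) / 2 := by
      rw [← sum_div, sum_add_distrib, hsumc (fun t => Real.exp (-(Z t) / 2))]
      ring
    rw [h1]
    refine sum_le_sum fun t _ => ?_
    have hu : Real.exp (-(Z t) / 2) ≤ 1 := by
      rw [Real.exp_le_one_iff]; have := hZ0 t; linarith
    have hv : Real.exp (-(Z (cpl t)) / 2) ≤ 1 := by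
      rw [Real.exp_le_one_iff]; have := hZ0 (cpl t); linarith
    have huv : Real.exp (-(Z t) / 2) * Real.exp (-(Z (cpl t)) / 2) ≤ Real.exp (-(Y t / 2)) := by
      rw [← Real.exp_add]
      apply Real.exp_le_exp.2
      have := hZY t
      linarith
    nlinarith
  have hstep3 : ∀ t, (1 + Real.exp (-(Y t / 2))) / 2 ≤ 1 - Y t / 4 + Y t ^ 2 / 16 := by
    intro t
    have := exp_neg_le (Y t / 2) (by have := hY0 t; positivity)
    nlinarith
  -- lower bound of the sum of Y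
  have hYlow : 2 ^ m * ((L - L ^ 2) / 2) ≤ ∑ t, Y t := by
    have h1 : ∀ t, ∑ a, ((2 * κ) ^ 2 * R a t ^ 2 - (2 * κ) ^ 4 * R a t ^ 4 / 3) / 2 ≤ Y t := by
      intro t
      refine sum_le_sum fun a _ => ?_
      have h2 : (2 * (κ * R a t)) ^ 2 ≤ 1 := by
        have e : (2 * (κ * R a t)) ^ 2 = (2 * κ) ^ 2 * R a t ^ 2 := by ring
        rw [e]
        have h3 : (2 * κ) ^ 2 * R a t ^ 2 ≤ (2 * κ) ^ 2 * (m : ℝ) ^ 2 :=
          mul_le_mul_of_nonneg_left (hRb a t) (sq_nonneg _)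
        have h4 : (2 * κ) ^ 2 * (m : ℝ) ^ 2 = L := by rw [hL]; ring
        linarith
      have h3 := sin_sq_ge _ h2
      have e2 : (2 * (κ * R a t)) ^ 2 = (2 * κ) ^ 2 * R a t ^ 2 := by ring
      have e4 : (2 * (κ * R a t)) ^ 4 = (2 * κ) ^ 4 * R a t ^ 4 := by ring
      rw [e2, e4] at h3
      linarith
    refine le_trans ?_ (sum_le_sum fun t _ => h1 t)
    rw [sum_comm]
    have h2 : ∀ a, ∑ t, ((2 * κ) ^ 2 * R a t ^ 2 - (2 * κ) ^ 4 * R a t ^ 4 / 3) / 2 =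
        2 ^ m * (((2 * κ) ^ 2 * m - (2 * κ) ^ 4 * (3 * m ^ 2 - 2 * m) / 3) / 2) := by
      intro a
      rw [← sum_div, sum_sub_distrib, ← mul_sum, ← sum_div, ← mul_sum, hM2, hM4]
      ring
    rw [sum_congr rfl fun a _ => h2 a, sum_const, card_univ, Fintype.card_fin, nsmul_eq_mul]
    have h3 : (m : ℝ) * (2 ^ m * (((2 * κ) ^ 2 * m - (2 * κ) ^ 4 * (3 * m ^ 2 - 2 * m) / 3) / 2)) =
        2 ^ m * ((L - (2 * κ) ^ 4 * (m * (3 * m ^ 2 - 2 * m) / 3)) / 2) := by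
      rw [hL]; ring
    rw [h3]
    have h4 : (2 * κ) ^ 4 * ((m : ℝ) * (3 * m ^ 2 - 2 * m) / 3) ≤ L ^ 2 := by
      have : L ^ 2 = (2 * κ) ^ 4 * (m : ℝ) ^ 4 := by rw [hL]; ring
      rw [this]
      refine mul_le_mul_of_nonneg_left ?_ (by positivity)
      have h5 : (m : ℝ) ^ 4 - (m : ℝ) * (3 * m ^ 2 - 2 * m) / 3 =
        (m : ℝ) ^ 2 * ((m : ℝ) ^ 2 - m + 2 / 3) := by ring
      have h6 : 0 ≤ (m : ℝ) ^ 2 * ((m : ℝ) ^ 2 - m + 2 / 3) := by
        apply mul_nonneg (sq_nonneg _)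
        nlinarith
      linarith
    refine mul_le_mul_of_nonneg_left ?_ (by positivity)
    linarith
  -- upper bound of the sum of Y ^ 2
  have hYup : ∑ t, Y t ^ 2 ≤ 2 ^ m * (3 / 4 * L ^ 2) := by
    have h1 : ∀ t, Y t ^ 2 ≤ m * ∑ a, (2 * κ) ^ 4 * R a t ^ 4 / 4 := by
      intro t
      have h2 : Y t ≤ ∑ a, (2 * κ) ^ 2 * R a t ^ 2 / 2 := by
        refine sum_le_sum fun a _ => ?_
        have h3 : Real.sin (2 * (κ * R a t)) ^ 2 ≤ (2 * (κ * R a t)) ^ 2 := Real.sin_sq_le_sq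
        have e2 : (2 * (κ * R a t)) ^ 2 = (2 * κ) ^ 2 * R a t ^ 2 := by ring
        rw [e2] at h3
        linarith
      have h3 := sq_sum_le_card_mul_sum_sq (s := (univ : Finset (Fin m)))
        (f := fun a => (2 * κ) ^ 2 * R a t ^ 2 / 2)
      rw [card_univ, Fintype.card_fin] at h3
      calc Y t ^ 2 ≤ (∑ a, (2 * κ) ^ 2 * R a t ^ 2 / 2) ^ 2 := pow_le_pow_left₀ (hY0 t) h2 2
        _ ≤ _ := h3
        _ = _ := by
          congr 1
          refine sum_congr rfl fun a _ => ?_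
          ring
    refine (sum_le_sum fun t _ => h1 t).trans ?_
    rw [← mul_sum, sum_comm]
    have h2 : ∀ a, ∑ t, (2 * κ) ^ 4 * R a t ^ 4 / 4 =
        2 ^ m * ((2 * κ) ^ 4 * (3 * m ^ 2 - 2 * m) / 4) := by
      intro a
      rw [← sum_div, ← mul_sum, hM4]
      ring
    rw [sum_congr rfl fun a _ => h2 a, sum_const, card_univ, Fintype.card_fin, nsmul_eq_mul]
    have h3 : (m : ℝ) * (m * (2 ^ m * ((2 * κ) ^ 4 * (3 * m ^ 2 - 2 * m) / 4))) =
      2 ^ m * (3 / 4 * L ^ 2 - (2 * κ) ^ 4 * (m ^ 3 / 2)) := by rw [hL]; ring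
    rw [h3]
    refine mul_le_mul_of_nonneg_left ?_ (by positivity)
    have : 0 ≤ (2 * κ) ^ 4 * ((m : ℝ) ^ 3 / 2) := by positivity
    linarith
  calc ∑ t, ∏ a, |Real.cos (κ * (R a t + l a))| ≤ ∑ t, Real.exp (-(Z t) / 2) :=
        sum_le_sum fun t _ => hstep1 t
    _ ≤ ∑ t, (1 + Real.exp (-(Y t / 2))) / 2 := hstep2
    _ ≤ ∑ t, (1 - Y t / 4 + Y t ^ 2 / 16) := sum_le_sum fun t _ => hstep3 t
    _ = 2 ^ m - (∑ t, Y t) / 4 + (∑ t, Y t ^ 2) / 16 := by
        rw [sum_add_distrib, sum_sub_distrib, ← sum_div, ← sum_div]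
        simp
    _ ≤ 2 ^ m - (2 ^ m * ((L - L ^ 2) / 2)) / 4 + (2 ^ m * (3 / 4 * L ^ 2)) / 16 := by linarith
    _ = 2 ^ m * (1 - (L - L ^ 2) / 8 + 3 / 64 * L ^ 2) := by ring
    _ ≤ 2 ^ m * (1 - L / 16) := by
        refine mul_le_mul_of_nonneg_left ?_ (by positivity)
        nlinarith

end Pool.Agent.J6H1.RG
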